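import Mathlib
import Pool.Agent.Lib_MP_11aa79_an.Words
import Pool.Agent.Lib_MP_11aa79_an.Conv

/-!
# Definitions for MP_11aa79_an Q2 (products are not dense in the augmentation ideal)

`Lr` = letters (`(i, true)` positive, `(i, false)` negative), `F2` = free group on two generators.
`lt s` (from helper3's library) is the group element of the letter `s`;
`St s g` says that the reduced word of `g` starts with the letter `s`.
-/

namespace Pool.Agent.Aug

open Pool.Agent.Lib_MP_11aa79_an
open scoped Classical

/-- letters -/
abbrev Lr : Type := Fin 2 × Bool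

/-- the free group on two generators -/
abbrev F2 : Type := FreeGroup (Fin 2)

/-- the finset of words (lists of letters, not necessarily reduced) of length `n` -/
def wd (n : ℕ) : Finset (List Lr) :=
  (Finset.univ : Finset (List.Vector Lr n)).map ⟨Subtype.val, Subtype.val_injective⟩

/-- multiplicative weight of a word -/
def bw (β : Lr → ℂ) (w : List Lr) : ℂ := (w.map β).prod

/-- weighted sum over the words of length `n` -/
noncomputable def WS (β : Lr → ℂ) (n : ℕ) (f : List Lr → ℂ) : ℂ := ∑ w ∈ wd n, bw β w * f w

/-- two-sided weighted sum: words of length `n` inserted between `A` and `B` -/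
noncomputable def W2 (β : Lr → ℂ) (f : List Lr → ℂ) (n : ℕ) (A B : List Lr) : ℂ :=
  WS β n (fun w => f (A ++ w ++ B))

/-- the reduced word of `g` starts with a positive letter -/
def SP (g : F2) : Prop := ∃ i, St (i, true) g

/-- the reduced word of `g` ends with a positive letter -/
def EP (g : F2) : Prop := ∃ i, St (i, false) g⁻¹

/-- a function on the group as a function on words (zero on words which are not reduced) -/
noncomputable def hat (f : F2 → ℂ) (X : List Lr) : ℂ :=
  if FreeGroup.IsReduced X then f (FreeGroup.mk X) else 0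

/-- the unit of the convolution algebra -/
noncomputable def del (g : F2) : ℂ := if g = 1 then 1 else 0

/-- coefficients of the basic element -/
noncomputable def al (s : Lr) : ℂ :=
  if s = (0, true) then ⟨1 / 2, 3 / 8⟩ else if s = (1, true) then ⟨1 / 2, -(3 / 8)⟩ else 0

/-- the basic element `al x * x + al y * y`; `del - T0` is the centre of the ball without products -/
noncomputable def T0 (g : F2) : ℂ :=
  if g = lt (0, true) then ⟨1 / 2, 3 / 8⟩ else if g = lt (1, true) then ⟨1 / 2, -(3 / 8)⟩ else 0

/-- Data in the world of words: `t` = weights of blocks, `β` = weights of letters. -/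
structure LW (t : List Lr → ℂ) (β : Lr → ℂ) : Prop where
  t_nil : t [] = 0
  summ : Summable fun X => ‖t X‖
  one : ∀ s, ‖t [s]‖ ≤ 7 / 10
  long : ∑' X, (if 2 ≤ X.length then ‖t X‖ else 0) ≤ 1 / 40
  β_le : ∀ s, ‖β s‖ ≤ 9 / 10
  total : ∑' X, bw β X * t X = 1

/-- `P` is the inverse of `1 - t` in the world of words: `P X` is the sum over all factorisations
of the word `X` into nonempty blocks of the product of the weights `t` of the blocks. -/
structure LP (t P : List Lr → ℂ) : Prop where
  nil : P [] = 1
  step : ∀ X, X ≠ [] → P X = ∑ j ∈ Finset.range X.length, P (X.take j) * t (X.drop j)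

/-- Data in the group. -/
structure GD (t : F2 → ℂ) (β : Lr → ℂ) : Prop where
  supp : ∀ g, t g ≠ 0 → SP g ∧ EP g
  summ : Summable fun g => ‖t g‖
  lw : LW (hat t) β
  β_neg : ∀ i, β (i, false) = 0

/-- `p` is a two-sided inverse of `del - t`. -/
structure PD (t p : F2 → ℂ) : Prop where
  supp : ∀ g, p g ≠ 0 → g = 1 ∨ (SP g ∧ EP g)
  bdd : ∃ C : ℝ, ∀ g, ‖p g‖ ≤ C
  right : ∀ g, p g = del g + ∑' k, p (g * k⁻¹) * t k
  left : ∀ g, p g = del g + ∑' k, t k * p (k⁻¹ * g)

/-- sums of `p (g w h)` over positive words `w` of length `n` (weights `β`). -/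
noncomputable def FF (β : Lr → ℂ) (p : F2 → ℂ) (n : ℕ) (g h : F2) : ℂ :=
  WS β n (fun w => p (g * FreeGroup.mk w * h))

end Pool.Agent.Aug
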