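import Mathlib
import Pool.Agent.Lib_MP_11aa79_q2.Defs
import Pool.Agent.Lib_MP_11aa79_an.Shift
import Pool.Agent.Lib_MP_11aa79_an.DirFin

/-!
# PIECE A1D (about 130 lines): the convolution algebra `l1` of the free group as a normed ring.

All proved.

PROOFS. `a1_norm`: `lp.norm_eq_tsum_rpow` with `p = 1`. `conv` of summable functions is summable
(`summable_conv`), `a1_ext`: `Subtype.ext`. `mul_assoc`: either Fubini, or by the faithful
representation: `rep (lam F2) (conv b c) = rep b * rep c` (`rep_conv`) is injective on summable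
functions since `rep (lam F2) b (dl 1)` has coordinates `b`
(`rep_lam_apply`; `dl` is in `Lib_MP_11aa79_an/DirFin.lean`, it may be imported).
Distributivity: `tsum_add` (with the summability from `summable_pair` / a bounded times summable
family). `one_mul`, `mul_one`: only one term of the sum is nonzero. `norm_mul_le`: as in
`summable_conv`: `∑_x ‖∑_g b g c (g⁻¹x)‖ ≤ ∑_x ∑_g ‖b g‖ ‖c (g⁻¹ x)‖ = ∑‖b‖ ∑‖c‖`
(apply `tsum_conv` to `‖b ·‖`, `‖c ·‖` as complex functions, or Fubini directly).
-/

namespace Pool.Agent.Aug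

open Pool.Agent.Lib_MP_11aa79_an
open scoped Classical

/-- the Banach space of absolutely summable functions on the free group -/
def A1 : Type := lp (fun _ : F2 => ℂ) 1

noncomputable instance : NormedAddCommGroup A1 :=
  inferInstanceAs (NormedAddCommGroup (lp (fun _ : F2 => ℂ) 1))

/-- auxiliary; the instance of `NormedSpace ℂ A1` comes from `NormedAlgebra ℂ A1` below -/
@[reducible] noncomputable def a1NS : NormedSpace ℂ A1 :=
  inferInstanceAs (NormedSpace ℂ (lp (fun _ : F2 => ℂ) 1))

noncomputable instance : CompleteSpace A1 :=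
  inferInstanceAs (CompleteSpace (lp (fun _ : F2 => ℂ) 1))

/-- the function underlying an element -/
def A1.fn (f : A1) : F2 → ℂ := f.1

theorem a1_mem {f : F2 → ℂ} (hf : Summable fun g => ‖f g‖) : Memℓp f 1 := by
  refine memℓp_gen ?_
  simpa using hf

/-- the element given by an absolutely summable function -/
def A1.of (f : F2 → ℂ) (hf : Summable fun g => ‖f g‖) : A1 := ⟨f, a1_mem hf⟩

theorem A1.fn_of (f : F2 → ℂ) (hf : Summable fun g => ‖f g‖) : (A1.of f hf).fn = f := rfl

theorem a1_summable (f : A1) : Summable fun g => ‖f.fn g‖ := by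
  have h := (memℓp_gen_iff (p := 1) (by norm_num)).1 (lp.memℓp f)
  simp at h
  exact h

theorem a1_ext {f g : A1} (h : f.fn = g.fn) : f = g := Subtype.ext h

theorem fn_add (f g : A1) : (f + g).fn = fun x => f.fn x + g.fn x := rfl

theorem fn_sub (f g : A1) : (f - g).fn = fun x => f.fn x - g.fn x := rfl

theorem fn_neg (f : A1) : (-f).fn = fun x => -f.fn x := rfl

theorem fn_zero : (0 : A1).fn = fun _ => 0 := rfl

theorem a1_norm (f : A1) : ‖f‖ = ∑' g, ‖f.fn g‖ := by
  have h := lp.norm_eq_tsum_rpow (E := fun _ : F2 => ℂ) (p := 1) (by norm_num) f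
  simp only [ENNReal.toReal_one, Real.rpow_one, div_one] at h
  exact h

theorem del_summable' : Summable fun g : F2 => ‖del g‖ := by
  refine summable_of_hasFiniteSupport ((Set.finite_singleton (1 : F2)).subset ?_)
  intro x hx
  by_contra hne
  simp only [Set.mem_singleton_iff] at hne
  simp [del, hne] at hx

theorem a1d_summable_mul {f g : F2 → ℂ} (hf : Summable fun x => ‖f x‖)
    (hg : Summable fun x => ‖g x‖) (x : F2) : Summable fun y => f y * g (y⁻¹ * x) := by
  have h := (summable_pair hf hg).of_norm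
  exact h.comp_injective (i := fun y : F2 => (y, x)) (fun a b hab => (Prod.ext_iff.1 hab).1)

theorem a1d_conv_del (b : F2 → ℂ) (x : F2) : conv b del x = b x := by
  unfold conv del
  rw [tsum_eq_single x]
  · simp
  · intro y hy
    rw [if_neg, mul_zero]
    intro h
    apply hy
    exact (inv_mul_eq_one.1 h)

theorem a1d_del_conv (b : F2 → ℂ) (x : F2) : conv del b x = b x := by
  unfold conv del
  rw [tsum_eq_single 1]
  · simp
  · intro y hy
    rw [if_neg hy, zero_mul]

theorem a1d_rep_inj {b c : F2 → ℂ} (hb : Summable fun g => ‖b g‖) (hc : Summable fun g => ‖c g‖)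
    (h : rep (lam F2) b = rep (lam F2) c) : b = c := by
  have key : ∀ {b : F2 → ℂ}, (Summable fun g => ‖b g‖) → ∀ x, rep (lam F2) b (dl 1) x = b x := by
    intro b hb x
    rw [rep_lam_apply hb]
    have : (fun g : F2 => (dl 1 : L2 F2) g) = del := by
      funext g
      rw [dl_apply]
      unfold del
      split_ifs <;> rfl
    rw [this, a1d_conv_del]
  funext x
  rw [← key hb x, ← key hc x, h]

theorem a1d_conv_assoc {f g h : F2 → ℂ} (hf : Summable fun x => ‖f x‖)
    (hg : Summable fun x => ‖g x‖) (hh : Summable fun x => ‖h x‖) :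
    conv (conv f g) h = conv f (conv g h) := by
  apply a1d_rep_inj (summable_conv (summable_conv hf hg) hh)
    (summable_conv hf (summable_conv hg hh))
  rw [rep_conv _ (summable_conv hf hg) hh, rep_conv _ hf hg,
    rep_conv _ hf (summable_conv hg hh), rep_conv _ hg hh, mul_assoc]

noncomputable instance : Mul A1 :=
  ⟨fun f g => A1.of (conv f.fn g.fn) (summable_conv (a1_summable f) (a1_summable g))⟩

noncomputable instance : One A1 := ⟨A1.of del del_summable'⟩

theorem fn_mul (f g : A1) : (f * g).fn = conv f.fn g.fn := rfl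

theorem fn_one : (1 : A1).fn = del := rfl

theorem a1_left_distrib (f g h : A1) : f * (g + h) = f * g + f * h := by
  apply a1_ext
  funext x
  change ∑' y, f.fn y * (g.fn (y⁻¹ * x) + h.fn (y⁻¹ * x)) =
    (∑' y, f.fn y * g.fn (y⁻¹ * x)) + ∑' y, f.fn y * h.fn (y⁻¹ * x)
  rw [← (a1d_summable_mul (a1_summable f) (a1_summable g) x).tsum_add
    (a1d_summable_mul (a1_summable f) (a1_summable h) x)]
  congr 1
  funext y
  ring

theorem a1_right_distrib (f g h : A1) : (f + g) * h = f * h + g * h := by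
  apply a1_ext
  funext x
  change ∑' y, (f.fn y + g.fn y) * h.fn (y⁻¹ * x) =
    (∑' y, f.fn y * h.fn (y⁻¹ * x)) + ∑' y, g.fn y * h.fn (y⁻¹ * x)
  rw [← (a1d_summable_mul (a1_summable f) (a1_summable h) x).tsum_add
    (a1d_summable_mul (a1_summable g) (a1_summable h) x)]
  congr 1
  funext y
  ring

theorem a1_zero_mul (f : A1) : 0 * f = 0 := by
  apply a1_ext
  funext x
  change ∑' y, (0 : ℂ) * f.fn (y⁻¹ * x) = 0
  simp

theorem a1_mul_zero (f : A1) : f * 0 = 0 := by
  apply a1_ext
  funext x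
  change ∑' y, f.fn y * (0 : ℂ) = 0
  simp

theorem a1_mul_assoc (f g h : A1) : f * g * h = f * (g * h) :=
  a1_ext (a1d_conv_assoc (a1_summable f) (a1_summable g) (a1_summable h))

theorem a1_one_mul (f : A1) : 1 * f = f :=
  a1_ext (funext fun x => a1d_del_conv f.fn x)

theorem a1_mul_one (f : A1) : f * 1 = f :=
  a1_ext (funext fun x => a1d_conv_del f.fn x)

theorem a1_norm_mul_le (f g : A1) : ‖f * g‖ ≤ ‖f‖ * ‖g‖ := by
  rw [a1_norm, a1_norm, a1_norm]
  have hf := a1_summable f
  have hg := a1_summable g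
  have hF : Summable fun x => ‖((‖f.fn x‖ : ℝ) : ℂ)‖ := by simpa using hf
  have hG : Summable fun x => ‖((‖g.fn x‖ : ℝ) : ℂ)‖ := by simpa using hg
  have h1 := tsum_conv hF hG
  have h2 : ∀ x, conv (fun x => ((‖f.fn x‖ : ℝ) : ℂ)) (fun x => ((‖g.fn x‖ : ℝ) : ℂ)) x =
      ((∑' y, ‖f.fn y * g.fn (y⁻¹ * x)‖ : ℝ) : ℂ) := by
    intro x
    unfold conv
    rw [Complex.ofReal_tsum]
    congr 1
    funext y
    rw [norm_mul]
    push_cast
    rfl
  have h3 : ∑' x, ∑' y, ‖f.fn y * g.fn (y⁻¹ * x)‖ = (∑' x, ‖f.fn x‖) * ∑' x, ‖g.fn x‖ := by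
    have h4 : (fun x => conv (fun x => ((‖f.fn x‖ : ℝ) : ℂ)) (fun x => ((‖g.fn x‖ : ℝ) : ℂ)) x) =
      fun x => ((∑' y, ‖f.fn y * g.fn (y⁻¹ * x)‖ : ℝ) : ℂ) := funext h2
    rw [h4, ← Complex.ofReal_tsum, ← Complex.ofReal_tsum, ← Complex.ofReal_tsum,
      ← Complex.ofReal_mul] at h1
    exact Complex.ofReal_injective h1
  rw [← h3]
  have h5 : Summable fun p : F2 × F2 => ‖f.fn p.2 * g.fn (p.2⁻¹ * p.1)‖ :=
    (Equiv.prodComm F2 F2).summable_iff.2 (summable_pair hf hg)
  refine Summable.tsum_le_tsum (fun x => ?_) (a1_summable (f * g)) h5.prod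
  exact norm_tsum_le_tsum_norm (h5.prod_factor x)

theorem a1_smul_mul (c : ℂ) (f g : A1) : a1NS.smul c f * g = a1NS.smul c (f * g) := by
  apply a1_ext
  funext x
  change ∑' y, (c * f.fn y) * g.fn (y⁻¹ * x) = c * ∑' y, f.fn y * g.fn (y⁻¹ * x)
  rw [← tsum_mul_left]
  congr 1
  funext y
  ring

theorem a1_mul_smul (c : ℂ) (f g : A1) : f * a1NS.smul c g = a1NS.smul c (f * g) := by
  apply a1_ext
  funext x
  change ∑' y, f.fn y * (c * g.fn (y⁻¹ * x)) = c * ∑' y, f.fn y * g.fn (y⁻¹ * x)
  rw [← tsum_mul_left]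
  congr 1
  funext y
  ring

noncomputable instance : NormedRing A1 :=
  { (inferInstance : NormedAddCommGroup A1) with
    left_distrib := a1_left_distrib
    right_distrib := a1_right_distrib
    zero_mul := a1_zero_mul
    mul_zero := a1_mul_zero
    mul_assoc := a1_mul_assoc
    one_mul := a1_one_mul
    mul_one := a1_mul_one
    norm_mul_le := a1_norm_mul_le }

noncomputable instance : Algebra ℂ A1 :=
  letI := a1NS
  Algebra.ofModule a1_smul_mul a1_mul_smul

noncomputable instance : NormedAlgebra ℂ A1 :=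
  { norm_smul_le := fun c f => a1NS.norm_smul_le c f }

theorem fn_smul (c : ℂ) (f : A1) : (c • f).fn = fun x => c * f.fn x := rfl

end Pool.Agent.Aug
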