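import Mathlib
import Pool.Agent.Lib_MP_11aa79_q2.A1D

/-!
# PIECE A1E (about 80 lines): point masses in the algebra `A1`.

PROOFS. `fn_hasSum`: `‖f.fn g‖ ≤ ‖f‖` (`a1_norm`, one term of the sum), so evaluation at `g` is a
continuous additive map (`AddMonoidHom.continuous_of_bound`, or `HasSum.mapL` for
`lp.evalCLM ℂ (fun _ : F2 => ℂ) 1 g`). `pm_mul`: `conv` of two point masses: in
`∑'_y [y = g] [y⁻¹ x = h]` only `y = g` contributes. `norm_pm`: `a1_norm`, `tsum_ite_eq`.
`hasSum_pm`: `lp.hasSum_single` for `p = 1` (`pm g` is `lp.single 1 g 1`), or directly: the tail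
`f - ∑_{g ∈ s} f.fn g • pm g` has norm `∑'_{g ∉ s} ‖f.fn g‖`.
-/

namespace Pool.Agent.Aug

open Pool.Agent.Lib_MP_11aa79_an
open scoped Classical

/-- evaluation is continuous and linear: value of a convergent sum -/
theorem fn_hasSum {ι : Type*} {u : ι → A1} {f : A1} (h : HasSum u f) (g : F2) :
    HasSum (fun i => (u i).fn g) (f.fn g) := by
  let φ : A1 →+ ℂ :=
    { toFun := fun f => f.fn g
      map_zero' := rfl
      map_add' := fun a b => rfl }
  have hc : Continuous φ := by
    refine AddMonoidHomClass.continuous_of_bound φ 1 (fun x => ?_)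
    rw [one_mul, a1_norm]
    exact (a1_summable x).le_tsum g (fun _ _ => norm_nonneg _)
  exact h.map φ hc

/-- the point masses -/
noncomputable def pm (g : F2) : A1 :=
  A1.of (fun x => if x = g then 1 else 0) (by
    refine summable_of_hasFiniteSupport ((Set.finite_singleton g).subset ?_)
    intro x hx
    by_contra hne
    simp only [Set.mem_singleton_iff] at hne
    simp [hne] at hx)

theorem fn_pm (g x : F2) : (pm g).fn x = if x = g then 1 else 0 := rfl

theorem pm_one : pm 1 = 1 := rfl

theorem pm_mul (g h : F2) : pm g * pm h = pm (g * h) := by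
  apply a1_ext
  rw [fn_mul]
  funext x
  unfold conv
  rw [tsum_eq_single g]
  · rw [fn_pm, fn_pm, fn_pm, if_pos rfl, one_mul]
    by_cases hx : x = g * h
    · rw [if_pos hx, if_pos (by rw [hx]; group)]
    · rw [if_neg hx, if_neg (fun h' => hx (by rw [← h']; group))]
  · intro y hy
    rw [fn_pm, if_neg hy, zero_mul]

theorem norm_pm (g : F2) : ‖pm g‖ = 1 := by
  rw [a1_norm, tsum_eq_single g]
  · rw [fn_pm, if_pos rfl, norm_one]
  · intro y hy
    rw [fn_pm, if_neg hy, norm_zero]

/-- every element is the sum of its point masses -/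
theorem hasSum_pm (f : A1) : HasSum (fun g => f.fn g • pm g) f := by
  have h := lp.hasSum_single (p := 1) (E := fun _ : F2 => ℂ) (by norm_num)
    (show lp (fun _ : F2 => ℂ) 1 from f)
  have h2 : (fun g => f.fn g • pm g) =
      fun g => (show A1 from lp.single (E := fun _ : F2 => ℂ) 1 g (f.fn g)) := by
    funext g
    apply a1_ext
    rw [fn_smul]
    funext x
    change _ = (lp.single (E := fun _ : F2 => ℂ) 1 g (f.fn g) : F2 → ℂ) x
    rw [lp.coeFn_single, fn_pm, Pi.single_apply]
    split_ifs <;> simp
  rw [h2]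
  exact h

/-- the augmentation -/
noncomputable def aug (f : A1) : ℂ := ∑' g, f.fn g

theorem aug_mul (f g : A1) : aug (f * g) = aug f * aug g :=
  tsum_conv (a1_summable f) (a1_summable g)

end Pool.Agent.Aug
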