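import Mathlib
import Pool.Agent.Lib_MP_11aa79_q2.Defs

/-!
# PIECE FIX (about 90 lines): a scalar fixed point.
-/

namespace Pool.Agent.Aug

open scoped NNReal

private lemma fix_pow {z w : ℂ} (hz : ‖z‖ ≤ 9 / 8) (hw : ‖w‖ ≤ 9 / 8) (n : ℕ) :
    ‖z ^ n - w ^ n‖ * (4 / 5) ^ n ≤ 8 * ‖z - w‖ := by
  induction n with
  | zero => simp
  | succ n ih =>
    have e1 : z ^ (n + 1) - w ^ (n + 1) = z * (z ^ n - w ^ n) + (z - w) * w ^ n := by ring
    have h1 : ‖z ^ (n + 1) - w ^ (n + 1)‖ ≤ 9 / 8 * ‖z ^ n - w ^ n‖ + ‖z - w‖ * (9 / 8) ^ n := by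
      rw [e1]
      refine (norm_add_le _ _).trans ?_
      rw [norm_mul, norm_mul, norm_pow]
      exact add_le_add (mul_le_mul_of_nonneg_right hz (norm_nonneg _))
        (mul_le_mul_of_nonneg_left (pow_le_pow_left₀ (norm_nonneg _) hw n) (norm_nonneg _))
    have h2 : ((9 : ℝ) / 10) ^ n ≤ 1 := pow_le_one₀ (by norm_num) (by norm_num)
    have h3 : ((9 : ℝ) / 8) ^ n * (4 / 5) ^ n = (9 / 10) ^ n := by
      rw [← mul_pow]; norm_num
    calc ‖z ^ (n + 1) - w ^ (n + 1)‖ * (4 / 5) ^ (n + 1) ≤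
        (9 / 8 * ‖z ^ n - w ^ n‖ + ‖z - w‖ * (9 / 8) ^ n) * (4 / 5) ^ (n + 1) :=
          mul_le_mul_of_nonneg_right h1 (by positivity)
      _ = 9 / 10 * (‖z ^ n - w ^ n‖ * (4 / 5) ^ n) +
          4 / 5 * ‖z - w‖ * ((9 / 8) ^ n * (4 / 5) ^ n) := by ring
      _ ≤ 9 / 10 * (8 * ‖z - w‖) + 4 / 5 * ‖z - w‖ * 1 := by
          rw [h3]
          exact add_le_add (mul_le_mul_of_nonneg_left ih (by norm_num))
            (mul_le_mul_of_nonneg_left h2 (by positivity))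
      _ = 8 * ‖z - w‖ := by ring

theorem fix {ι : Type*} (N : ι → ℕ) (b e : ι → ℂ) (hb : ∀ i, ‖b i‖ ≤ (4 / 5) ^ N i)
    (he : Summable fun i => ‖e i‖) (he1 : ∑' i, ‖e i‖ ≤ 1 / 100) :
    ∃ z : ℂ, ‖z - 1‖ ≤ 1 / 8 ∧ z + ∑' i, z ^ N i * b i * e i = 1 := by
  set Φ : ℂ → ℂ := fun z => 1 - ∑' i, z ^ N i * b i * e i with hΦ
  set s : Set ℂ := Metric.closedBall 1 (1 / 8) with hs
  have hnorm : ∀ z ∈ s, ‖z‖ ≤ 9 / 8 := by
    intro z hz
    rw [hs, mem_closedBall_iff_norm] at hz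
    calc ‖z‖ = ‖(z - 1) + 1‖ := by ring_nf
      _ ≤ ‖z - 1‖ + ‖(1 : ℂ)‖ := norm_add_le _ _
      _ ≤ 1 / 8 + 1 := by rw [norm_one]; linarith
      _ = 9 / 8 := by norm_num
  have hterm : ∀ z ∈ s, ∀ i, ‖z ^ N i * b i * e i‖ ≤ ‖e i‖ := by
    intro z hz i
    have h1 := hnorm z hz
    rw [norm_mul, norm_mul, norm_pow]
    have h2 : ‖z‖ ^ N i * ‖b i‖ ≤ (9 / 8) ^ N i * (4 / 5) ^ N i :=
      mul_le_mul (pow_le_pow_left₀ (norm_nonneg _) h1 _) (hb i) (norm_nonneg _) (by positivity)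
    have h3 : ((9 : ℝ) / 8) ^ N i * (4 / 5) ^ N i ≤ 1 := by
      rw [← mul_pow]
      exact pow_le_one₀ (by norm_num) (by norm_num)
    calc ‖z‖ ^ N i * ‖b i‖ * ‖e i‖ ≤ 1 * ‖e i‖ :=
          mul_le_mul_of_nonneg_right (h2.trans h3) (norm_nonneg _)
      _ = ‖e i‖ := one_mul _
  have hsum : ∀ z ∈ s, Summable fun i => z ^ N i * b i * e i := fun z hz =>
    Summable.of_norm_bounded he (hterm z hz)
  have hmaps : Set.MapsTo Φ s s := by
    intro z hz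
    rw [hs, mem_closedBall_iff_norm]
    have h1 : ‖∑' i, z ^ N i * b i * e i‖ ≤ ∑' i, ‖e i‖ :=
      tsum_of_norm_bounded he.hasSum (hterm z hz)
    have h2 : Φ z - 1 = -∑' i, z ^ N i * b i * e i := by simp [hΦ]
    rw [h2, norm_neg]
    linarith
  have hlip : ∀ z ∈ s, ∀ w ∈ s, dist (Φ z) (Φ w) ≤ 1 / 2 * dist z w := by
    intro z hz w hw
    have h1 : Φ z - Φ w = ∑' i, (w ^ N i - z ^ N i) * b i * e i := by
      have h2 : ∀ i, (w ^ N i - z ^ N i) * b i * e i =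
          w ^ N i * b i * e i - z ^ N i * b i * e i := fun i => by ring
      simp only [h2]
      rw [(hsum w hw).tsum_sub (hsum z hz)]
      simp only [hΦ]
      ring
    have h3 : ∀ i, ‖(w ^ N i - z ^ N i) * b i * e i‖ ≤ 8 * ‖w - z‖ * ‖e i‖ := by
      intro i
      rw [norm_mul, norm_mul]
      refine mul_le_mul_of_nonneg_right ?_ (norm_nonneg _)
      exact (mul_le_mul_of_nonneg_left (hb i) (norm_nonneg _)).trans
        (fix_pow (hnorm w hw) (hnorm z hz) (N i))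
    rw [dist_eq_norm, dist_eq_norm, h1]
    have h4 : ‖∑' i, (w ^ N i - z ^ N i) * b i * e i‖ ≤ ∑' i, 8 * ‖w - z‖ * ‖e i‖ :=
      tsum_of_norm_bounded (he.mul_left _).hasSum h3
    rw [tsum_mul_left] at h4
    have h5 : 8 * ‖w - z‖ * ∑' i, ‖e i‖ ≤ 8 * ‖w - z‖ * (1 / 100) :=
      mul_le_mul_of_nonneg_left he1 (by positivity)
    rw [norm_sub_rev w z] at h4 h5
    have h6 := norm_nonneg (z - w)
    linarith
  have hcon : ContractingWith (1 / 2 : ℝ≥0) (hmaps.restrict Φ s s) := by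
    refine ⟨by
      rw [div_lt_one (by norm_num)]
      norm_num, LipschitzWith.of_dist_le_mul fun z w => ?_⟩
    have := hlip z z.2 w w.2
    show dist (Φ z) (Φ w) ≤ ((1 / 2 : ℝ≥0) : ℝ) * dist (z : ℂ) (w : ℂ)
    simpa using this
  have h1s : (1 : ℂ) ∈ s := by
    rw [hs]
    exact Metric.mem_closedBall_self (by norm_num)
  obtain ⟨z, hz, hfix, -⟩ := ContractingWith.exists_fixedPoint' (s := s) (f := Φ)
    Metric.isClosed_closedBall.isComplete hmaps hcon h1s (edist_ne_top _ _)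
  refine ⟨z, by rwa [hs, mem_closedBall_iff_norm] at hz, ?_⟩
  have h2 : 1 - ∑' i, z ^ N i * b i * e i = z := hfix
  exact (sub_eq_iff_eq_add.mp h2).symm

end Pool.Agent.Aug
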