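import Mathlib
import Pool.Agent.Lib_MP_11aa79_q2.Defs

/-! Basic facts on sums over words. All proved. -/

namespace Pool.Agent.Aug

open Pool.Agent.Lib_MP_11aa79_an Finset
open scoped Classical

theorem mem_wd {n : ℕ} {w : List Lr} : w ∈ wd n ↔ w.length = n := by
  unfold wd
  rw [Finset.mem_map]
  simp only [Function.Embedding.coeFn_mk]
  constructor
  · rintro ⟨v, -, rfl⟩; exact v.2
  · intro h
    exact ⟨(⟨w, h⟩ : List.Vector Lr n), Finset.mem_univ (α := List.Vector Lr n) ⟨w, h⟩, rfl⟩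

theorem wd_disjoint {m n : ℕ} (h : m ≠ n) : Disjoint (wd m) (wd n) := by
  rw [Finset.disjoint_left]
  intro w h1 h2
  exact h ((mem_wd.1 h1).symm.trans (mem_wd.1 h2))

theorem wd_zero : wd 0 = {[]} := by
  ext w; rw [mem_wd]; simp

section
variable {M : Type*} [AddCommMonoid M]

theorem sum_wd_zero (F : List Lr → M) : ∑ w ∈ wd 0, F w = F [] := by
  rw [wd_zero, Finset.sum_singleton]

/-- split a word of length `m + n` at position `m` -/
theorem sum_wd_add (m n : ℕ) (F : List Lr → M) :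
    ∑ w ∈ wd (m + n), F w = ∑ u ∈ wd m, ∑ v ∈ wd n, F (u ++ v) := by
  rw [← Finset.sum_product']
  refine Finset.sum_bij' (fun w _ => (w.take m, w.drop m)) (fun p _ => p.1 ++ p.2) ?_ ?_ ?_ ?_ ?_
  · intro w hw
    rw [mem_wd] at hw
    simp only [Finset.mem_product, mem_wd, List.length_take, List.length_drop]
    omega
  · intro p hp
    simp only [Finset.mem_product, mem_wd] at hp
    rw [mem_wd, List.length_append]
    omega
  · intro w _; simp
  · rintro ⟨u, v⟩ hp
    simp only [Finset.mem_product, mem_wd] at hp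
    simp [← hp.1]
  · intro w _; simp

theorem sum_wd_one (F : List Lr → M) : ∑ w ∈ wd 1, F w = ∑ s : Lr, F [s] := by
  refine Finset.sum_bij' (fun w _ => w.headI) (fun s _ => [s]) ?_ ?_ ?_ ?_ ?_
  · intro w _; simp
  · intro s _; rw [mem_wd]; rfl
  · intro w hw
    rw [mem_wd, List.length_eq_one_iff] at hw
    obtain ⟨a, rfl⟩ := hw
    rfl
  · intro s _; rfl
  · intro w hw
    rw [mem_wd, List.length_eq_one_iff] at hw
    obtain ⟨a, rfl⟩ := hw
    rfl

/-- split off the first letter -/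
theorem sum_wd_succ (n : ℕ) (F : List Lr → M) :
    ∑ w ∈ wd (n + 1), F w = ∑ s : Lr, ∑ w ∈ wd n, F (s :: w) := by
  rw [add_comm n 1, sum_wd_add, sum_wd_one]
  rfl

/-- split off the last letter -/
theorem sum_wd_succ' (n : ℕ) (F : List Lr → M) :
    ∑ w ∈ wd (n + 1), F w = ∑ s : Lr, ∑ w ∈ wd n, F (w ++ [s]) := by
  rw [sum_wd_add, Finset.sum_comm, ← sum_wd_one (fun s => ∑ w ∈ wd n, F (w ++ s))]

theorem sum_wd_reverse (n : ℕ) (F : List Lr → M) :
    ∑ w ∈ wd n, F w.reverse = ∑ w ∈ wd n, F w := by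
  refine Finset.sum_bij' (fun w _ => w.reverse) (fun w _ => w.reverse) ?_ ?_ ?_ ?_ ?_
  · intro w hw; rw [mem_wd] at hw ⊢; simpa using hw
  · intro w hw; rw [mem_wd] at hw ⊢; simpa using hw
  · intro w _; simp
  · intro w _; simp
  · intro w _; rfl

end

theorem bw_nil (β : Lr → ℂ) : bw β [] = 1 := by simp [bw]

theorem bw_cons (β : Lr → ℂ) (s : Lr) (w : List Lr) : bw β (s :: w) = β s * bw β w := by
  simp [bw]

theorem bw_append (β : Lr → ℂ) (u v : List Lr) : bw β (u ++ v) = bw β u * bw β v := by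
  simp [bw]

theorem bw_reverse (β : Lr → ℂ) (w : List Lr) : bw β w.reverse = bw β w := by
  simp [bw, List.prod_reverse]

theorem norm_bw_le {β : Lr → ℂ} {ρ : ℝ} (h : ∀ s, ‖β s‖ ≤ ρ) (w : List Lr) :
    ‖bw β w‖ ≤ ρ ^ w.length := by
  have h0 : 0 ≤ ρ := (norm_nonneg _).trans (h (0, true))
  induction w with
  | nil => simp [bw]
  | cons s w ih =>
    rw [bw_cons, norm_mul, List.length_cons, pow_succ, mul_comm]
    exact mul_le_mul ih (h s) (norm_nonneg _) (by positivity)

theorem norm_WS_le {β : Lr → ℂ} {ρ : ℝ} (h : ∀ s, ‖β s‖ ≤ ρ) (n : ℕ) (f : List Lr → ℂ) :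
    ‖WS β n f‖ ≤ ρ ^ n * ∑ w ∈ wd n, ‖f w‖ := by
  unfold WS
  rw [Finset.mul_sum]
  refine norm_sum_le_of_le _ (fun w hw => ?_)
  rw [norm_mul]
  have := norm_bw_le h w
  rw [mem_wd.1 hw] at this
  gcongr

/-- same with weights at most one -/
theorem norm_WS_le' {β : Lr → ℂ} (h : ∀ s, ‖β s‖ ≤ 9 / 10) (n : ℕ) (f : List Lr → ℂ) :
    ‖WS β n f‖ ≤ ∑ w ∈ wd n, ‖f w‖ := by
  refine (norm_WS_le h n f).trans ?_
  have h1 : (9 / 10 : ℝ) ^ n ≤ 1 := pow_le_one₀ (by norm_num) (by norm_num)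
  have h2 : 0 ≤ ∑ w ∈ wd n, ‖f w‖ := Finset.sum_nonneg (fun _ _ => norm_nonneg _)
  nlinarith

theorem WS_zero (β : Lr → ℂ) (f : List Lr → ℂ) : WS β 0 f = f [] := by
  unfold WS
  rw [sum_wd_zero, bw_nil, one_mul]

theorem WS_succ (β : Lr → ℂ) (n : ℕ) (f : List Lr → ℂ) :
    WS β (n + 1) f = ∑ s, β s * WS β n (fun w => f (s :: w)) := by
  unfold WS
  rw [sum_wd_succ]
  refine Finset.sum_congr rfl (fun s _ => ?_)
  rw [Finset.mul_sum]
  refine Finset.sum_congr rfl (fun w _ => ?_)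
  rw [bw_cons]; ring

theorem WS_succ' (β : Lr → ℂ) (n : ℕ) (f : List Lr → ℂ) :
    WS β (n + 1) f = ∑ s, β s * WS β n (fun w => f (w ++ [s])) := by
  unfold WS
  rw [sum_wd_succ']
  refine Finset.sum_congr rfl (fun s _ => ?_)
  rw [Finset.mul_sum]
  refine Finset.sum_congr rfl (fun w _ => ?_)
  rw [bw_append, bw_cons, bw_nil]; ring

theorem WS_reverse (β : Lr → ℂ) (n : ℕ) (f : List Lr → ℂ) :
    WS β n (fun w => f w.reverse) = WS β n f := by
  unfold WS
  rw [← sum_wd_reverse n (fun w => bw β w * f w)]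
  refine Finset.sum_congr rfl (fun w _ => ?_)
  rw [bw_reverse]

theorem WS_add (β : Lr → ℂ) (n : ℕ) (f g : List Lr → ℂ) :
    WS β n (fun w => f w + g w) = WS β n f + WS β n g := by
  unfold WS
  rw [← Finset.sum_add_distrib]
  refine Finset.sum_congr rfl (fun w _ => by ring)

theorem WS_const_mul (β : Lr → ℂ) (n : ℕ) (c : ℂ) (f : List Lr → ℂ) :
    WS β n (fun w => c * f w) = c * WS β n f := by
  unfold WS
  rw [Finset.mul_sum]
  refine Finset.sum_congr rfl (fun w _ => by ring)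

theorem WS_mul_const (β : Lr → ℂ) (n : ℕ) (c : ℂ) (f : List Lr → ℂ) :
    WS β n (fun w => f w * c) = WS β n f * c := by
  unfold WS
  rw [Finset.sum_mul]
  refine Finset.sum_congr rfl (fun w _ => by ring)

theorem WS_sum (β : Lr → ℂ) (n : ℕ) {ι : Type*} (s : Finset ι) (f : ι → List Lr → ℂ) :
    WS β n (fun w => ∑ i ∈ s, f i w) = ∑ i ∈ s, WS β n (f i) := by
  unfold WS
  rw [Finset.sum_comm]
  refine Finset.sum_congr rfl (fun w _ => by rw [Finset.mul_sum])

/-- only the words of length `n` matter -/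
theorem WS_congr (β : Lr → ℂ) (n : ℕ) {f g : List Lr → ℂ} (h : ∀ w, w.length = n → f w = g w) :
    WS β n f = WS β n g := by
  unfold WS
  refine Finset.sum_congr rfl (fun w hw => ?_)
  rw [h w (mem_wd.1 hw)]

/-- only the words of length `n` with nonzero weight matter -/
theorem WS_congr' (β : Lr → ℂ) (n : ℕ) {f g : List Lr → ℂ}
    (h : ∀ w, w.length = n → bw β w ≠ 0 → f w = g w) : WS β n f = WS β n g := by
  unfold WS
  refine Finset.sum_congr rfl (fun w hw => ?_)
  by_cases h0 : bw β w = 0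
  · rw [h0]; simp
  · rw [h w (mem_wd.1 hw) h0]

/-- cut the words at position `i` -/
theorem WS_conv (β : Lr → ℂ) {i n : ℕ} (hi : i ≤ n) (F H : List Lr → ℂ) :
    WS β n (fun w => F (w.take i) * H (w.drop i)) = WS β i F * WS β (n - i) H := by
  unfold WS
  obtain ⟨m, rfl⟩ : ∃ m, n = i + m := ⟨n - i, by omega⟩
  rw [sum_wd_add, Finset.sum_mul_sum, Nat.add_sub_cancel_left]
  refine Finset.sum_congr rfl (fun u hu => Finset.sum_congr rfl (fun v _ => ?_))
  rw [mem_wd] at hu
  have h1 : (u ++ v).take i = u := by rw [← hu]; simp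
  have h2 : (u ++ v).drop i = v := by rw [← hu]; simp
  change bw β (u ++ v) * (F ((u ++ v).take i) * H ((u ++ v).drop i)) = _
  rw [h1, h2, bw_append]; ring

/-- the sum of a nonnegative summable function along an injective finite family is at most its
total sum -/
theorem sum_le_tsum_of_injOn {ι α : Type*} {g : α → ℝ} (hg : Summable g) (h0 : ∀ a, 0 ≤ g a)
    (s : Finset ι) (φ : ι → α) (hφ : Set.InjOn φ s) : ∑ i ∈ s, g (φ i) ≤ ∑' a, g a := by
  rw [← Finset.sum_image (f := g) (g := φ) (fun x hx y hy h => hφ hx hy h)]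
  exact hg.sum_le_tsum _ (fun a _ => h0 a)

/-- a word of nonzero weight consists of positive letters -/
theorem pos_of_bw {β : Lr → ℂ} (hβ : ∀ i, β (i, false) = 0) {w : List Lr} (h : bw β w ≠ 0) :
    ∀ s ∈ w, s.2 = true := by
  induction w with
  | nil => simp
  | cons a w ih =>
    rw [bw_cons] at h
    intro s hs
    rcases List.mem_cons.1 hs with rfl | hs
    · rcases s with ⟨i, b⟩
      cases b
      · rw [hβ i] at h; simp at h
      · rfl
    · exact ih (right_ne_zero_of_mul h) s hs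

end Pool.Agent.Aug
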