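import Mathlib
import Pool.Agent.Lib_MP_11aa79_q2.Basic

/-!
# PIECE HAT (about 60 lines): sums of `hat f` over words = sums of `f` over the group.

PROOF. `hat f` is supported on the range of the injective map `FreeGroup.toWord : F2 → List Lr`
(its range is the set of reduced words) and `hat f g.toWord = f g`
(`FreeGroup.isReduced_toWord`, `FreeGroup.mk_toWord`). Use `Function.Injective.tsum_eq`,
`Function.Injective.summable_iff` (`FreeGroup.toWord_injective`).
-/

namespace Pool.Agent.Aug

open Pool.Agent.Lib_MP_11aa79_an Finset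
open scoped Classical

theorem hat_toWord (f : F2 → ℂ) (g : F2) : hat f g.toWord = f g := by
  unfold hat
  rw [if_pos FreeGroup.isReduced_toWord, FreeGroup.mk_toWord]

theorem hat_of_not_range (f : F2 → ℂ) {X : List Lr}
    (h : X ∉ Set.range (FreeGroup.toWord : F2 → List Lr)) : hat f X = 0 := by
  unfold hat
  rw [if_neg]
  intro hX
  apply h
  refine ⟨FreeGroup.mk X, ?_⟩
  rw [FreeGroup.toWord_mk]
  exact FreeGroup.isReduced_iff_reduce_eq.1 hX

theorem summable_hat {f : F2 → ℂ} : (Summable fun X => ‖hat f X‖) ↔ Summable fun g => ‖f g‖ := by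
  rw [← (FreeGroup.toWord_injective (α := Fin 2)).summable_iff
    (f := fun X => ‖hat f X‖) (fun X hX => by rw [hat_of_not_range f hX, norm_zero])]
  have h : (fun X => ‖hat f X‖) ∘ (FreeGroup.toWord : F2 → List Lr) = fun g => ‖f g‖ := by
    funext g
    simp only [Function.comp_apply, hat_toWord]
  rw [h]

/-- sums over words of functions which only see reduced words -/
theorem tsum_hat (f : F2 → ℂ) (φ : List Lr → ℂ) :
    ∑' X, φ X * hat f X = ∑' g : F2, φ g.toWord * f g := by
  rw [← (FreeGroup.toWord_injective (α := Fin 2)).tsum_eq (f := fun X => φ X * hat f X)]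
  · refine tsum_congr fun g => ?_
    simp only [hat_toWord]
  · intro X hX
    by_contra h
    apply hX
    simp only
    rw [hat_of_not_range f h, mul_zero]

theorem tsum_hat_norm (f : F2 → ℂ) (φ : List Lr → ℝ) :
    ∑' X, φ X * ‖hat f X‖ = ∑' g : F2, φ g.toWord * ‖f g‖ := by
  rw [← (FreeGroup.toWord_injective (α := Fin 2)).tsum_eq (f := fun X => φ X * ‖hat f X‖)]
  · refine tsum_congr fun g => ?_
    simp only [hat_toWord]
  · intro X hX
    by_contra h
    apply hX
    simp only
    rw [hat_of_not_range f h, norm_zero, mul_zero]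

end Pool.Agent.Aug
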