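import Mathlib
import Pool.Agent.Lib_MP_11aa79_q2.Basic

/-!
# PIECE RED (about 100 lines): reduced words with positive first/last letter, part 1.

`FreeGroup.IsReduced L` is `L.IsChain (fun a b => a.1 = b.1 → a.2 = b.2)` (Mathlib,
`GroupTheory/FreeGroup/Basic` and `Reduce`: `isReduced_toWord`, `IsReduced.reduce_eq`,
`isReduced_iff_reduce_eq`, `IsReduced.infix`, `IsReduced.append_overlap`), chains of appended lists:
`List.isChain_append`. `(FreeGroup.mk L).toWord = reduce L` (`FreeGroup.toWord_mk`),
`FreeGroup.toWord_inv : g⁻¹.toWord = invRev g.toWord`. Also see `Lib_MP_11aa79_an/Words.lean`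
(`toWord_lt_mul`, `norm_inv_mul_of_St`, `norm_inv_mul_of_not_St`, `St_inv_mul`, `exists_St`,
`toWord_mul_of_norm`, `key'`).

PROOFS. `EP_iff`: the first letter of `invRev L` is the opposite of the last letter of `L`.
`red_append`: `L1 ++ L2` is reduced iff `L1`, `L2` are and the last letter of `L1` is not opposite
to the first letter of `L2`; a positive letter is never opposite to a positive letter, and a
negative letter is never opposite to a negative letter. Hence all the length formulas
(`(g * k).toWord = g.toWord ++ k.toWord` when the concatenation is reduced, because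
`g * k = mk (g.toWord ++ k.toWord)`).
-/

namespace Pool.Agent.Aug

open Pool.Agent.Lib_MP_11aa79_an Finset
open scoped Classical

theorem EP_iff (g : F2) : EP g ↔ ∃ i, g.toWord.getLast? = some (i, true) := by
  have h : ∀ i, St (i, false) g⁻¹ ↔ g.toWord.getLast? = some (i, true) := by
    intro i
    unfold St
    rw [FreeGroup.toWord_inv, FreeGroup.invRev, List.head?_reverse, List.getLast?_map]
    cases hl : g.toWord.getLast? with
    | none => simp
    | some a =>
      rcases a with ⟨j, c⟩
      cases c <;> simp
  constructor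
  · rintro ⟨i, hi⟩
    exact ⟨i, (h i).1 hi⟩
  · rintro ⟨i, hi⟩
    exact ⟨i, (h i).2 hi⟩

theorem SP_iff (g : F2) : SP g ↔ ∃ i, g.toWord.head? = some (i, true) := Iff.rfl

theorem toWord_mk_of_red {X : List Lr} (h : FreeGroup.IsReduced X) :
    (FreeGroup.mk X).toWord = X := by
  rw [FreeGroup.toWord_mk, h.reduce_eq]

theorem mk_toWord' (g : F2) : FreeGroup.mk g.toWord = g := FreeGroup.mk_toWord

/-- a junction of two letters of the same sign is reduced -/
theorem red_junction {X Y : List Lr} (hX : FreeGroup.IsReduced X) (hY : FreeGroup.IsReduced Y)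
    (H : ∀ x ∈ X.getLast?, ∀ y ∈ Y.head?, x.2 = y.2) : FreeGroup.IsReduced (X ++ Y) := by
  unfold FreeGroup.IsReduced at *
  rw [List.isChain_append]
  exact ⟨hX, hY, fun x hx y hy _ => H x hx y hy⟩

theorem red_mul_junction {g h : F2}
    (H : ∀ x ∈ g.toWord.getLast?, ∀ y ∈ h.toWord.head?, x.2 = y.2) :
    (g * h).toWord = g.toWord ++ h.toWord := by
  have h1 : FreeGroup.IsReduced (g.toWord ++ h.toWord) :=
    red_junction FreeGroup.isReduced_toWord FreeGroup.isReduced_toWord H
  have h2 : g * h = FreeGroup.mk (g.toWord ++ h.toWord) := by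
    rw [← FreeGroup.mul_mk, FreeGroup.mk_toWord, FreeGroup.mk_toWord]
  rw [h2, toWord_mk_of_red h1]

/-- no cancellation between an element ending positively and one starting positively -/
theorem toWord_mul_pos {g h : F2} (hg : EP g ∨ g = 1) (hh : SP h ∨ h = 1) :
    (g * h).toWord = g.toWord ++ h.toWord := by
  apply red_mul_junction
  intro x hx y hy
  rcases hg with hg | rfl
  · rcases hh with hh | rfl
    · obtain ⟨i, hi⟩ := (EP_iff g).1 hg
      obtain ⟨j, hj⟩ := (SP_iff h).1 hh
      rw [hi, Option.mem_some_iff] at hx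
      rw [hj, Option.mem_some_iff] at hy
      rw [← hx, ← hy]
    · rw [FreeGroup.toWord_one] at hy
      simp at hy
  · rw [FreeGroup.toWord_one] at hx
    simp at hx

theorem norm_mul_pos {g h : F2} (hg : EP g ∨ g = 1) (hh : SP h ∨ h = 1) :
    (g * h).norm = g.norm + h.norm := by
  unfold FreeGroup.norm
  rw [toWord_mul_pos hg hh, List.length_append]

/-- no cancellation between an element not ending positively and the inverse of an element ending
positively -/
theorem norm_mul_inv {g k : F2} (hg : ¬ EP g) (hk : EP k ∨ k = 1) :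
    (g * k⁻¹).norm = g.norm + k.norm := by
  have h1 : (g * k⁻¹).toWord = g.toWord ++ k⁻¹.toWord := by
    apply red_mul_junction
    intro x hx y hy
    rcases hk with ⟨i, hi⟩ | rfl
    · unfold St at hi
      rw [hi, Option.mem_some_iff] at hy
      rw [← hy]
      by_contra hne
      have hx2 : x.2 = true := by
        simp only at hne
        cases hb : x.2
        · exact absurd hb hne
        · rfl
      apply hg
      rw [EP_iff]
      refine ⟨x.1, ?_⟩
      rw [Option.mem_def] at hx
      rw [hx, ← hx2]
    · rw [inv_one, FreeGroup.toWord_one] at hy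
      simp at hy
  have h2 : k⁻¹.toWord.length = k.toWord.length := FreeGroup.norm_inv_eq
  unfold FreeGroup.norm
  rw [h1, List.length_append, h2]

/-- positive words are reduced -/
theorem red_pos {w : List Lr} (hw : ∀ s ∈ w, s.2 = true) : FreeGroup.IsReduced w := by
  induction w with
  | nil => exact FreeGroup.IsReduced.nil
  | cons a w ih =>
    cases w with
    | nil => exact FreeGroup.IsReduced.singleton
    | cons b w' =>
      rw [FreeGroup.isReduced_cons_cons]
      refine ⟨fun _ => ?_, ih (fun s hs => hw s (List.mem_cons_of_mem _ hs))⟩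
      rw [hw a (by simp), hw b (by simp)]

theorem pos_mk {w : List Lr} (hw : ∀ s ∈ w, s.2 = true) (h : w ≠ []) :
    SP (FreeGroup.mk w) ∧ EP (FreeGroup.mk w) := by
  have h1 := toWord_mk_of_red (red_pos hw)
  constructor
  · rw [SP_iff, h1]
    cases w with
    | nil => exact absurd rfl h
    | cons a w =>
      refine ⟨a.1, ?_⟩
      have h2 := hw a (by simp)
      rw [List.head?_cons, ← h2]
  · rw [EP_iff, h1]
    have h2 : w.getLast? = some (w.getLast h) := List.getLast?_eq_some_getLast h
    refine ⟨(w.getLast h).1, ?_⟩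
    have h3 := hw _ (List.getLast_mem h)
    rw [h2, ← h3]

/-- two reduced words whose junction is positive-positive -/
theorem red_append {X Y : List Lr} (hX : FreeGroup.IsReduced X) (hY : FreeGroup.IsReduced Y)
    (h1 : X = [] ∨ EP (FreeGroup.mk X)) (h2 : Y = [] ∨ SP (FreeGroup.mk Y)) :
    FreeGroup.IsReduced (X ++ Y) := by
  apply red_junction hX hY
  intro x hx y hy
  rcases h1 with rfl | h1
  · simp at hx
  rcases h2 with rfl | h2
  · simp at hy
  obtain ⟨i, hi⟩ := (EP_iff _).1 h1
  obtain ⟨j, hj⟩ := (SP_iff _).1 h2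
  rw [toWord_mk_of_red hX] at hi
  rw [toWord_mk_of_red hY] at hj
  rw [hi, Option.mem_some_iff] at hx
  rw [hj, Option.mem_some_iff] at hy
  rw [← hx, ← hy]

end Pool.Agent.Aug
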