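import Mathlib
import Pool.Agent.Lib_MP_11aa79_q2.RED

/-!
# PIECE RED2 (about 100 lines): reduced words with positive first/last letter, part 2.

See the docstring of `RED.lean` for the API of reduced words. You may use everything in `RED.lean`
and `Lib_MP_11aa79_an/Words.lean` (`toWord_lt_mul`, `norm_inv_mul_of_St`,
`norm_inv_mul_of_not_St`, `St_inv_mul`, `exists_St`, `toWord_mul_of_norm`, `key'`).

PROOFS. `EP_mul`, `SP_mul`: `toWord_mul_pos`, `EP_iff`, last/first letter of a concatenation.
`not_EP_inv`: `EP k⁻¹` means `St (j,false) k` for some `j` (unfold, `inv_inv`), contradiction with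
`St (i,true) k` (`St_unique`); `not_SP_inv` similarly.
`EP_of_mul_inv`: `g = (g * k⁻¹) * k` is a reduced product (`toWord_mul_pos`, `EP_mul`).
`letter_cases`: `g ≠ 1` does not end positively, so its inverse starts with some letter
`(i, true)` (`exists_St` for `g⁻¹`; not `(i,false)`). `(g * lt (i,true))⁻¹ = (lt (i,true))⁻¹ * g⁻¹`
has smaller norm (`norm_inv_mul_of_St`, `FreeGroup.norm_inv_eq`). For the other positive letter
`s = (i+1,true)`: `g⁻¹` does not start with `s`, so `(lt s)⁻¹ * g⁻¹` starts with `op s = (i+1,false)`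
(`St_inv_mul`), i.e. `EP (g * lt s)`.
`letter_cases'` is the mirror image (`h` starts with `(i,false)`, apply the same to
`lt (i,true) * h = (lt (i,false))⁻¹ * h`).
-/

namespace Pool.Agent.Aug

open Pool.Agent.Lib_MP_11aa79_an Finset
open scoped Classical

theorem EP_mul {g h : F2} (hg : EP g ∨ g = 1) (hh : SP h ∧ EP h) : EP (g * h) := by
  obtain ⟨i, hi⟩ := (EP_iff h).1 hh.2
  refine (EP_iff _).2 ⟨i, ?_⟩
  rw [toWord_mul_pos hg (Or.inl hh.1), List.getLast?_append, hi]
  rfl

theorem SP_mul {g h : F2} (hg : SP g ∧ EP g) (hh : SP h ∨ h = 1) : SP (g * h) := by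
  obtain ⟨i, hi⟩ := (SP_iff g).1 hg.1
  refine (SP_iff _).2 ⟨i, ?_⟩
  rw [toWord_mul_pos (Or.inl hg.2) hh, List.head?_append, hi]
  rfl

theorem not_EP_inv {k : F2} (h : SP k) : ¬ EP k⁻¹ := by
  rintro ⟨j, hj⟩
  obtain ⟨i, hi⟩ := h
  rw [inv_inv] at hj
  have := St_unique hj hi
  simp at this

theorem not_SP_inv {k : F2} (h : EP k) : ¬ SP k⁻¹ := by
  rintro ⟨j, hj⟩
  obtain ⟨i, hi⟩ := h
  have := St_unique hj hi
  simp at this

theorem ne_one_of_SP {k : F2} (h : SP k) : k ≠ 1 := by
  rintro rfl
  obtain ⟨i, hi⟩ := h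
  exact St_one _ hi

theorem EP_of_mul_inv {g k : F2} (hk : SP k ∧ EP k) (h : EP (g * k⁻¹) ∨ g * k⁻¹ = 1) :
    EP g ∧ g.toWord = (g * k⁻¹).toWord ++ k.toWord := by
  have e : g * k⁻¹ * k = g := by group
  have h1 := EP_mul h hk
  have h2 := toWord_mul_pos h (Or.inl hk.1)
  rw [e] at h1 h2
  exact ⟨h1, h2⟩

/-- left multiplication by a positive letter keeps the last letter (`h` starts negatively and ends
positively, so its word has length at least two; `toWord_lt_mul`) -/
theorem EP_lt_mul {h : F2} (hE : EP h) (hS : ¬ SP h) (i : Fin 2) : EP (lt (i, true) * h) := by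
  obtain ⟨j, hj⟩ := (EP_iff h).1 hE
  refine (EP_iff _).2 ⟨j, ?_⟩
  rw [toWord_lt_mul]
  cases hw : h.toWord with
  | nil => rw [hw] at hj; simp at hj
  | cons a w =>
    rw [hw] at hj
    split_ifs with hc
    · cases w with
      | nil =>
        exfalso
        apply hS
        refine ⟨j, ?_⟩
        unfold St
        rw [hw]
        simpa using hj
      | cons b w' =>
        rw [List.getLast?_cons_cons] at hj
        simpa using hj
    · rw [List.getLast?_cons_cons]
      exact hj

theorem letter_cases {g : F2} (hg : ¬ EP g) (h1 : g ≠ 1) :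
    ∃ i : Fin 2, (g * lt (i, true)).norm < g.norm ∧ EP (g * lt (i + 1, true)) := by
  obtain ⟨⟨i, b⟩, hs⟩ := exists_St (inv_ne_one.2 h1)
  have hb : b = true := by
    cases b with
    | true => rfl
    | false => exact absurd ⟨i, hs⟩ hg
  subst hb
  refine ⟨i, ?_, i + 1, ?_⟩
  · have h2 := norm_inv_mul_of_St hs
    have e : (lt (i, true))⁻¹ * g⁻¹ = (g * lt (i, true))⁻¹ := by group
    rw [e, FreeGroup.norm_inv_eq, FreeGroup.norm_inv_eq] at h2
    omega
  · have hn : ¬ St (i + 1, true) g⁻¹ := by
      intro hc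
      have := St_unique hs hc
      revert this
      fin_cases i <;> simp
    have e : (lt (i + 1, true))⁻¹ * g⁻¹ = (g * lt (i + 1, true))⁻¹ := by group
    have h3 := (St_inv_mul (i + 1, true) g⁻¹).2 hn
    rw [e] at h3
    exact h3

theorem letter_cases' {h : F2} (hh : ¬ SP h) (h1 : h ≠ 1) :
    ∃ i : Fin 2, (lt (i, true) * h).norm < h.norm ∧ SP (lt (i + 1, true) * h) := by
  obtain ⟨⟨i, b⟩, hs⟩ := exists_St h1
  have hb : b = false := by
    cases b with
    | false => rfl
    | true => exact absurd ⟨i, hs⟩ hh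
  subst hb
  have e : ∀ j : Fin 2, (lt (j, false))⁻¹ = lt (j, true) := fun j => by rw [lt_inv]; rfl
  refine ⟨i, ?_, i + 1, ?_⟩
  · have h2 := norm_inv_mul_of_St hs
    rw [e] at h2
    omega
  · have hn : ¬ St (i + 1, false) h := by
      intro hc
      have := St_unique hs hc
      revert this
      fin_cases i <;> simp
    have h3 := (St_inv_mul (i + 1, false) h).2 hn
    rw [e] at h3
    exact h3

/-- a sum over the letters with a weight vanishing on negative letters -/
theorem sum_letters {β : Lr → ℂ} (hβ : ∀ i, β (i, false) = 0) (i : Fin 2) (F : Lr → ℂ) :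
    ∑ s, β s * F s = β (i, true) * F (i, true) + β (i + 1, true) * F (i + 1, true) := by
  rw [Fintype.sum_prod_type]
  simp only [Fintype.sum_bool, hβ, zero_mul, add_zero, Fin.sum_univ_two]
  fin_cases i
  · rfl
  · simp only [Fin.mk_one]
    rw [add_comm]
    rfl

end Pool.Agent.Aug
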