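import Mathlib
import Pool.Agent.Lib_MP_11aa79_q2.Basic

/-!
# PIECE T0F (about 60 lines): facts on the basic element `T0`.

PROOFS. `T0` is supported on the two elements `lt (0,true) ≠ lt (1,true)` (`lt_inj` is in
`Lib_MP_11aa79_an/Fox.lean`, or use `toWord_lt`). `T0_hasSum`: sum over a two point set
(`hasSum_ite_eq`). `norm (1/2 + 3i/8) = 5/8` because `1/4 + 9/64 = 25/64`.
`tsum_near`: triangle inequality. `t_far`: for `2 ≤ g.norm`, `T0 g = 0`.
-/

namespace Pool.Agent.Aug

open Pool.Agent.Lib_MP_11aa79_an Finset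
open scoped Classical

private theorem t0f_ne : lt ((1 : Fin 2), true) ≠ lt ((0 : Fin 2), true) := by
  intro h
  have h2 := congrArg FreeGroup.toWord h
  rw [toWord_lt, toWord_lt] at h2
  simp at h2

theorem T0_supp {g : F2} (h : T0 g ≠ 0) : g = lt (0, true) ∨ g = lt (1, true) := by
  unfold T0 at h
  by_cases h1 : g = lt (0, true)
  · exact Or.inl h1
  · rw [if_neg h1] at h
    by_cases h2 : g = lt (1, true)
    · exact Or.inr h2
    · rw [if_neg h2] at h
      exact absurd rfl h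

theorem T0_x : T0 (lt (0, true)) = ⟨1 / 2, 3 / 8⟩ := by
  unfold T0
  rw [if_pos rfl]

theorem T0_y : T0 (lt (1, true)) = ⟨1 / 2, -(3 / 8)⟩ := by
  unfold T0
  rw [if_neg t0f_ne, if_pos rfl]

/-- sums against `T0` -/
theorem T0_hasSum {E : Type*} [NormedAddCommGroup E] [NormedSpace ℂ E] (F : F2 → E) :
    HasSum (fun g => T0 g • F g)
      ((⟨1 / 2, 3 / 8⟩ : ℂ) • F (lt (0, true)) + (⟨1 / 2, -(3 / 8)⟩ : ℂ) • F (lt (1, true))) := by
  have h : HasSum (fun g => T0 g • F g)
      (∑ g ∈ ({lt (0, true), lt (1, true)} : Finset F2), T0 g • F g) :=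
    hasSum_sum_of_ne_finset_zero (by
      intro g hg
      have : T0 g = 0 := by
        by_contra h0
        rcases T0_supp h0 with h1 | h1
        · exact hg (by rw [h1]; simp)
        · exact hg (by rw [h1]; simp)
      rw [this, zero_smul])
  rw [Finset.sum_pair t0f_ne.symm, T0_x, T0_y] at h
  exact h

theorem T0_summable : Summable fun g => ‖T0 g‖ := by
  refine summable_of_ne_finset_zero (s := ({lt (0, true), lt (1, true)} : Finset F2)) ?_
  intro g hg
  have : T0 g = 0 := by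
    by_contra h0
    rcases T0_supp h0 with h1 | h1
    · exact hg (by rw [h1]; simp)
    · exact hg (by rw [h1]; simp)
  rw [this, norm_zero]

theorem norm_al1 : ‖(⟨1 / 2, 3 / 8⟩ : ℂ)‖ = 5 / 8 := by
  rw [Complex.norm_def, Complex.normSq_mk,
    show (1 / 2 * (1 / 2) + 3 / 8 * (3 / 8) : ℝ) = (5 / 8) ^ 2 by norm_num]
  exact Real.sqrt_sq (by norm_num)

theorem norm_al2 : ‖(⟨1 / 2, -(3 / 8)⟩ : ℂ)‖ = 5 / 8 := by
  rw [Complex.norm_def, Complex.normSq_mk,
    show (1 / 2 * (1 / 2) + -(3 / 8) * -(3 / 8) : ℝ) = (5 / 8) ^ 2 by norm_num]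
  exact Real.sqrt_sq (by norm_num)

theorem tsum_T0 : ∑' g, T0 g = 1 := by
  have h := (T0_hasSum (fun _ => (1 : ℂ))).tsum_eq
  simp only [smul_eq_mul, mul_one] at h
  rw [h]
  apply Complex.ext
  · simp; norm_num
  · simp

theorem norm_T0_le (g : F2) : ‖T0 g‖ ≤ 5 / 8 := by
  by_cases h : T0 g = 0
  · rw [h, norm_zero]; norm_num
  · rcases T0_supp h with h1 | h1
    · rw [h1, T0_x, norm_al1]
    · rw [h1, T0_y, norm_al2]

theorem T0_far {g : F2} (h : 2 ≤ g.norm) : T0 g = 0 := by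
  by_contra h0
  have h2 : g.norm = 1 := by
    unfold FreeGroup.norm
    rcases T0_supp h0 with h1 | h1
    · rw [h1, toWord_lt]; rfl
    · rw [h1, toWord_lt]; rfl
  omega

end Pool.Agent.Aug
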