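import Mathlib
import Pool.Agent.Lib_MP_11aa79_q2.FIX
import Pool.Agent.Lib_MP_11aa79_q2.T0F
import Pool.Agent.Lib_MP_11aa79_q2.HAT
import Pool.Agent.Lib_MP_11aa79_q2.RED2

/-!
# PIECE BETA (about 130 lines): the weights `β`.

PROOF. Let `b0 (i, true) = (32/25) * conj (α i)` (`α 0 = 1/2 + 3i/8`, `α 1 = 1/2 - 3i/8`), so
`‖b0 s‖ = (32/25)(5/8) = 4/5`, and `b0 (i, false) = 0`; for a group element let
`b g = bw b0 g.toWord`, `‖b g‖ ≤ (4/5)^(g.norm)` (`norm_bw_le`). Apply `fix` with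
`ι = F2`, `N g = g.norm`, `e = t - T0`: `z` with `‖z - 1‖ ≤ 1/8`. Put `β s = z * b0 s`:
`‖β s‖ ≤ (9/8)(4/5) = 9/10`, `bw β w = z^(w.length) * bw b0 w`. Then
`∑'_X bw β X * hat t X = ∑'_g bw β g.toWord * t g` (`tsum_hat`)
`= ∑'_g z^(g.norm) b g T0 g + ∑'_g z^(g.norm) b g (t g - T0 g)`, the first sum is
`z (b0 x α 0 + b0 y α 1) = z (32/25) (25/64 + 25/64) = z` (`T0_hasSum`, `‖α‖² = 25/64`), the second
is `1 - z` by the choice of `z`. This is `total`.
`t_nil`: `hat t [] = t 1 = 0` (`ht`, `1` does not start positively: `St_one`).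
`summ`: `summable_hat`. `one`: `hat t [s] = t (lt s)` and `‖t (lt s)‖ ≤ ‖T0 (lt s)‖ + 1/100 ≤ 7/10`
(`norm_T0_le`; one term of the sum `∑' ‖t g - T0 g‖` is at most the sum).
`long`: by `tsum_hat_norm` with `φ X = if 2 ≤ X.length then 1 else 0`, it is
`∑'_g (if 2 ≤ g.norm then ‖t g‖ else 0)` and there `t g = t g - T0 g` (`T0_far`), so it is
`≤ ∑' ‖t g - T0 g‖ ≤ 1/100 ≤ 1/40`.
-/

namespace Pool.Agent.Aug

open Pool.Agent.Lib_MP_11aa79_an Finset
open scoped Classical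

private noncomputable def b0 (s : Lr) : ℂ :=
  if s = (0, true) then ⟨16 / 25, -(12 / 25)⟩ else
    if s = (1, true) then ⟨16 / 25, 12 / 25⟩ else 0

private lemma b0_x : b0 (0, true) = ⟨16 / 25, -(12 / 25)⟩ := by
  unfold b0; rw [if_pos rfl]

private lemma b0_y : b0 (1, true) = ⟨16 / 25, 12 / 25⟩ := by
  unfold b0
  rw [if_neg (by decide), if_pos rfl]

private lemma b0_neg (i : Fin 2) : b0 (i, false) = 0 := by
  unfold b0
  rw [if_neg (by simp), if_neg (by simp)]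

private lemma norm_b0 (s : Lr) : ‖b0 s‖ ≤ 4 / 5 := by
  unfold b0
  split_ifs
  · rw [Complex.norm_def, Complex.normSq_mk,
      show (16 / 25 : ℝ) * (16 / 25) + -(12 / 25) * -(12 / 25) = (4 / 5) ^ 2 by norm_num,
      Real.sqrt_sq (by norm_num)]
  · rw [Complex.norm_def, Complex.normSq_mk,
      show (16 / 25 : ℝ) * (16 / 25) + (12 / 25) * (12 / 25) = (4 / 5) ^ 2 by norm_num,
      Real.sqrt_sq (by norm_num)]
  · rw [norm_zero]; norm_num

private lemma bw_scale (z : ℂ) (w : List Lr) :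
    bw (fun s => z * b0 s) w = z ^ w.length * bw b0 w := by
  induction w with
  | nil => simp [bw_nil]
  | cons s w ih =>
    rw [bw_cons, bw_cons, ih, List.length_cons, pow_succ]; ring

private lemma norm_t_le {t : F2 → ℂ} (he : Summable fun g => ‖t g - T0 g‖)
    (hnear : ∑' g, ‖t g - T0 g‖ ≤ 1 / 100) (g : F2) : ‖t g‖ ≤ 7 / 10 := by
  have h1 : ‖t g - T0 g‖ ≤ ∑' g, ‖t g - T0 g‖ :=
    he.le_tsum g (fun _ _ => norm_nonneg _)
  have h2 : ‖t g‖ ≤ ‖t g - T0 g‖ + ‖T0 g‖ := by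
    calc ‖t g‖ = ‖(t g - T0 g) + T0 g‖ := by rw [sub_add_cancel]
      _ ≤ _ := norm_add_le _ _
  have h3 := norm_T0_le g
  linarith

private lemma long_le {t : F2 → ℂ} (he : Summable fun g => ‖t g - T0 g‖)
    (hnear : ∑' g, ‖t g - T0 g‖ ≤ 1 / 100) :
    ∑' X : List Lr, (if 2 ≤ X.length then ‖hat t X‖ else 0) ≤ 1 / 40 := by
  have h1 : ∀ X : List Lr, (if 2 ≤ X.length then ‖hat t X‖ else 0) =
      (if 2 ≤ X.length then (1 : ℝ) else 0) * ‖hat t X‖ := fun X => by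
    split_ifs <;> simp
  simp only [h1]
  rw [tsum_hat_norm]
  have h2 : ∀ g : F2, (if 2 ≤ g.toWord.length then (1 : ℝ) else 0) * ‖t g‖ ≤ ‖t g - T0 g‖ := by
    intro g
    split_ifs with h
    · rw [T0_far (g := g) h, sub_zero, one_mul]
    · rw [zero_mul]; exact norm_nonneg _
  have h3 : Summable fun g : F2 => (if 2 ≤ g.toWord.length then (1 : ℝ) else 0) * ‖t g‖ :=
    he.of_nonneg_of_le (fun g => mul_nonneg (by split_ifs <;> norm_num) (norm_nonneg _)) h2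
  refine (h3.tsum_le_tsum h2 he).trans (hnear.trans (by norm_num))

private lemma first_sum (z : ℂ) :
    HasSum (fun g : F2 => z ^ g.norm * bw b0 g.toWord * T0 g) z := by
  have h := T0_hasSum (fun g : F2 => z ^ g.norm * bw b0 g.toWord)
  have h1 : ∀ s : Lr, z ^ (lt s).norm * bw b0 (lt s).toWord = z * b0 s := by
    intro s
    rw [norm_lt, toWord_lt, bw_cons, bw_nil, pow_one, mul_one]
  rw [h1, h1, b0_x, b0_y] at h
  have h2 : (⟨1 / 2, 3 / 8⟩ : ℂ) • (z * (⟨16 / 25, -(12 / 25)⟩ : ℂ)) +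
      (⟨1 / 2, -(3 / 8)⟩ : ℂ) • (z * (⟨16 / 25, 12 / 25⟩ : ℂ)) = z := by
    apply Complex.ext
    · simp only [smul_eq_mul, Complex.add_re, Complex.mul_re, Complex.mul_im]
      ring
    · simp only [smul_eq_mul, Complex.add_im, Complex.mul_re, Complex.mul_im]
      ring
  rw [h2] at h
  have h3 : (fun g : F2 => z ^ g.norm * bw b0 g.toWord * T0 g) =
      fun g : F2 => T0 g • (z ^ g.norm * bw b0 g.toWord) :=
    funext fun g => by rw [smul_eq_mul, mul_comm]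
  rw [h3]
  exact h

theorem beta {t : F2 → ℂ} (ht : ∀ g, t g ≠ 0 → SP g ∧ EP g) (hts : Summable fun g => ‖t g‖)
    (hnear : ∑' g, ‖t g - T0 g‖ ≤ 1 / 100) : ∃ β : Lr → ℂ, GD t β := by
  have he : Summable fun g => ‖t g - T0 g‖ :=
    (hts.add T0_summable).of_nonneg_of_le (fun _ => norm_nonneg _) (fun g => norm_sub_le _ _)
  obtain ⟨z, hz, hfix⟩ := fix (fun g : F2 => g.norm) (fun g : F2 => bw b0 g.toWord)
    (fun g => t g - T0 g) (fun g => norm_bw_le norm_b0 g.toWord) he hnear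
  have hz1 : ‖z‖ ≤ 9 / 8 := by
    calc ‖z‖ = ‖(z - 1) + 1‖ := by ring_nf
      _ ≤ ‖z - 1‖ + ‖(1 : ℂ)‖ := norm_add_le _ _
      _ ≤ 1 / 8 + 1 := by rw [norm_one]; linarith
      _ = 9 / 8 := by norm_num
  have hbd : ∀ g : F2, ‖z ^ g.norm * bw b0 g.toWord‖ ≤ 1 := by
    intro g
    rw [norm_mul, norm_pow]
    calc ‖z‖ ^ g.norm * ‖bw b0 g.toWord‖ ≤ (9 / 8) ^ g.norm * (4 / 5) ^ g.norm :=
          mul_le_mul (pow_le_pow_left₀ (norm_nonneg _) hz1 _) (norm_bw_le norm_b0 g.toWord)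
            (norm_nonneg _) (by positivity)
      _ = (9 / 10) ^ g.norm := by rw [← mul_pow]; norm_num
      _ ≤ 1 := pow_le_one₀ (by norm_num) (by norm_num)
  have hsum2 : Summable fun g : F2 => z ^ g.norm * bw b0 g.toWord * (t g - T0 g) := by
    refine Summable.of_norm (he.of_nonneg_of_le (fun _ => norm_nonneg _) (fun g => ?_))
    rw [norm_mul]
    exact mul_le_of_le_one_left (norm_nonneg _) (hbd g)
  refine ⟨fun s => z * b0 s, ht, hts, ⟨?_, summable_hat.2 hts, ?_, long_le he hnear, ?_, ?_⟩, ?_⟩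
  · have h := hat_toWord t 1
    rw [FreeGroup.toWord_one] at h
    rw [h]
    by_contra h0
    obtain ⟨⟨i, hi⟩, -⟩ := ht 1 h0
    exact St_one _ hi
  · intro s
    have h := hat_toWord t (lt s)
    rw [toWord_lt] at h
    rw [h]
    exact norm_t_le he hnear _
  · intro s
    rw [norm_mul]
    calc ‖z‖ * ‖b0 s‖ ≤ 9 / 8 * (4 / 5) :=
          mul_le_mul hz1 (norm_b0 s) (norm_nonneg _) (by norm_num)
      _ = 9 / 10 := by norm_num
  · rw [tsum_hat]
    have h1 : ∀ g : F2, bw (fun s => z * b0 s) g.toWord * t g =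
        z ^ g.norm * bw b0 g.toWord * T0 g + z ^ g.norm * bw b0 g.toWord * (t g - T0 g) := by
      intro g
      rw [bw_scale]
      unfold FreeGroup.norm
      ring
    simp only [h1]
    rw [(first_sum z).summable.tsum_add hsum2, (first_sum z).tsum_eq]
    exact hfix
  · intro i
    simp only [b0_neg, mul_zero]

end Pool.Agent.Aug
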