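import Mathlib
import Pool.Agent.Lib_MP_11aa79_q2.Basic

/-!
# PIECE DOM (about 90 lines): dominated convergence for sums over words.

PROOF of `ws_tsum`: `WS` is a finite sum; exchange it with the `tsum` (`Summable.tsum_finsetSum` /
`tsum_mul_left`).
PROOF of `dom_one`, `dom_one'`, `dom_two`: rewrite the left side by `ws_tsum` as a `tsum` of
`c z * FF β p n (z⁻¹ * g) 1` etc. (unfold `conv`; in `dom_one'` first substitute
`conv p b x = ∑'_y p y * b (y⁻¹ x) = ∑'_z b z * p (x * z⁻¹)` by the bijection `y = x z⁻¹`), and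
apply `tendsto_tsum_of_dominated_convergence` with bound `‖c z‖ * C` (`‖c z‖ ‖b z'‖ C` for the pairs).
In `dom_two` the limit is `∑'_q c q.1 b q.2 (ℓ (q.1⁻¹ g) κ (h q.2⁻¹))`, a product of two absolutely
convergent sums (`tsum_mul_tsum_of_summable_norm`): `ℓ` is bounded by `C` (limit of `FF n g 1`,
`κ 1 = 1`), `κ` is bounded by `C / ‖ℓ 1‖` (limit of `FF n 1 h`).
-/

namespace Pool.Agent.Aug

open Pool.Agent.Lib_MP_11aa79_an Finset Filter Topology
open scoped Classical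

private theorem dom_summable_one {c φ : F2 → ℂ} {C : ℝ} (hφ : ∀ z, ‖φ z‖ ≤ C)
    (hc : Summable fun g => ‖c g‖) : Summable fun z => c z * φ z := by
  refine Summable.of_norm_bounded (g := fun z => ‖c z‖ * C) (hc.mul_right C) (fun z => ?_)
  rw [norm_mul]
  exact mul_le_mul_of_nonneg_left (hφ z) (norm_nonneg _)

private theorem dom_summable_pair {c b : F2 → ℂ} (C : ℝ)
    (hb : Summable fun g => ‖b g‖) (hc : Summable fun g => ‖c g‖) :
    Summable fun q : F2 × F2 => ‖c q.1‖ * ‖b q.2‖ * C := by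
  have h : Summable fun q : F2 × F2 => ‖c q.1‖ * ‖b q.2‖ :=
    Summable.mul_of_nonneg hc hb (fun _ => norm_nonneg _) (fun _ => norm_nonneg _)
  exact h.mul_right C

theorem ws_tsum {ι : Type*} (β : Lr → ℂ) (n : ℕ) (F : ι → List Lr → ℂ)
    (hF : ∀ w, Summable fun i => F i w) :
    WS β n (fun w => ∑' i, F i w) = ∑' i, WS β n (F i) := by
  unfold WS
  rw [Summable.tsum_finsetSum (fun w _ => (hF w).mul_left _)]
  exact Finset.sum_congr rfl (fun w _ => tsum_mul_left.symm)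

/-- the other form of the convolution -/
theorem conv_eq' (p b : F2 → ℂ) (x : F2) : conv p b x = ∑' z, b z * p (x * z⁻¹) := by
  unfold conv
  rw [← ((Equiv.inv F2).trans (Equiv.mulLeft x)).tsum_eq (fun g => p g * b (g⁻¹ * x))]
  refine tsum_congr (fun z => ?_)
  have h : (((Equiv.inv F2).trans (Equiv.mulLeft x)) z) = x * z⁻¹ := rfl
  rw [h]
  have h2 : (x * z⁻¹)⁻¹ * x = z := by group
  rw [h2, mul_comm]

theorem dom_one {β : Lr → ℂ} {p c ℓ κ : F2 → ℂ} {C : ℝ} (hp : ∀ g, ‖p g‖ ≤ C)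
    (hc : Summable fun g => ‖c g‖) (hC : ∀ n g h, ‖FF β p n g h‖ ≤ C)
    (hlim : ∀ g h, Tendsto (fun n => FF β p n g h) atTop (𝓝 (ℓ g * κ h))) (hκ : κ 1 = 1) (g : F2) :
    Tendsto (fun n => WS β n (fun w => conv c p (g * FreeGroup.mk w))) atTop
      (𝓝 (∑' z, c z * ℓ (z⁻¹ * g))) := by
  have h1 : ∀ n, WS β n (fun w => conv c p (g * FreeGroup.mk w))
      = ∑' z, c z * FF β p n (z⁻¹ * g) 1 := by
    intro n
    unfold conv
    rw [ws_tsum β n (fun z w => c z * p (z⁻¹ * (g * FreeGroup.mk w)))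
      (fun w => dom_summable_one (fun z => hp _) hc)]
    refine tsum_congr (fun z => ?_)
    rw [WS_const_mul]
    unfold FF
    refine congrArg _ (congrArg _ (funext fun w => ?_))
    rw [mul_one, mul_assoc]
  simp_rw [h1]
  refine tendsto_tsum_of_dominated_convergence (bound := fun z => ‖c z‖ * C) (hc.mul_right C)
    (fun z => ?_) (Eventually.of_forall fun n z => ?_)
  · have h2 := (hlim (z⁻¹ * g) 1).const_mul (c z)
    rwa [hκ, mul_one] at h2
  · rw [norm_mul]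
    exact mul_le_mul_of_nonneg_left (hC _ _ _) (norm_nonneg _)

theorem dom_one' {β : Lr → ℂ} {p b ℓ κ : F2 → ℂ} {C : ℝ} (hp : ∀ g, ‖p g‖ ≤ C)
    (hb : Summable fun g => ‖b g‖) (hC : ∀ n g h, ‖FF β p n g h‖ ≤ C)
    (hlim : ∀ g h, Tendsto (fun n => FF β p n g h) atTop (𝓝 (ℓ g * κ h))) (h : F2) :
    Tendsto (fun n => WS β n (fun w => conv p b (FreeGroup.mk w * h))) atTop
      (𝓝 (ℓ 1 * ∑' z, b z * κ (h * z⁻¹))) := by
  have h1 : ∀ n, WS β n (fun w => conv p b (FreeGroup.mk w * h))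
      = ∑' z, b z * FF β p n 1 (h * z⁻¹) := by
    intro n
    simp_rw [conv_eq']
    rw [ws_tsum β n (fun z w => b z * p (FreeGroup.mk w * h * z⁻¹))
      (fun w => dom_summable_one (fun z => hp _) hb)]
    refine tsum_congr (fun z => ?_)
    rw [WS_const_mul]
    unfold FF
    refine congrArg _ (congrArg _ (funext fun w => ?_))
    rw [one_mul, mul_assoc]
  simp_rw [h1]
  rw [← tsum_mul_left]
  refine tendsto_tsum_of_dominated_convergence (bound := fun z => ‖b z‖ * C) (hb.mul_right C)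
    (fun z => ?_) (Eventually.of_forall fun n z => ?_)
  · have h2 := (hlim 1 (h * z⁻¹)).const_mul (b z)
    have h3 : b z * (ℓ 1 * κ (h * z⁻¹)) = ℓ 1 * (b z * κ (h * z⁻¹)) := by ring
    rwa [h3] at h2
  · rw [norm_mul]
    exact mul_le_mul_of_nonneg_left (hC _ _ _) (norm_nonneg _)

theorem dom_two {β : Lr → ℂ} {p b c ℓ κ : F2 → ℂ} {C : ℝ} (hp : ∀ g, ‖p g‖ ≤ C)
    (hb : Summable fun g => ‖b g‖) (hc : Summable fun g => ‖c g‖)
    (hC : ∀ n g h, ‖FF β p n g h‖ ≤ C)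
    (hlim : ∀ g h, Tendsto (fun n => FF β p n g h) atTop (𝓝 (ℓ g * κ h)))
    (hℓ : ℓ 1 ≠ 0) (hκ : κ 1 = 1) (g h : F2) :
    Tendsto (fun n => WS β n (fun w => ∑' q : F2 × F2,
        c q.1 * b q.2 * p (q.1⁻¹ * (g * FreeGroup.mk w * h) * q.2⁻¹))) atTop
      (𝓝 ((∑' z, c z * ℓ (z⁻¹ * g)) * ∑' z, b z * κ (h * z⁻¹))) := by
  have hℓC : ∀ x, ‖ℓ x‖ ≤ C := by
    intro x
    have h2 := (hlim x 1).norm
    rw [hκ, mul_one] at h2
    exact le_of_tendsto h2 (Eventually.of_forall fun n => hC n x 1)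
  have hκC : ∀ x, ‖κ x‖ ≤ C / ‖ℓ 1‖ := by
    intro x
    have h2 := (hlim 1 x).norm
    have h3 : ‖ℓ 1 * κ x‖ ≤ C := le_of_tendsto h2 (Eventually.of_forall fun n => hC n 1 x)
    rw [norm_mul] at h3
    rw [le_div_iff₀ (norm_pos_iff.mpr hℓ), mul_comm]
    exact h3
  have h1 : ∀ n, WS β n (fun w => ∑' q : F2 × F2,
        c q.1 * b q.2 * p (q.1⁻¹ * (g * FreeGroup.mk w * h) * q.2⁻¹))
      = ∑' q : F2 × F2, c q.1 * b q.2 * FF β p n (q.1⁻¹ * g) (h * q.2⁻¹) := by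
    intro n
    rw [ws_tsum β n (fun (q : F2 × F2) w =>
      c q.1 * b q.2 * p (q.1⁻¹ * (g * FreeGroup.mk w * h) * q.2⁻¹)) (fun w => ?_)]
    · refine tsum_congr (fun q => ?_)
      rw [WS_const_mul]
      unfold FF
      refine congrArg _ (congrArg _ (funext fun w => ?_))
      simp only [mul_assoc]
    · refine Summable.of_norm_bounded (g := fun q : F2 × F2 => ‖c q.1‖ * ‖b q.2‖ * C)
        (dom_summable_pair C hb hc) (fun q => ?_)
      rw [norm_mul, norm_mul]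
      exact mul_le_mul_of_nonneg_left (hp _) (by positivity)
  simp_rw [h1]
  have h4 : (∑' z, c z * ℓ (z⁻¹ * g)) * ∑' z, b z * κ (h * z⁻¹)
      = ∑' q : F2 × F2, (c q.1 * ℓ (q.1⁻¹ * g)) * (b q.2 * κ (h * q.2⁻¹)) := by
    refine tsum_mul_tsum_of_summable_norm ?_ ?_
    · refine Summable.of_nonneg_of_le (fun _ => norm_nonneg _) (fun z => ?_) (hc.mul_right C)
      rw [norm_mul]
      exact mul_le_mul_of_nonneg_left (hℓC _) (norm_nonneg _)
    · refine Summable.of_nonneg_of_le (fun _ => norm_nonneg _) (fun z => ?_)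
        (hb.mul_right (C / ‖ℓ 1‖))
      rw [norm_mul]
      exact mul_le_mul_of_nonneg_left (hκC _) (norm_nonneg _)
  rw [h4]
  refine tendsto_tsum_of_dominated_convergence (bound := fun q : F2 × F2 => ‖c q.1‖ * ‖b q.2‖ * C)
    (dom_summable_pair C hb hc) (fun q => ?_) (Eventually.of_forall fun n q => ?_)
  · have h2 := (hlim (q.1⁻¹ * g) (h * q.2⁻¹)).const_mul (c q.1 * b q.2)
    have h3 : c q.1 * b q.2 * (ℓ (q.1⁻¹ * g) * κ (h * q.2⁻¹))
        = (c q.1 * ℓ (q.1⁻¹ * g)) * (b q.2 * κ (h * q.2⁻¹)) := by ring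
    rwa [h3] at h2
  · rw [norm_mul, norm_mul]
    exact mul_le_mul_of_nonneg_left (hC _ _ _) (by positivity)

end Pool.Agent.Aug
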