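import Mathlib
import Pool.Agent.Lib_MP_11aa79_q2.RED2

/-!
# PIECE CUT (about 100 lines): convolution recursions become recursions on words.

PROOF of `hat_rec`. Case `X` not reduced: `hat f X = hat e X = 0`, and every term of the sum
vanishes: if `hat f (X.take j) ≠ 0` and `hat t (X.drop j) ≠ 0` then `X.take j` is reduced and
`mk (X.take j)` is `1` (so `X.take j = []`) or ends positively, `X.drop j` is reduced and
`mk (X.drop j)` starts positively, so `X = X.take j ++ X.drop j` is reduced (`red_append`).
Case `X` reduced, `g = mk X`, `g.toWord = X`: in `∑' k, f (g * k⁻¹) * t k` a term is nonzero only if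
`SP k ∧ EP k` and `g * k⁻¹ = 1 ∨ EP (g * k⁻¹)`, and then `X = (g * k⁻¹).toWord ++ k.toWord`
(`EP_of_mul_inv`), so `k = mk (X.drop j)` and `g * k⁻¹ = mk (X.take j)` with
`j = |X| - |k| < |X|` (`k ≠ 1`). The map `j ↦ mk (X.drop j)` (`j < |X|`) is injective (lengths,
`X.drop j` is reduced as a final part of `X`), so `tsum_eq_sum` on its image and `Finset.sum_image`
give the claim.

PROOF of `LP_of_PD`. `nil`: `hat p [] = p 1 = del 1 + ∑' k, p (1 * k⁻¹) * t k`, all terms vanish
(`t k ≠ 0 → SP k → ¬ EP k⁻¹` (`not_EP_inv`), `k⁻¹ ≠ 1`). `step`: `hat_rec` with `f = p`, `e = del`,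
`hat del X = 0` for `X ≠ []`.
-/

namespace Pool.Agent.Aug

open Pool.Agent.Lib_MP_11aa79_an Finset
open scoped Classical

theorem hat_of_red {f : F2 → ℂ} {X : List Lr} (h : FreeGroup.IsReduced X) :
    hat f X = f (FreeGroup.mk X) := if_pos h

theorem hat_of_not_red {f : F2 → ℂ} {X : List Lr} (h : ¬ FreeGroup.IsReduced X) :
    hat f X = 0 := if_neg h

theorem red_of_hat_ne {f : F2 → ℂ} {X : List Lr} (h : hat f X ≠ 0) : FreeGroup.IsReduced X := by
  by_contra hX
  exact h (hat_of_not_red hX)

private theorem eq_nil_of_mk_eq_one {X : List Lr} (hX : FreeGroup.IsReduced X)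
    (h : FreeGroup.mk X = 1) : X = [] := by
  have h1 := toWord_mk_of_red hX
  rw [h, FreeGroup.toWord_one] at h1
  exact h1.symm

theorem hat_rec {t f e : F2 → ℂ} (ht : ∀ g, t g ≠ 0 → SP g ∧ EP g)
    (hf : ∀ g, f g ≠ 0 → g = 1 ∨ EP g)
    (hfe : ∀ g, f g = e g + ∑' k, f (g * k⁻¹) * t k) (X : List Lr) :
    hat f X = hat e X + ∑ j ∈ range X.length, hat f (X.take j) * hat t (X.drop j) := by
  by_cases hX : FreeGroup.IsReduced X
  · have hdrop : ∀ j, FreeGroup.IsReduced (X.drop j) := fun j =>
      List.IsChain.drop hX j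
    have htake : ∀ j, FreeGroup.IsReduced (X.take j) := fun j =>
      List.IsChain.take hX j
    rw [hat_of_red hX, hat_of_red hX, hfe]
    congr 1
    have hterm : ∀ j, hat f (X.take j) * hat t (X.drop j) =
        (fun k => f (FreeGroup.mk X * k⁻¹) * t k) (FreeGroup.mk (X.drop j)) := by
      intro j
      rw [hat_of_red (htake j), hat_of_red (hdrop j)]
      have h1 : FreeGroup.mk X = FreeGroup.mk (X.take j) * FreeGroup.mk (X.drop j) := by
        rw [FreeGroup.mul_mk, List.take_append_drop]
      simp only
      rw [h1, mul_inv_cancel_right]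
    rw [Finset.sum_congr rfl (fun j _ => hterm j)]
    have hinj : Set.InjOn (fun j => FreeGroup.mk (X.drop j)) (range X.length : Finset ℕ) := by
      intro i hi j hj hij
      rw [Finset.coe_range, Set.mem_Iio] at hi hj
      have h1 := congrArg FreeGroup.toWord hij
      simp only at h1
      rw [toWord_mk_of_red (hdrop i), toWord_mk_of_red (hdrop j)] at h1
      have h2 := congrArg List.length h1
      rw [List.length_drop, List.length_drop] at h2
      omega
    rw [← Finset.sum_image (f := fun k => f (FreeGroup.mk X * k⁻¹) * t k)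
      (g := fun j => FreeGroup.mk (X.drop j)) (fun x hx y hy h => hinj hx hy h)]
    refine tsum_eq_sum (fun k hk => ?_)
    by_contra hne
    apply hk
    have h1 := ht k (right_ne_zero_of_mul hne)
    have h2 := hf _ (left_ne_zero_of_mul hne)
    have h3 := (EP_of_mul_inv h1 h2.symm).2
    rw [toWord_mk_of_red hX] at h3
    rw [Finset.mem_image]
    refine ⟨(FreeGroup.mk X * k⁻¹).toWord.length, ?_, ?_⟩
    · rw [Finset.mem_range]
      have h4 : k.toWord ≠ [] := by
        rw [Ne, FreeGroup.toWord_eq_nil_iff]
        exact ne_one_of_SP h1.1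
      have h5 := congrArg List.length h3
      rw [List.length_append] at h5
      have h6 := List.length_pos_iff.2 h4
      omega
    · have h4 : X.drop (FreeGroup.mk X * k⁻¹).toWord.length = k.toWord := by
        nth_rewrite 2 [h3]
        rw [List.drop_left']
        rfl
      rw [h4, mk_toWord']
  · rw [hat_of_not_red hX, hat_of_not_red hX, zero_add]
    symm
    refine Finset.sum_eq_zero (fun j _ => ?_)
    by_contra hne
    apply hX
    have h1 := left_ne_zero_of_mul hne
    have h2 := right_ne_zero_of_mul hne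
    have hr1 := red_of_hat_ne h1
    have hr2 := red_of_hat_ne h2
    rw [hat_of_red hr1] at h1
    rw [hat_of_red hr2] at h2
    have h3 : FreeGroup.IsReduced (X.take j ++ X.drop j) := by
      refine red_append hr1 hr2 ?_ (Or.inr (ht _ h2).1)
      rcases hf _ h1 with h | h
      · exact Or.inl (eq_nil_of_mk_eq_one hr1 h)
      · exact Or.inr h
    rwa [List.take_append_drop] at h3

theorem LP_of_PD {t p : F2 → ℂ} (ht : ∀ g, t g ≠ 0 → SP g ∧ EP g) (hp : PD t p) :
    LP (hat t) (hat p) := by
  have hf : ∀ g, p g ≠ 0 → g = 1 ∨ EP g := by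
    intro g hg
    rcases hp.supp g hg with h | h
    · exact Or.inl h
    · exact Or.inr h.2
  constructor
  · rw [hat_of_red FreeGroup.IsReduced.nil]
    change p 1 = 1
    rw [hp.right 1]
    have h0 : ∑' k, p (1 * k⁻¹) * t k = 0 := by
      rw [← tsum_zero (α := ℂ) (β := F2)]
      congr 1
      funext k
      by_contra hne
      have h1 := ht k (right_ne_zero_of_mul hne)
      have h2 := hf _ (left_ne_zero_of_mul hne)
      rw [one_mul] at h2
      rcases h2 with h2 | h2
      · exact ne_one_of_SP h1.1 (inv_eq_one.1 h2)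
      · exact not_EP_inv h1.1 h2
    rw [h0, add_zero]
    exact if_pos rfl
  · intro X hX
    rw [hat_rec ht hf hp.right X]
    have h0 : hat del X = 0 := by
      by_cases hr : FreeGroup.IsReduced X
      · rw [hat_of_red hr]
        refine if_neg (fun h => hX (eq_nil_of_mk_eq_one hr h))
      · exact hat_of_not_red hr
    rw [h0, zero_add]

end Pool.Agent.Aug
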