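import Mathlib
import Pool.Agent.Lib_MP_11aa79_q2.RED2

/-! Recursions for the two-sided sums in the group. All proved. -/

namespace Pool.Agent.Aug

open Pool.Agent.Lib_MP_11aa79_an Finset
open scoped Classical

theorem mk_cons (s : Lr) (w : List Lr) : FreeGroup.mk (s :: w) = lt s * FreeGroup.mk w := by
  unfold lt
  rw [FreeGroup.mul_mk]; rfl

theorem mk_snoc (s : Lr) (w : List Lr) : FreeGroup.mk (w ++ [s]) = FreeGroup.mk w * lt s := by
  unfold lt
  rw [FreeGroup.mul_mk]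

theorem FF_zero (β : Lr → ℂ) (p : F2 → ℂ) (g h : F2) : FF β p 0 g h = p (g * h) := by
  unfold FF
  rw [WS_zero, ← FreeGroup.one_eq_mk, mul_one]

theorem FF_succ_left (β : Lr → ℂ) (p : F2 → ℂ) (n : ℕ) (g h : F2) :
    FF β p (n + 1) g h = ∑ s, β s * FF β p n (g * lt s) h := by
  unfold FF
  rw [WS_succ]
  refine Finset.sum_congr rfl (fun s _ => ?_)
  congr 2
  ext w
  rw [mk_cons, ← mul_assoc g]

theorem FF_succ_right (β : Lr → ℂ) (p : F2 → ℂ) (n : ℕ) (g h : F2) :
    FF β p (n + 1) g h = ∑ s, β s * FF β p n g (lt s * h) := by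
  unfold FF
  rw [WS_succ']
  refine Finset.sum_congr rfl (fun s _ => ?_)
  congr 2
  ext w
  rw [mk_snoc, ← mul_assoc g, mul_assoc (g * FreeGroup.mk w)]

end Pool.Agent.Aug
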