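import Mathlib
import Pool.Agent.Lib_MP_11aa79_q2.RED2

/-!
# PIECE FV (about 60 lines): group sums = word sums when there is no cancellation.

PROOF. Use `WS_congr'`: for a word `w` of length `n` with `bw β w ≠ 0` all letters of `w` are
positive (`pos_of_bw`), so `w` is reduced (`red_pos`) and `mk w` is `1` (if `w = []`) or starts and
ends positively (`pos_mk`). Then `g * mk w` has word `g.toWord ++ w` (`toWord_mul_pos`,
`toWord_mk_of_red`) and ends positively or is `1` (if `w = []` it is `g`; otherwise `EP_mul`), so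
`(g * mk w * h).toWord = g.toWord ++ w ++ h.toWord` (`toWord_mul_pos`), this word is reduced, and
`hat p` of it is `p (g * mk w * h)` (`FreeGroup.mk_toWord`).
-/

namespace Pool.Agent.Aug

open Pool.Agent.Lib_MP_11aa79_an Finset
open scoped Classical

/-- the word of `g w h` for a positive word `w` -/
theorem toWord_three {w : List Lr} (hw : ∀ s ∈ w, s.2 = true) {g h : F2} (hg : EP g ∨ g = 1)
    (hh : SP h ∨ h = 1) :
    (g * FreeGroup.mk w * h).toWord = g.toWord ++ w ++ h.toWord := by
  by_cases h0 : w = []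
  · subst h0
    have h1 : (FreeGroup.mk [] : F2) = 1 := rfl
    rw [h1, mul_one, List.append_nil]
    exact toWord_mul_pos hg hh
  · have h1 := pos_mk hw h0
    have h2 : (g * FreeGroup.mk w).toWord = g.toWord ++ w := by
      rw [toWord_mul_pos hg (Or.inl h1.1), toWord_mk_of_red (red_pos hw)]
    rw [toWord_mul_pos (Or.inl (EP_mul hg h1)) hh, h2]

theorem FF_eq {β : Lr → ℂ} (hβ : ∀ i, β (i, false) = 0) (p : F2 → ℂ) (n : ℕ) {g h : F2}
    (hg : EP g ∨ g = 1) (hh : SP h ∨ h = 1) :
    FF β p n g h = W2 β (hat p) n g.toWord h.toWord := by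
  unfold FF W2
  apply WS_congr'
  intro w _ hw
  have h1 := toWord_three (pos_of_bw hβ hw) hg hh
  unfold hat
  rw [← h1, if_pos FreeGroup.isReduced_toWord, FreeGroup.mk_toWord]

end Pool.Agent.Aug
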