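import Mathlib
import Pool.Agent.Lib_MP_11aa79_q2.Basic

/-!
# PIECE EST (about 90 lines): sums of `‖t‖` along injective families of words.

PROOF. All by `sum_le_tsum_of_injOn` (in `Basic`) applied to the finite families
`(n, w) ↦ A ++ w ++ B`, `n < N`, `w ∈ wd n` (injective: `w` determines its length, and
`A ++ w ++ B` determines `w`), and `(j, w) ↦ A ++ w ++ B.take j`, `j ≤ |B|`, `w ∈ wd n`
(injective: the length `|A| + n + j` determines `j`, then `w` is determined). Use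
`Finset.sum_sigma'` to see the double sum as a sum over a finset of pairs, and
`summable_of_sum_range_le`, `tsum_le_of_sum_range_le` (`Real.tsum_le_of_sum_range_le`).
-/

namespace Pool.Agent.Aug

open Finset

theorem est_n {t : List Lr → ℂ} (ht : Summable fun X => ‖t X‖) (A B : List Lr) :
    (Summable fun n => ∑ w ∈ wd n, ‖t (A ++ w ++ B)‖) ∧
      ∑' n, ∑ w ∈ wd n, ‖t (A ++ w ++ B)‖ ≤ ∑' X, ‖t X‖ := by
  have hN : ∀ N : ℕ, ∑ n ∈ range N, ∑ w ∈ wd n, ‖t (A ++ w ++ B)‖ ≤ ∑' X, ‖t X‖ := by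
    intro N
    rw [Finset.sum_sigma']
    refine sum_le_tsum_of_injOn (g := fun X => ‖t X‖) ht (fun _ => norm_nonneg _) _
      (fun x : (Σ _ : ℕ, List Lr) => A ++ x.2 ++ B) ?_
    rintro ⟨n, w⟩ hx ⟨n', w'⟩ hx' h
    simp only [Finset.coe_sigma, Set.mem_sigma_iff, Finset.mem_coe, mem_wd] at hx hx'
    simp only at h
    have h1 : w = w' := List.append_cancel_left (List.append_cancel_right h)
    have h2 : n = n' := by rw [← hx.2, ← hx'.2, h1]
    subst h1
    subst h2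
    rfl
  have h0 : ∀ n, 0 ≤ ∑ w ∈ wd n, ‖t (A ++ w ++ B)‖ := fun n =>
    Finset.sum_nonneg fun _ _ => norm_nonneg _
  exact ⟨summable_of_sum_range_le h0 hN, Real.tsum_le_of_sum_range_le h0 hN⟩

theorem est_j {t : List Lr → ℂ} (ht : Summable fun X => ‖t X‖) (A B : List Lr) (n : ℕ) :
    ∑ j ∈ range (B.length + 1), ∑ w ∈ wd n, ‖t (A ++ w ++ B.take j)‖ ≤ ∑' X, ‖t X‖ := by
  rw [← Finset.sum_product']
  refine sum_le_tsum_of_injOn (g := fun X => ‖t X‖) ht (fun _ => norm_nonneg _) _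
    (fun x : ℕ × List Lr => A ++ x.2 ++ B.take x.1) ?_
  rintro ⟨j, w⟩ hx ⟨j', w'⟩ hx' h
  simp only [Finset.coe_product, Set.mem_prod, Finset.mem_coe, mem_wd, Finset.mem_range] at hx hx'
  simp only at h
  have h1 : j = j' := by
    have h2 := congrArg List.length h
    simp only [List.length_append, List.length_take] at h2
    omega
  subst h1
  have h2 : w = w' := List.append_cancel_left (List.append_cancel_right h)
  rw [h2]

/-- consequences for the weighted sums -/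
theorem est_W2 {t : List Lr → ℂ} {β : Lr → ℂ} (hβ : ∀ s, ‖β s‖ ≤ 9 / 10)
    (ht : Summable fun X => ‖t X‖) (A B : List Lr) :
    (Summable fun n => ‖W2 β t n A B‖) ∧ ∑' n, ‖W2 β t n A B‖ ≤ ∑' X, ‖t X‖ := by
  have h1 := est_n ht A B
  have h2 : ∀ n, ‖W2 β t n A B‖ ≤ ∑ w ∈ wd n, ‖t (A ++ w ++ B)‖ := fun n => norm_WS_le' hβ n _
  have h3 : Summable fun n => ‖W2 β t n A B‖ :=
    Summable.of_nonneg_of_le (fun _ => norm_nonneg _) h2 h1.1
  exact ⟨h3, (h3.tsum_le_tsum h2 h1.1).trans h1.2⟩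

end Pool.Agent.Aug
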