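import Mathlib
import Pool.Agent.Lib_MP_11aa79_q2.Basic

/-!
# PIECE PS (about 80 lines)
Sums along the initial segments of a word.

PROOF of `ps_t`. The words `X.take (i+1)`, `i < X.length`, have the distinct lengths `i+1`. The
term `i = 0` is `‖t [s]‖ ≤ 7/10` (`h.one`, the word `X.take 1` is `[s]`); the others have length
`≥ 2` and are distinct, so by `sum_le_tsum_of_injOn` (with `g X = if 2 ≤ X.length then ‖t X‖ else 0`,
summable because `h.summ`) their sum is at most `1/40` (`h.long`). `7/10 + 1/40 ≤ 3/4`.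

PROOF of `ps_gen`. Sum `hac` over `j ∈ range (|X|+1)`:
`∑ a j ≤ ∑ c j + ∑_j ∑_{i<j} a i * ‖t ((X.take j).drop i)‖`; exchange the sums: for fixed `i` the
inner sum is `∑_{i<j≤|X|} ‖t ((X.drop i).take (j-i))‖` (`List.drop_take`), which is at most `3/4` by
`ps_t` for the word `X.drop i`. So `S ≤ ∑ c j + (3/4) S`, `S = ∑ a j`, i.e. `S ≤ 4 ∑ c j`.

PROOF of `ps`: `ps_gen` with `a j = ‖P (X.take j)‖`, `c 0 = 1`, `c j = 0` for `j ≥ 1`; use
`hP.nil`, `hP.step` for the word `X.take j` (of length `j`, `List.take_take`).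
-/

namespace Pool.Agent.Aug

open Finset

theorem ps_t {t : List Lr → ℂ} {β : Lr → ℂ} (h : LW t β) (X : List Lr) :
    ∑ i ∈ range X.length, ‖t (X.take (i + 1))‖ ≤ 3 / 4 := by
  cases X with
  | nil => simp; norm_num
  | cons s X' =>
    rw [List.length_cons, Finset.sum_range_succ']
    have h1 : ‖t ((s :: X').take (0 + 1))‖ ≤ 7 / 10 := by
      simpa using h.one s
    set g : List Lr → ℝ := fun X => if 2 ≤ X.length then ‖t X‖ else 0 with hg
    have hg0 : ∀ Y, 0 ≤ g Y := by
      intro Y
      simp only [hg]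
      split_ifs
      · exact norm_nonneg _
      · exact le_rfl
    have hgs : Summable g := by
      refine Summable.of_nonneg_of_le hg0 (fun Y => ?_) h.summ
      simp only [hg]
      split_ifs
      · exact le_rfl
      · exact norm_nonneg _
    have h2 : ∑ i ∈ range X'.length, ‖t ((s :: X').take (i + 1 + 1))‖ =
        ∑ i ∈ range X'.length, g ((s :: X').take (i + 1 + 1)) := by
      apply Finset.sum_congr rfl
      intro i hi
      rw [Finset.mem_range] at hi
      simp only [hg]
      rw [if_pos]
      rw [List.length_take, List.length_cons]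
      omega
    have h3 : ∑ i ∈ range X'.length, g ((s :: X').take (i + 1 + 1)) ≤ ∑' Y, g Y := by
      refine sum_le_tsum_of_injOn hgs hg0 _ (fun i => (s :: X').take (i + 1 + 1)) ?_
      intro i hi j hj hij
      have h4 := congrArg List.length hij
      simp only [List.length_take, List.length_cons] at h4
      rw [Finset.mem_coe, Finset.mem_range] at hi hj
      omega
    have h4 : ∑' Y, g Y ≤ 1 / 40 := h.long
    rw [h2]
    linarith

theorem ps_gen {t : List Lr → ℂ} {β : Lr → ℂ} (h : LW t β) (X : List Lr) (a c : ℕ → ℝ)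
    (ha : ∀ j, 0 ≤ a j)
    (hac : ∀ j, j ≤ X.length →
      a j ≤ c j + ∑ i ∈ range j, a i * ‖t ((X.take j).drop i)‖) :
    ∑ j ∈ range (X.length + 1), a j ≤ 4 * ∑ j ∈ range (X.length + 1), c j := by
  set n := X.length with hn
  have h1 : ∑ j ∈ range (n + 1), a j ≤ ∑ j ∈ range (n + 1), c j +
      ∑ j ∈ range (n + 1), ∑ i ∈ range j, a i * ‖t ((X.take j).drop i)‖ := by
    rw [← Finset.sum_add_distrib]
    apply Finset.sum_le_sum
    intro j hj
    rw [Finset.mem_range] at hj
    exact hac j (by omega)
  have h2 : ∑ j ∈ range (n + 1), ∑ i ∈ range j, a i * ‖t ((X.take j).drop i)‖ =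
      ∑ i ∈ range n, ∑ j ∈ Ico (i + 1) (n + 1), a i * ‖t ((X.take j).drop i)‖ := by
    apply Finset.sum_comm'
    intro j i
    simp only [Finset.mem_range, Finset.mem_Ico]
    omega
  have h3 : ∀ i ∈ range n, ∑ j ∈ Ico (i + 1) (n + 1), a i * ‖t ((X.take j).drop i)‖ ≤
      a i * (3 / 4) := by
    intro i hi
    rw [Finset.mem_range] at hi
    rw [← Finset.mul_sum]
    apply mul_le_mul_of_nonneg_left _ (ha i)
    rw [Finset.sum_Ico_eq_sum_range]
    have h4 := ps_t h (X.drop i)
    rw [List.length_drop, ← hn] at h4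
    refine le_trans (le_of_eq ?_) h4
    rw [show n + 1 - (i + 1) = n - i by omega]
    apply Finset.sum_congr rfl
    intro k _
    rw [List.drop_take, show i + 1 + k - i = k + 1 by omega]
  have h5 : ∑ i ∈ range n, ∑ j ∈ Ico (i + 1) (n + 1), a i * ‖t ((X.take j).drop i)‖ ≤
      3 / 4 * ∑ j ∈ range (n + 1), a j := by
    refine (Finset.sum_le_sum h3).trans ?_
    rw [← Finset.sum_mul, Finset.sum_range_succ]
    have := ha n
    linarith
  rw [h2] at h1
  linarith

theorem ps {t P : List Lr → ℂ} {β : Lr → ℂ} (h : LW t β) (hP : LP t P) (X : List Lr) :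
    ∑ j ∈ range (X.length + 1), ‖P (X.take j)‖ ≤ 4 := by
  have h1 := ps_gen h X (fun j => ‖P (X.take j)‖) (fun j => if j = 0 then 1 else 0)
    (fun j => norm_nonneg _) ?_
  · have h2 : ∑ j ∈ range (X.length + 1), (if j = 0 then (1 : ℝ) else 0) = 1 := by
      rw [Finset.sum_ite_eq' (range (X.length + 1)) 0 (fun _ => (1 : ℝ))]
      simp
    rw [h2] at h1
    simpa using h1
  · intro j hj
    rcases Nat.eq_zero_or_pos j with h0 | h0
    · subst h0
      simp [hP.nil]
    · have hne : X.take j ≠ [] := by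
        intro h3
        have := congrArg List.length h3
        simp only [List.length_take, List.length_nil] at this
        omega
      rw [hP.step _ hne, if_neg (by omega), zero_add, List.length_take, min_eq_left hj]
      refine norm_sum_le_of_le _ (fun i hi => ?_)
      rw [Finset.mem_range] at hi
      rw [norm_mul, List.take_take, min_eq_left (by omega : i ≤ j)]

/-- in particular `P` is bounded -/
theorem ps_bdd {t P : List Lr → ℂ} {β : Lr → ℂ} (h : LW t β) (hP : LP t P) (X : List Lr) :
    ‖P X‖ ≤ 4 := by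
  have h1 := ps h hP X
  have h2 : ‖P (X.take X.length)‖ ≤ ∑ j ∈ range (X.length + 1), ‖P (X.take j)‖ :=
    Finset.single_le_sum (f := fun j => ‖P (X.take j)‖) (fun _ _ => norm_nonneg _)
      (Finset.self_mem_range_succ _)
  rw [List.take_length] at h2
  exact h2.trans h1

end Pool.Agent.Aug
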