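import Mathlib
import Pool.Agent.Lib_MP_11aa79_q2.Basic

/-!
# PIECE QSEQ (about 90 lines): the sequence `Q j = WS β j t` satisfies the hypotheses of the
renewal theorem.

PROOF. `q_zero`: `WS_zero`, `h.t_nil`.
For a summable function on words, `∑_n ∑_{w ∈ wd n} F w = ∑' F` (`HasSum` over the fibres of
`List.length`; e.g. `Summable.tsum_sigma'`/`HasSum.sigma` along the equivalence
`(Σ n, {w // w.length = n}) ≃ List Lr` (`Equiv.sigmaFiberEquiv List.length`), or as
`HasSum.tsum_fiberwise`); with `F w = bw β w * t w` (norm `≤ ‖t w‖` by `norm_bw_le`) this is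
`q_tsum` (`h.total`).
`q_tail` and `q_summable`: `‖WS β n t‖ ≤ (9/10)^n * ∑_{w ∈ wd n} ‖t w‖` (`norm_WS_le`), and
`n * (9/10)^n ≤ 9` because `n x^n ≤ ∑_{i=1}^n x^i ≤ x/(1-x)`; so
`n * ‖Q (n+1)‖ ≤ (81/10) * ∑_{w ∈ wd (n+1)} ‖t w‖` which for `n ≥ 1` only involves words of length
`≥ 2`: the sum over `n` is at most `(81/10) * (1/40) ≤ 1/4` (`h.long`).
-/

namespace Pool.Agent.Aug

open Filter Topology Finset

private theorem qseq_gen {M : Type*} [AddCommMonoid M] [TopologicalSpace M] [ContinuousAdd M]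
    [RegularSpace M] {F : List Lr → M} {a : M} (h : HasSum F a) :
    HasSum (fun n => ∑ w ∈ wd n, F w) a := by
  have h1 := (Equiv.sigmaFiberEquiv (List.length (α := Lr))).hasSum_iff.2 h
  refine HasSum.sigma h1 (fun n => ?_)
  have h2 : ∑ w ∈ wd n, F w = ∑ c : List.Vector Lr n, F c.1 := by
    unfold wd
    rw [Finset.sum_map]
    rfl
  rw [h2]
  exact hasSum_fintype (fun c : List.Vector Lr n => F c.1)

theorem tsum_wd {F : List Lr → ℂ} (hF : Summable fun X => ‖F X‖) :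
    HasSum (fun n => ∑ w ∈ wd n, F w) (∑' X, F X) :=
  qseq_gen hF.of_norm.hasSum

theorem tsum_wd_real {F : List Lr → ℝ} (hF : Summable F) :
    HasSum (fun n => ∑ w ∈ wd n, F w) (∑' X, F X) :=
  qseq_gen hF.hasSum

theorem q_zero {t : List Lr → ℂ} {β : Lr → ℂ} (h : LW t β) : WS β 0 t = 0 := by
  rw [WS_zero, h.t_nil]

theorem q_tsum {t : List Lr → ℂ} {β : Lr → ℂ} (h : LW t β) : ∑' n, WS β n t = 1 := by
  have h1 : Summable fun X => ‖bw β X * t X‖ := by
    refine Summable.of_nonneg_of_le (fun _ => norm_nonneg _) (fun X => ?_) h.summ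
    rw [norm_mul]
    have h2 := norm_bw_le h.β_le X
    have h3 : (9 / 10 : ℝ) ^ X.length ≤ 1 := pow_le_one₀ (by norm_num) (by norm_num)
    have h4 := norm_nonneg (t X)
    nlinarith
  have h2 := (tsum_wd h1).tsum_eq
  rw [h.total] at h2
  exact h2

private theorem qseq_pow (n : ℕ) : (n : ℝ) * (9 / 10) ^ n ≤ 9 := by
  have h1 := one_add_mul_le_pow (a := (1 / 9 : ℝ)) (by norm_num) n
  have h2 : (1 + (1 / 9 : ℝ)) ^ n * (9 / 10) ^ n = 1 := by
    rw [← mul_pow]; norm_num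
  have h3 : (0 : ℝ) < (9 / 10) ^ n := by positivity
  have h4 := mul_le_mul_of_nonneg_right h1 h3.le
  rw [h2] at h4
  linarith

theorem q_summable {t : List Lr → ℂ} {β : Lr → ℂ} (h : LW t β) :
    Summable fun n : ℕ => (n : ℝ) * ‖WS β n t‖ := by
  have h1 := (tsum_wd_real h.summ).summable.mul_left 9
  refine Summable.of_nonneg_of_le (fun n => by positivity) (fun n => ?_) h1
  have h2 := norm_WS_le h.β_le n t
  have h3 := qseq_pow n
  have h4 : 0 ≤ ∑ w ∈ wd n, ‖t w‖ := Finset.sum_nonneg (fun _ _ => norm_nonneg _)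
  calc (n : ℝ) * ‖WS β n t‖ ≤ n * ((9 / 10) ^ n * ∑ w ∈ wd n, ‖t w‖) :=
        mul_le_mul_of_nonneg_left h2 (by positivity)
    _ = (n * (9 / 10) ^ n) * ∑ w ∈ wd n, ‖t w‖ := by ring
    _ ≤ 9 * ∑ w ∈ wd n, ‖t w‖ := mul_le_mul_of_nonneg_right h3 h4

theorem q_tail {t : List Lr → ℂ} {β : Lr → ℂ} (h : LW t β) :
    ∑' n : ℕ, (n : ℝ) * ‖WS β (n + 1) t‖ ≤ 1 / 4 := by
  set g : List Lr → ℝ := fun X => if 2 ≤ X.length then ‖t X‖ else 0 with hg
  have hg0 : ∀ Y, 0 ≤ g Y := by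
    intro Y
    simp only [hg]
    split_ifs
    · exact norm_nonneg _
    · exact le_rfl
  have hgs : Summable g := by
    refine Summable.of_nonneg_of_le hg0 (fun Y => ?_) h.summ
    simp only [hg]
    split_ifs
    · exact le_rfl
    · exact norm_nonneg _
  have hlong : ∑' Y, g Y ≤ 1 / 40 := h.long
  have hG := tsum_wd_real hgs
  set H : ℕ → ℝ := fun n => ∑ w ∈ wd n, g w with hH
  have hH0 : ∀ n, 0 ≤ H n := fun n => Finset.sum_nonneg (fun w _ => hg0 w)
  have hHs : Summable H := hG.summable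
  have hH1 : Summable fun n => H (n + 1) := (summable_nat_add_iff 1).2 hHs
  have hterm : ∀ n : ℕ, (n : ℝ) * ‖WS β (n + 1) t‖ ≤ 81 / 10 * H (n + 1) := by
    intro n
    rcases Nat.eq_zero_or_pos n with h0 | h0
    · subst h0
      have := hH0 (0 + 1)
      simp only [Nat.cast_zero, zero_mul]
      positivity
    · have h2 := norm_WS_le h.β_le (n + 1) t
      have h3 := qseq_pow n
      have h4 : ∑ w ∈ wd (n + 1), ‖t w‖ = H (n + 1) := by
        simp only [hH]
        apply Finset.sum_congr rfl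
        intro w hw
        rw [mem_wd] at hw
        simp only [hg]
        rw [if_pos (by omega)]
      rw [h4] at h2
      calc (n : ℝ) * ‖WS β (n + 1) t‖ ≤ n * ((9 / 10) ^ (n + 1) * H (n + 1)) :=
            mul_le_mul_of_nonneg_left h2 (by positivity)
        _ = (n * (9 / 10) ^ n) * (9 / 10 * H (n + 1)) := by ring
        _ ≤ 9 * (9 / 10 * H (n + 1)) := mul_le_mul_of_nonneg_right h3 (by
            have := hH0 (n + 1); positivity)
        _ = 81 / 10 * H (n + 1) := by ring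
  have hs2 : Summable fun n : ℕ => 81 / 10 * H (n + 1) := hH1.mul_left _
  have hs1 : Summable fun n : ℕ => (n : ℝ) * ‖WS β (n + 1) t‖ :=
    Summable.of_nonneg_of_le (fun n => by positivity) hterm hs2
  have h5 : ∑' n : ℕ, (n : ℝ) * ‖WS β (n + 1) t‖ ≤ ∑' n : ℕ, 81 / 10 * H (n + 1) :=
    hs1.tsum_le_tsum hterm hs2
  have h6 : ∑' n, H (n + 1) ≤ ∑' n, H n := by
    have := hHs.sum_add_tsum_nat_add 1
    rw [Finset.sum_range_one] at this
    have h7 := hH0 0
    linarith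
  rw [tsum_mul_left] at h5
  have h7 : ∑' n, H n = ∑' Y, g Y := hG.tsum_eq
  linarith

end Pool.Agent.Aug
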