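import Mathlib

/-!
# PIECE REN (about 120 lines): a renewal theorem.

Pure analysis. `Q : ℕ → ℂ`, `Q 0 = 0`, `∑ Q = 1`, `∑_{j ≥ 1} j ‖Q (j+1)‖ ≤ 1/4`.

PROOF. Tails `R i = ∑'_j Q (i + 1 + j)`; `R 0 = 1`, `R i - R (i+1) = Q (i+1)`,
`∑_{i ≥ 1} ‖R i‖ ≤ ∑_{i≥1} ∑_{j≥0} ‖Q (i+1+j)‖ = ∑_{j≥1} j ‖Q (j+1)‖ ≤ 1/4`.
As power series, `(1 - X) R = 1 - Q`, `Y (1 - Q) = f`, and with `Z n = ∑_{i≤n} f i` also
`(1 - X) Z = f`; hence `R Y = Z` and `Y = v Z` with `v = R⁻¹`. From `v R = 1` one gets
`∑ ‖v‖ ≤ 4/3` and `(∑ v) (∑ R) = 1`. The bound and the limit follow (Tannery).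
-/

namespace Pool.Agent.Aug

open Filter Topology Finset

private theorem ren_tail (a : ℕ → ℝ) (ha : ∀ n, 0 ≤ a n) (hs : Summable a)
    (hs1 : Summable fun n : ℕ => (n : ℝ) * a n) (N : ℕ) :
    ∑ i ∈ range N, ∑' j, a (i + 1 + j) ≤ ∑' n : ℕ, (n : ℝ) * a n := by
  have hT : ∀ i, ∑' j, a (i + 1 + j) = a (i + 1) + ∑' j, a (i + 1 + 1 + j) := by
    intro i
    have hsi : Summable fun j => a (i + 1 + j) := by
      have := (summable_nat_add_iff (i + 1)).2 hs
      refine this.congr fun j => ?_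
      rw [add_comm]
    rw [hsi.tsum_eq_zero_add]
    congr 1
    refine tsum_congr fun j => ?_
    congr 1
    ring
  have hA : ∀ N : ℕ, ∑ i ∈ range N, ∑' j, a (i + 1 + j)
      = ∑ m ∈ range (N + 1), (m : ℝ) * a m + N * ∑' j, a (N + 1 + j) := by
    intro N
    induction N with
    | zero => simp
    | succ N ih =>
      rw [sum_range_succ, ih, sum_range_succ _ (N + 1), hT N]
      push_cast
      ring
  rw [hA N, ← hs1.sum_add_tsum_nat_add (N + 1)]
  have hsi : Summable fun j => a (j + (N + 1)) := (summable_nat_add_iff (N + 1)).2 hs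
  have hs2 : Summable fun j => ((j + (N + 1) : ℕ) : ℝ) * a (j + (N + 1)) :=
    (summable_nat_add_iff (N + 1)).2 hs1
  have e : (fun j => a (N + 1 + j)) = fun j => a (j + (N + 1)) := by
    funext j; rw [add_comm]
  rw [e, ← tsum_mul_left]
  have := (hsi.mul_left (N : ℝ)).tsum_le_tsum (fun j => ?_) hs2
  · linarith
  · refine mul_le_mul_of_nonneg_right ?_ (ha _)
    push_cast
    have : (0 : ℝ) ≤ (j : ℝ) := Nat.cast_nonneg j
    linarith

theorem renewal (Q : ℕ → ℂ) (h0 : Q 0 = 0) (hs : Summable fun n : ℕ => (n : ℝ) * ‖Q n‖)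
    (h1 : ∑' n, Q n = 1) (h2 : ∑' n : ℕ, (n : ℝ) * ‖Q (n + 1)‖ ≤ 1 / 4) :
    ∃ uinf : ℂ, uinf ≠ 0 ∧ ∃ U : ℝ, 0 ≤ U ∧ ∀ Y f : ℕ → ℂ, (Summable fun n => ‖f n‖) →
      (∀ n, Y n = f n + ∑ i ∈ range n, Y i * Q (n - i)) →
      (∀ n, ‖Y n‖ ≤ U * ∑' n, ‖f n‖) ∧ Tendsto Y atTop (𝓝 (uinf * ∑' n, f n)) := by
  -- summability of `Q`
  have hQn : Summable fun n => ‖Q n‖ := by
    refine Summable.of_nonneg_of_le (fun n => norm_nonneg _) (fun n => ?_) hs
    rcases Nat.eq_zero_or_pos n with rfl | hn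
    · simp [h0]
    · have : (1 : ℝ) ≤ (n : ℝ) := by exact_mod_cast hn
      nlinarith [norm_nonneg (Q n)]
  have hQ : Summable Q := hQn.of_norm
  set R : ℕ → ℂ := fun i => ∑' j, Q (i + 1 + j) with hR
  have hsQ : ∀ i, Summable fun j => Q (i + 1 + j) := by
    intro i
    refine ((summable_nat_add_iff (i + 1)).2 hQ).congr fun j => ?_
    rw [add_comm]
  have hR0 : R 0 = 1 := by
    have := hQ.tsum_eq_zero_add
    rw [h1, h0, zero_add] at this
    rw [hR]
    simp only
    rw [this]
    refine tsum_congr fun j => ?_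
    congr 1
    ring
  have hRs : ∀ i, R i = Q (i + 1) + R (i + 1) := by
    intro i
    simp only [hR]
    rw [(hsQ i).tsum_eq_zero_add]
    congr 1
    refine tsum_congr fun j => ?_
    congr 1
    ring
  -- the tails are summable
  have hsa : Summable fun n => ‖Q (n + 1)‖ := (summable_nat_add_iff 1).2 hQn
  have hsa1 : Summable fun n : ℕ => (n : ℝ) * ‖Q (n + 1)‖ := by
    refine Summable.of_nonneg_of_le (fun n => by positivity) (fun n => ?_)
      ((summable_nat_add_iff 1).2 hs)
    push_cast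
    nlinarith [norm_nonneg (Q (n + 1))]
  have hRp : ∀ N, ∑ i ∈ range N, ‖R (i + 1)‖ ≤ 1 / 4 := by
    intro N
    refine le_trans (le_trans (sum_le_sum fun i _ => ?_)
      (ren_tail (fun n => ‖Q (n + 1)‖) (fun n => norm_nonneg _) hsa hsa1 N)) h2
    have hq : Summable fun j => ‖Q (i + 1 + 1 + j)‖ := by
      refine ((summable_nat_add_iff (i + 1 + 1)).2 hQn).congr fun j => ?_
      rw [add_comm]
    refine (norm_tsum_le_tsum_norm hq).trans (le_of_eq ?_)
    refine tsum_congr fun j => ?_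
    congr 2
    ring
  -- the inverse power series
  set v : ℕ → ℂ := fun n => PowerSeries.coeff n (PowerSeries.mk R)⁻¹ with hv
  have hvR : (PowerSeries.mk R)⁻¹ * PowerSeries.mk R = 1 := by
    refine PowerSeries.inv_mul_cancel _ ?_
    rw [← PowerSeries.coeff_zero_eq_constantCoeff_apply, PowerSeries.coeff_mk, hR0]
    exact one_ne_zero
  have hvmk : PowerSeries.mk v = (PowerSeries.mk R)⁻¹ := by
    ext n
    simp [hv]
  -- recursion for `v`
  have hv0 : v 0 = 1 := by
    have := congrArg (PowerSeries.coeff 0) hvR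
    rw [← hvmk, PowerSeries.coeff_mul] at this
    simpa [hR0] using this
  have hvrec : ∀ n, v (n + 1) = - ∑ i ∈ range (n + 1), v (n - i) * R (i + 1) := by
    intro n
    have := congrArg (PowerSeries.coeff (n + 1)) hvR
    rw [← hvmk, PowerSeries.coeff_mul, PowerSeries.coeff_one] at this
    simp only [PowerSeries.coeff_mk, Nat.add_eq_zero_iff, one_ne_zero, and_false, if_false] at this
    rw [← Finset.Nat.sum_antidiagonal_swap] at this
    simp only [Prod.fst_swap, Prod.snd_swap] at this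
    rw [Finset.Nat.sum_antidiagonal_eq_sum_range_succ (fun i j => v j * R i) (n + 1)] at this
    rw [sum_range_succ', Nat.sub_zero, hR0, mul_one] at this
    have e : ∑ i ∈ range (n + 1), v (n + 1 - (i + 1)) * R (i + 1)
        = ∑ i ∈ range (n + 1), v (n - i) * R (i + 1) := by
      refine sum_congr rfl fun i _ => ?_
      rw [Nat.add_sub_add_right]
    rw [e] at this
    linear_combination this
  -- partial sums of `‖v‖`
  have hvp : ∀ N, ∑ n ∈ range N, ‖v n‖ ≤ 4 / 3 := by
    intro N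
    rcases N with _ | N
    · simp; norm_num
    rw [sum_range_succ', hv0, norm_one]
    have h3 : ∑ n ∈ range N, ‖v (n + 1)‖ ≤
        ∑ n ∈ range N, ∑ i ∈ range (n + 1), ‖R (i + 1)‖ * ‖v (n - i)‖ := by
      refine sum_le_sum fun n _ => ?_
      rw [hvrec n, norm_neg]
      refine (norm_sum_le _ _).trans (le_of_eq ?_)
      refine sum_congr rfl fun i _ => ?_
      rw [norm_mul, mul_comm]
    have h4 : ∑ n ∈ range N, ∑ i ∈ range (n + 1), ‖R (i + 1)‖ * ‖v (n - i)‖ ≤
        (∑ i ∈ range N, ‖R (i + 1)‖) * ∑ n ∈ range N, ‖v n‖ := by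
      rw [Finset.sum_comm' (s' := fun i => Ico i N) (t' := range N), sum_mul]
      · refine sum_le_sum fun i _ => ?_
        rw [Finset.sum_Ico_eq_sum_range, mul_sum]
        simp only [Nat.add_sub_cancel_left]
        exact sum_le_sum_of_subset_of_nonneg (range_mono (Nat.sub_le _ _))
          fun j _ _ => by positivity
      · intro n i
        simp only [mem_range, mem_Ico]
        omega
    have h5 : ∑ n ∈ range N, ‖v n‖ ≤ ∑ n ∈ range N, ‖v (n + 1)‖ + 1 := by
      have h6 : ∑ n ∈ range (N + 1), ‖v n‖ = ∑ n ∈ range N, ‖v (n + 1)‖ + 1 := by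
        rw [sum_range_succ', hv0, norm_one]
      rw [← h6]
      exact sum_le_sum_of_subset_of_nonneg (range_mono (Nat.le_succ _))
        fun j _ _ => norm_nonneg _
    have h7 : (∑ i ∈ range N, ‖R (i + 1)‖) * ∑ n ∈ range N, ‖v n‖ ≤
        1 / 4 * ∑ n ∈ range N, ‖v n‖ :=
      mul_le_mul_of_nonneg_right (hRp N) (sum_nonneg fun _ _ => norm_nonneg _)
    linarith
  have hvs : Summable fun n => ‖v n‖ :=
    summable_of_sum_range_le (fun n => norm_nonneg _) hvp
  have hRsum : Summable fun n => ‖R n‖ :=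
    (summable_nat_add_iff 1).1 (summable_of_sum_range_le (fun n => norm_nonneg _) hRp)
  have hprod : (∑' n, v n) * ∑' n, R n = 1 := by
    rw [tsum_mul_tsum_eq_tsum_sum_antidiagonal_of_summable_norm hvs hRsum]
    have : ∀ n, ∑ kl ∈ antidiagonal n, v kl.1 * R kl.2 = if n = 0 then 1 else 0 := by
      intro n
      have := congrArg (PowerSeries.coeff n) hvR
      rw [← hvmk, PowerSeries.coeff_mul, PowerSeries.coeff_one] at this
      simpa using this
    simp_rw [this]
    exact tsum_ite_eq 0 _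
  refine ⟨∑' n, v n, left_ne_zero_of_mul_eq_one hprod, 4 / 3, by norm_num, ?_⟩
  intro Y f hf hY
  set Z : ℕ → ℂ := fun n => ∑ i ∈ range (n + 1), f i with hZ
  have hZX : (1 - PowerSeries.X) * PowerSeries.mk Z = PowerSeries.mk f := by
    ext n
    rw [sub_mul, one_mul, map_sub]
    rcases n with _ | n
    · simp [hZ]
    · rw [PowerSeries.coeff_succ_X_mul]
      simp [hZ, sum_range_succ]
  have hRX : (1 - PowerSeries.X) * PowerSeries.mk R = 1 - PowerSeries.mk Q := by
    ext n
    rw [sub_mul, one_mul, map_sub, map_sub, PowerSeries.coeff_one]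
    rcases n with _ | n
    · simp [hR0, h0]
    · rw [PowerSeries.coeff_succ_X_mul]
      simp [hRs n]
  have hYX : PowerSeries.mk Y * (1 - PowerSeries.mk Q) = PowerSeries.mk f := by
    ext n
    rw [mul_sub, mul_one, map_sub, PowerSeries.coeff_mul]
    simp only [PowerSeries.coeff_mk]
    rw [Finset.Nat.sum_antidiagonal_eq_sum_range_succ (fun i j => Y i * Q j) n, sum_range_succ,
      Nat.sub_self, h0, mul_zero, add_zero, hY n]
    ring
  have hYv : PowerSeries.mk Y = PowerSeries.mk v * PowerSeries.mk Z := by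
    have hX : (1 - PowerSeries.X : PowerSeries ℂ) ≠ 0 := by
      intro h
      have := congrArg (PowerSeries.coeff 0) h
      simp at this
    have e1 : PowerSeries.mk R * PowerSeries.mk Y = PowerSeries.mk Z := by
      refine mul_left_cancel₀ hX ?_
      rw [hZX, ← mul_assoc, hRX, mul_comm, hYX]
    rw [← e1, ← mul_assoc, hvmk, hvR, one_mul]
  have hYn : ∀ n, Y n = ∑ i ∈ range (n + 1), v i * Z (n - i) := by
    intro n
    have := congrArg (PowerSeries.coeff n) hYv
    rw [PowerSeries.coeff_mul] at this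
    simp only [PowerSeries.coeff_mk] at this
    rw [this, Finset.Nat.sum_antidiagonal_eq_sum_range_succ (fun i j => v i * Z j) n]
  have hZb : ∀ n, ‖Z n‖ ≤ ∑' n, ‖f n‖ := by
    intro n
    exact (norm_sum_le _ _).trans (hf.sum_le_tsum _ fun _ _ => norm_nonneg _)
  have hN : 0 ≤ ∑' n, ‖f n‖ := tsum_nonneg fun _ => norm_nonneg _
  refine ⟨fun n => ?_, ?_⟩
  · rw [hYn n]
    refine (norm_sum_le _ _).trans ?_
    have h9 : ∑ i ∈ range (n + 1), ‖v i * Z (n - i)‖ ≤
        ∑ i ∈ range (n + 1), ‖v i‖ * ∑' n, ‖f n‖ := by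
      refine sum_le_sum fun i _ => ?_
      rw [norm_mul]
      exact mul_le_mul_of_nonneg_left (hZb _) (norm_nonneg _)
    refine h9.trans ?_
    rw [← sum_mul]
    exact mul_le_mul_of_nonneg_right (hvp _) hN
  · have hZt : Tendsto Z atTop (𝓝 (∑' n, f n)) := by
      have := hf.of_norm.hasSum.tendsto_sum_nat
      exact (tendsto_add_atTop_iff_nat 1).2 this
    have key : Tendsto (fun n => ∑' i, if i ≤ n then v i * Z (n - i) else 0) atTop
        (𝓝 (∑' i, v i * ∑' n, f n)) := by
      refine tendsto_tsum_of_dominated_convergence (bound := fun i => ‖v i‖ * ∑' n, ‖f n‖)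
        (hvs.mul_right _) (fun i => ?_) (Eventually.of_forall fun n i => ?_)
      · have h8 : Tendsto (fun n => v i * Z (n - i)) atTop (𝓝 (v i * ∑' n, f n)) :=
          (hZt.comp (tendsto_sub_atTop_nat i)).const_mul _
        refine h8.congr' ?_
        filter_upwards [eventually_ge_atTop i] with n hn
        rw [if_pos hn]
      · split_ifs
        · rw [norm_mul]
          exact mul_le_mul_of_nonneg_left (hZb _) (norm_nonneg _)
        · rw [norm_zero]
          exact mul_nonneg (norm_nonneg _) hN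
    rw [tsum_mul_right] at key
    refine key.congr fun n => ?_
    rw [hYn n, tsum_eq_sum (s := range (n + 1))]
    · refine sum_congr rfl fun i hi => ?_
      rw [if_pos (by simpa [Nat.lt_succ_iff] using hi)]
    · intro i hi
      rw [if_neg (by simpa [Nat.lt_succ_iff] using hi)]

end Pool.Agent.Aug
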