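import Mathlib
import Pool.Agent.Lib_MP_11aa79_q2.Basic

/-!
# PIECE WREC (about 90 lines): the recursion for the two-sided sums.

PROOF of `cut3`. `range (A ++ w ++ B).length` is the disjoint union of `j < |A|`, `j = |A| + i`
(`i < |w|`), `j = |A| + |w| + i` (`i < |B|`) (`Finset.sum_range_add` / `Finset.range_add`...), and
`List.take_append`, `List.drop_append` compute the two halves.

PROOF of `W2_rec`. Insert `hf` for the word `A ++ w ++ B` (nonempty as `n ≠ 0` or `B ≠ []`) in
`W2 β f n A B = WS β n (fun w => f (A ++ w ++ B))`, use `cut3`, `WS_add`, `WS_sum`,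
`WS_const_mul`, `WS_mul_const`, and for the middle sum `WS_conv` (`F u = f (A ++ u)`,
`H v = t (v ++ B)`); `WS_congr` lets you use `w.length = n`.
-/

namespace Pool.Agent.Aug

open Finset

/-- cut a concatenation of two words -/
theorem wrec_cut2 (f t : List Lr → ℂ) (X Y : List Lr) :
    ∑ j ∈ range (X ++ Y).length, f ((X ++ Y).take j) * t ((X ++ Y).drop j) =
      ∑ j ∈ range X.length, f (X.take j) * t (X.drop j ++ Y) +
      ∑ i ∈ range Y.length, f (X ++ Y.take i) * t (Y.drop i) := by
  rw [List.length_append, Finset.sum_range_add]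
  congr 1
  · refine Finset.sum_congr rfl (fun j hj => ?_)
    have hj' : j ≤ X.length := (Finset.mem_range.1 hj).le
    rw [List.take_append_of_le_length hj', List.drop_append_of_le_length hj']
  · refine Finset.sum_congr rfl (fun i _ => ?_)
    have h1 : (X ++ Y).take (X.length + i) = X ++ Y.take i := by
      rw [List.take_append]
      simp
    have h2 : (X ++ Y).drop (X.length + i) = Y.drop i := by
      rw [List.drop_append]
      simp
    rw [h1, h2]

theorem cut3 (f t : List Lr → ℂ) (A w B : List Lr) :
    ∑ j ∈ range (A ++ w ++ B).length, f ((A ++ w ++ B).take j) * t ((A ++ w ++ B).drop j) =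
      ∑ j ∈ range A.length, f (A.take j) * t (A.drop j ++ w ++ B) +
      ∑ i ∈ range w.length, f (A ++ w.take i) * t (w.drop i ++ B) +
      ∑ i ∈ range B.length, f (A ++ w ++ B.take i) * t (B.drop i) := by
  rw [wrec_cut2 f t (A ++ w) B]
  have h := wrec_cut2 f (fun u => t (u ++ B)) A w
  rw [h]

theorem W2_rec (β : Lr → ℂ) (f e t : List Lr → ℂ)
    (hf : ∀ X, X ≠ [] → f X = e X + ∑ j ∈ range X.length, f (X.take j) * t (X.drop j))
    (n : ℕ) (A B : List Lr) (hne : n ≠ 0 ∨ B ≠ []) :
    W2 β f n A B = W2 β e n A B + ∑ j ∈ range A.length, f (A.take j) * W2 β t n (A.drop j) B +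
      ∑ i ∈ range n, W2 β f i A [] * W2 β t (n - i) [] B +
      ∑ i ∈ range B.length, W2 β f n A (B.take i) * t (B.drop i) := by
  have h1 : W2 β f n A B = WS β n (fun w => e (A ++ w ++ B) +
      (∑ j ∈ range A.length, f (A.take j) * t (A.drop j ++ w ++ B) +
      ∑ i ∈ range n, f (A ++ w.take i) * t (w.drop i ++ B) +
      ∑ i ∈ range B.length, f (A ++ w ++ B.take i) * t (B.drop i))) := by
    unfold W2
    apply WS_congr
    intro w hw
    have hX : A ++ w ++ B ≠ [] := by
      intro h0
      have h2 := congrArg List.length h0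
      simp only [List.length_append, List.length_nil] at h2
      rcases hne with h3 | h3
      · omega
      · exact h3 (List.length_eq_zero_iff.1 (by omega))
    rw [hf _ hX, cut3 f t A w B, hw]
  rw [h1, WS_add, WS_add, WS_add, WS_sum, WS_sum, WS_sum]
  have h2 : ∀ j ∈ range A.length, WS β n (fun w => f (A.take j) * t (A.drop j ++ w ++ B)) =
      f (A.take j) * W2 β t n (A.drop j) B := fun j _ => WS_const_mul β n _ _
  have h3 : ∀ i ∈ range n, WS β n (fun w => f (A ++ w.take i) * t (w.drop i ++ B)) =
      W2 β f i A [] * W2 β t (n - i) [] B := by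
    intro i hi
    have h4 := WS_conv β (Finset.mem_range.1 hi).le (fun u => f (A ++ u)) (fun v => t (v ++ B))
    rw [h4]
    unfold W2
    simp only [List.append_nil, List.nil_append]
  have h4 : ∀ i ∈ range B.length, WS β n (fun w => f (A ++ w ++ B.take i) * t (B.drop i)) =
      W2 β f n A (B.take i) * t (B.drop i) := fun i _ => WS_mul_const β n _ _
  rw [Finset.sum_congr rfl h2, Finset.sum_congr rfl h3, Finset.sum_congr rfl h4]
  unfold W2
  ring

end Pool.Agent.Aug
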