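import Mathlib
import Pool.Agent.Lib_MP_11aa79_q2.PS
import Pool.Agent.Lib_MP_11aa79_q2.REN
import Pool.Agent.Lib_MP_11aa79_q2.QSEQ
import Pool.Agent.Lib_MP_11aa79_q2.WREC
import Pool.Agent.Lib_MP_11aa79_q2.EST

/-!
# PIECE ONE (about 90 lines): one-sided sums, by the renewal theorem.

PROOF of `forcing`. `W2_rec` with `B = []` (for `n ≠ 0`), the last sum is empty, and
`W2 β t (n - i) [] [] = WS β (n-i) t` (simp with `List.nil_append`, `List.append_nil`).
For `n = 0` both sides are `f A` (`WS_zero`).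

PROOF of `fc_bound`. `‖fc ... n‖ ≤ [n = 0] ‖f A‖ + ‖W2 β e n A []‖
+ ∑_{j<|A|} ‖f (A.take j)‖ ‖W2 β t n (A.drop j) []‖`, sum over `n` with `est_W2`.

PROOF of `one`. `P` satisfies the recursion with `e = 0` on nonempty words (`hP.step`). Apply
`renewal` to `Q n = WS β n t` (`q_zero`, `q_summable`, `q_tsum`, `q_tail`), `Y n = W2 β P n A []`,
`f n = fc β P 0 t A n`: `∑ ‖fc‖ ≤ ‖P A‖ + (∑_{j<|A|} ‖P (A.take j)‖) N ≤ 4 + 4 N`, `N = ∑' ‖t‖`
(`ps`; the sum over `j ≤ |A|` is at most `4`), so `C = U * (4 + 4 N)`; `ℓ A = uinf * ∑' fc A`.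
For `A = []`: `fc` is `P [] = 1` at `n = 0` and `0` for `n ≥ 1`, so `ℓ [] = uinf ≠ 0`.
-/

namespace Pool.Agent.Aug

open Filter Topology Finset

/-- forcing term of the renewal equation -/
noncomputable def fc (β : Lr → ℂ) (f e t : List Lr → ℂ) (A : List Lr) (n : ℕ) : ℂ :=
  if n = 0 then f A
  else W2 β e n A [] + ∑ j ∈ range A.length, f (A.take j) * W2 β t n (A.drop j) []

theorem forcing (β : Lr → ℂ) (f e t : List Lr → ℂ)
    (hf : ∀ X, X ≠ [] → f X = e X + ∑ j ∈ range X.length, f (X.take j) * t (X.drop j))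
    (A : List Lr) (n : ℕ) :
    W2 β f n A [] = fc β f e t A n + ∑ i ∈ range n, W2 β f i A [] * WS β (n - i) t := by
  by_cases hn : n = 0
  · subst hn
    simp [fc, W2, WS_zero]
  · rw [W2_rec β f e t hf n A [] (Or.inl hn)]
    have h1 : ∀ m, W2 β t m [] [] = WS β m t := by
      intro m
      unfold W2
      simp
    simp only [fc, if_neg hn, h1, List.length_nil, range_zero, sum_empty, add_zero]

theorem fc_bound {β : Lr → ℂ} {f e t : List Lr → ℂ} (hβ : ∀ s, ‖β s‖ ≤ 9 / 10)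
    (ht : Summable fun X => ‖t X‖) (he : Summable fun X => ‖e X‖) (A : List Lr) :
    (Summable fun n => ‖fc β f e t A n‖) ∧
      ∑' n, ‖fc β f e t A n‖ ≤ ‖f A‖ + ∑' X, ‖e X‖ +
        (∑ j ∈ range A.length, ‖f (A.take j)‖) * ∑' X, ‖t X‖ := by
  have h0 : HasSum (fun n : ℕ => if n = 0 then ‖f A‖ else 0) ‖f A‖ := hasSum_ite_eq 0 _
  have h1 := est_W2 hβ he A []
  have h2 : ∀ j, (Summable fun n => ‖W2 β t n (A.drop j) []‖) ∧
      ∑' n, ‖W2 β t n (A.drop j) []‖ ≤ ∑' X, ‖t X‖ := fun j => est_W2 hβ ht _ []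
  have h3 : HasSum (fun n => ∑ j ∈ range A.length, ‖f (A.take j)‖ * ‖W2 β t n (A.drop j) []‖)
      (∑ j ∈ range A.length, ‖f (A.take j)‖ * ∑' n, ‖W2 β t n (A.drop j) []‖) :=
    hasSum_sum fun j _ => (h2 j).1.hasSum.mul_left _
  have h4 := (h0.add h1.1.hasSum).add h3
  have h5 : ∀ n, ‖fc β f e t A n‖ ≤ ((if n = 0 then ‖f A‖ else 0) + ‖W2 β e n A []‖) +
      ∑ j ∈ range A.length, ‖f (A.take j)‖ * ‖W2 β t n (A.drop j) []‖ := by
    intro n
    have h6 : 0 ≤ ∑ j ∈ range A.length, ‖f (A.take j)‖ * ‖W2 β t n (A.drop j) []‖ :=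
      Finset.sum_nonneg fun _ _ => by positivity
    by_cases hn : n = 0
    · simp only [fc, if_pos hn]
      have := norm_nonneg (W2 β e n A [])
      linarith
    · simp only [fc, if_neg hn]
      have h7 : ‖∑ j ∈ range A.length, f (A.take j) * W2 β t n (A.drop j) []‖ ≤
          ∑ j ∈ range A.length, ‖f (A.take j)‖ * ‖W2 β t n (A.drop j) []‖ :=
        norm_sum_le_of_le _ fun j _ => (norm_mul _ _).le
      have := norm_add_le (W2 β e n A []) (∑ j ∈ range A.length, f (A.take j) * W2 β t n (A.drop j) [])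
      linarith
  have h6 : Summable fun n => ‖fc β f e t A n‖ :=
    Summable.of_nonneg_of_le (fun _ => norm_nonneg _) h5 h4.summable
  refine ⟨h6, (h6.tsum_le_tsum h5 h4.summable).trans ?_⟩
  rw [h4.tsum_eq, Finset.sum_mul]
  have h7 : ∑ j ∈ range A.length, ‖f (A.take j)‖ * ∑' n, ‖W2 β t n (A.drop j) []‖ ≤
      ∑ j ∈ range A.length, ‖f (A.take j)‖ * ∑' X, ‖t X‖ :=
    Finset.sum_le_sum fun j _ => mul_le_mul_of_nonneg_left (h2 j).2 (norm_nonneg _)
  linarith [h1.2]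

theorem one {t P : List Lr → ℂ} {β : Lr → ℂ} (h : LW t β) (hP : LP t P) :
    ∃ (C : ℝ) (ℓ : List Lr → ℂ), ℓ [] ≠ 0 ∧ (∀ n A, ‖W2 β P n A []‖ ≤ C) ∧
      ∀ A, Tendsto (fun n => W2 β P n A []) atTop (𝓝 (ℓ A)) := by
  obtain ⟨uinf, hu, U, hU, hren⟩ := renewal (fun n => WS β n t) (q_zero h) (q_summable h)
    (q_tsum h) (q_tail h)
  have hrec : ∀ X, X ≠ [] → P X = (fun _ => (0 : ℂ)) X +
      ∑ j ∈ range X.length, P (X.take j) * t (X.drop j) := by
    intro X hX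
    simpa using hP.step X hX
  have hz : Summable fun X : List Lr => ‖(fun _ => (0 : ℂ)) X‖ := by
    simpa using summable_zero
  have hfb := fun A => fc_bound (f := P) h.β_le h.summ hz A
  have hmain := fun A => hren (fun n => W2 β P n A []) (fc β P (fun _ => 0) t A) (hfb A).1
    (fun n => forcing β P (fun _ => 0) t hrec A n)
  have hN : 0 ≤ ∑' X, ‖t X‖ := tsum_nonneg fun _ => norm_nonneg _
  refine ⟨U * (4 + 4 * ∑' X, ‖t X‖), fun A => uinf * ∑' n, fc β P (fun _ => 0) t A n,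
    ?_, ?_, fun A => (hmain A).2⟩
  · have h1 : ∑' n, fc β P (fun _ => 0) t [] n = 1 := by
      rw [tsum_eq_single 0]
      · simp [fc, hP.nil]
      · intro n hn
        simp [fc, hn, W2, WS]
    simp only [h1, mul_one]
    exact hu
  · intro n A
    refine ((hmain A).1 n).trans (mul_le_mul_of_nonneg_left ((hfb A).2.trans ?_) hU)
    have h1 := ps h hP A
    have h2 := ps_bdd h hP A
    rw [sum_range_succ] at h1
    have h3 := norm_nonneg (P (A.take A.length))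
    have h4 : ∑ j ∈ range A.length, ‖P (A.take j)‖ ≤ 4 := by linarith
    have h5 : ∑' X : List Lr, ‖(fun _ => (0 : ℂ)) X‖ = 0 := by simp
    rw [h5]
    nlinarith [mul_le_mul_of_nonneg_right h4 hN]

end Pool.Agent.Aug
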