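import Mathlib
import Pool.Agent.Lib_MP_11aa79_q2.ONE

/-!
# PIECE TWOB (about 90 lines): uniform bound for the two-sided sums.

PROOF. Fix `n`, `A`, `B`; let `C1` be the constant of `one` (`C1 ≥ 0`), `N = ∑' ‖t X‖`. Let
`a j = ‖W2 β P n A (B.take j)‖`. For `1 ≤ j ≤ |B|` (so `B.take j ≠ []`) `W2_rec` with `e = 0` gives
`a j ≤ c j + ∑_{i<j} a i ‖t ((B.take j).drop i)‖` (note `(B.take j).take i = B.take i` for `i ≤ j`)
with `c j = ∑_{k<|A|} ‖P (A.take k)‖ ‖W2 β t n (A.drop k) (B.take j)‖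
+ ∑_{i<n} C1 ‖W2 β t (n-i) [] (B.take j)‖`, and `a 0 ≤ C1 =: c 0`.
`ps_gen` gives `∑_{j ≤ |B|} a j ≤ 4 ∑_{j≤|B|} c j`. Now
`∑_j ‖W2 β t n (A.drop k) (B.take j)‖ ≤ ∑_j ∑_{w ∈ wd n} ‖t (A.drop k ++ w ++ B.take j)‖ ≤ N`
(`norm_WS_le'`, `est_j`), so the first part sums to at most `4 N` (`ps`: `∑_k ‖P (A.take k)‖ ≤ 4`);
and `∑_j ‖W2 β t m [] (B.take j)‖ ≤ (9/10)^m N` (`norm_WS_le`, `est_j`), so the second part sums to
at most `C1 N ∑_{m ≥ 1} (9/10)^m ≤ 10 C1 N`. So `‖W2 β P n A B‖ = a |B| ≤ 4 (C1 + 4 N + 10 C1 N)`.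
-/

namespace Pool.Agent.Aug

open Filter Topology Finset

theorem twob {t P : List Lr → ℂ} {β : Lr → ℂ} (h : LW t β) (hP : LP t P) :
    ∃ C : ℝ, ∀ n A B, ‖W2 β P n A B‖ ≤ C := by
  obtain ⟨C1, ℓ, -, hC1, -⟩ := one h hP
  have hC0 : 0 ≤ C1 := (norm_nonneg _).trans (hC1 0 [])
  set N : ℝ := ∑' X, ‖t X‖ with hN
  have hN0 : 0 ≤ N := tsum_nonneg fun _ => norm_nonneg _
  refine ⟨4 * (C1 + 4 * N + 10 * C1 * N), fun n A B => ?_⟩
  have hrec : ∀ X, X ≠ [] → P X = (fun _ => (0 : ℂ)) X +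
      ∑ j ∈ range X.length, P (X.take j) * t (X.drop j) := by
    intro X hX
    simpa using hP.step X hX
  have hz : ∀ A B, W2 β (fun _ => (0 : ℂ)) n A B = 0 := by
    intro A B
    simp [W2, WS]
  -- the two parts of the forcing term
  set c1 : ℕ → ℝ := fun j => ∑ k ∈ range A.length,
    ‖P (A.take k)‖ * ‖W2 β t n (A.drop k) (B.take j)‖ with hc1
  set c2 : ℕ → ℝ := fun j => ∑ i ∈ range n, C1 * ‖W2 β t (n - i) [] (B.take j)‖ with hc2
  set c : ℕ → ℝ := fun j => (if j = 0 then C1 else 0) + (c1 j + c2 j) with hc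
  have hc1n : ∀ j, 0 ≤ c1 j := fun j => Finset.sum_nonneg fun _ _ => by positivity
  have hc2n : ∀ j, 0 ≤ c2 j := fun j => Finset.sum_nonneg fun _ _ => by positivity
  have hgen := ps_gen h B (fun j => ‖W2 β P n A (B.take j)‖) c (fun _ => norm_nonneg _) (by
    intro j hj
    by_cases hj0 : j = 0
    · subst hj0
      have h1 : ‖W2 β P n A (B.take 0)‖ ≤ C1 := by simpa using hC1 n A
      have h2 : 0 ≤ ∑ i ∈ range 0, ‖W2 β P n A (B.take i)‖ * ‖t ((B.take 0).drop i)‖ :=
        Finset.sum_nonneg fun _ _ => by positivity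
      simp only [hc, if_true]
      linarith [hc1n 0, hc2n 0]
    · have hBj : B.take j ≠ [] := by
        intro h0
        have := congrArg List.length h0
        rw [List.length_take, List.length_nil] at this
        omega
      have hlen : (B.take j).length = j := by
        rw [List.length_take]; omega
      rw [W2_rec β P (fun _ => 0) t hrec n A (B.take j) (Or.inr hBj), hz, zero_add, hlen]
      have e1 : ‖∑ k ∈ range A.length, P (A.take k) * W2 β t n (A.drop k) (B.take j)‖ ≤ c1 j :=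
        norm_sum_le_of_le _ fun k _ => (norm_mul _ _).le
      have e2 : ‖∑ i ∈ range n, W2 β P i A [] * W2 β t (n - i) [] (B.take j)‖ ≤ c2 j := by
        refine norm_sum_le_of_le _ fun i _ => ?_
        rw [norm_mul]
        exact mul_le_mul_of_nonneg_right (hC1 i A) (norm_nonneg _)
      have e3 : ‖∑ i ∈ range j, W2 β P n A ((B.take j).take i) * t ((B.take j).drop i)‖ ≤
          ∑ i ∈ range j, ‖W2 β P n A (B.take i)‖ * ‖t ((B.take j).drop i)‖ := by
        refine norm_sum_le_of_le _ fun i hi => ?_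
        rw [mem_range] at hi
        rw [norm_mul, List.take_take, min_eq_left hi.le]
      have e4 := norm_add₃_le (a := ∑ k ∈ range A.length, P (A.take k) * W2 β t n (A.drop k) (B.take j))
        (b := ∑ i ∈ range n, W2 β P i A [] * W2 β t (n - i) [] (B.take j))
        (c := ∑ i ∈ range j, W2 β P n A ((B.take j).take i) * t ((B.take j).drop i))
      simp only [hc, if_neg hj0]
      linarith)
  have hlast : ‖W2 β P n A B‖ ≤ ∑ j ∈ range (B.length + 1), ‖W2 β P n A (B.take j)‖ := by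
    have := Finset.single_le_sum (f := fun j => ‖W2 β P n A (B.take j)‖)
      (fun _ _ => norm_nonneg _) (Finset.self_mem_range_succ B.length)
    simpa using this
  refine hlast.trans (hgen.trans (mul_le_mul_of_nonneg_left ?_ (by norm_num)))
  -- the sums of the forcing terms
  have s0 : ∑ j ∈ range (B.length + 1), (if j = 0 then C1 else 0) = C1 := by
    rw [Finset.sum_ite_eq' (range (B.length + 1)) 0 (fun _ => C1), if_pos (by simp)]
  have s1 : ∑ j ∈ range (B.length + 1), c1 j ≤ 4 * N := by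
    rw [hc1]
    simp only
    rw [Finset.sum_comm]
    have h1 : ∀ k, ∑ j ∈ range (B.length + 1), ‖P (A.take k)‖ * ‖W2 β t n (A.drop k) (B.take j)‖ ≤
        ‖P (A.take k)‖ * N := by
      intro k
      rw [← Finset.mul_sum]
      refine mul_le_mul_of_nonneg_left ?_ (norm_nonneg _)
      refine (Finset.sum_le_sum fun j _ => ?_).trans (est_j h.summ (A.drop k) B n)
      exact norm_WS_le' h.β_le n _
    refine (Finset.sum_le_sum fun k _ => h1 k).trans ?_
    rw [← Finset.sum_mul]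
    have h2 := ps h hP A
    rw [sum_range_succ] at h2
    have h3 := norm_nonneg (P (A.take A.length))
    exact mul_le_mul_of_nonneg_right (by linarith) hN0
  have s2 : ∑ j ∈ range (B.length + 1), c2 j ≤ 10 * C1 * N := by
    rw [hc2]
    simp only
    rw [Finset.sum_comm]
    have h1 : ∀ i, ∑ j ∈ range (B.length + 1), C1 * ‖W2 β t (n - i) [] (B.take j)‖ ≤
        C1 * N * (9 / 10) ^ (n - i) := by
      intro i
      rw [← Finset.mul_sum]
      have h2 : ∑ j ∈ range (B.length + 1), ‖W2 β t (n - i) [] (B.take j)‖ ≤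
          (9 / 10) ^ (n - i) * N := by
        have h3 := est_j h.summ [] B (n - i)
        refine (Finset.sum_le_sum fun j _ =>
          norm_WS_le (β := β) h.β_le (n - i) (fun w => t ([] ++ w ++ B.take j))).trans ?_
        rw [← Finset.mul_sum]
        exact mul_le_mul_of_nonneg_left h3 (by positivity)
      calc C1 * ∑ j ∈ range (B.length + 1), ‖W2 β t (n - i) [] (B.take j)‖ ≤
          C1 * ((9 / 10) ^ (n - i) * N) := mul_le_mul_of_nonneg_left h2 hC0
        _ = _ := by ring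
    refine (Finset.sum_le_sum fun i _ => h1 i).trans ?_
    rw [← Finset.mul_sum]
    have h4 : ∑ i ∈ range n, (9 / 10 : ℝ) ^ (n - i) ≤ 10 := by
      have h5 : ∑ i ∈ range n, (9 / 10 : ℝ) ^ (n - i) ≤ ∑ i ∈ range n, (9 / 10 : ℝ) ^ (n - 1 - i) := by
        refine Finset.sum_le_sum fun i hi => ?_
        exact pow_le_pow_of_le_one (by norm_num) (by norm_num) (by omega)
      rw [Finset.sum_range_reflect (fun i => (9 / 10 : ℝ) ^ i) n] at h5
      have h6 : ∑ i ∈ range n, (9 / 10 : ℝ) ^ i ≤ 10 := by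
        rw [geom_sum_eq (by norm_num)]
        have : (0 : ℝ) ≤ (9 / 10) ^ n := by positivity
        rw [div_le_iff_of_neg (by norm_num)]
        linarith
      linarith
    calc C1 * N * ∑ i ∈ range n, (9 / 10 : ℝ) ^ (n - i) ≤ C1 * N * 10 :=
        mul_le_mul_of_nonneg_left h4 (by positivity)
      _ = _ := by ring
  rw [hc]
  simp only [Finset.sum_add_distrib]
  rw [s0]
  linarith

end Pool.Agent.Aug
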