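import Mathlib
import Pool.Agent.Lib_MP_11aa79_q2.CUT
import Pool.Agent.Lib_MP_11aa79_q2.FV
import Pool.Agent.Lib_MP_11aa79_q2.FREC
import Pool.Agent.Lib_MP_11aa79_q2.TWOB

/-!
# PIECE FBD (about 100 lines): uniform bound for all two-sided sums in the group.

PROOF. `P = hat p` satisfies `LP` (`LP_of_PD hG.supp hp`), so by `twob` (with `hG.lw`) and `FF_eq`
there is `C0 ≥ 0` with `‖FF β p n g h‖ ≤ C0` for all `n`, if (`EP g` or `g = 1`) and (`SP h` or
`h = 1`). Let `Cp` bound `p` (`hp.bdd`, `Cp ≥ 0`) and `C1 = 10 (C0 + Cp)`.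
Step 1: for `SP h ∨ h = 1` and ALL `g`, `n`: `‖FF n g h‖ ≤ C1`, by strong induction on `g.norm`.
If `EP g ∨ g = 1` fine. Otherwise `n = 0`: `FF_zero`, `≤ Cp`. `n + 1`: `FF_succ_left`,
`sum_letters`, and with `i` from `letter_cases`:
`‖FF (n+1) g h‖ ≤ (9/10) ‖FF n (g * lt (i,true)) h‖ + (9/10) ‖FF n (g * lt (i+1,true)) h‖
≤ (9/10) C1 + (9/10) C0 ≤ C1` (induction hypothesis for the first, `EP` for the second).
Step 2: for ALL `h`, `g`, `n`: `‖FF n g h‖ ≤ C2 = 10 (C1 + Cp)`, the same way by induction on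
`h.norm` with `FF_succ_right` and `letter_cases'`.
-/

namespace Pool.Agent.Aug

open Pool.Agent.Lib_MP_11aa79_an Finset
open scoped Classical

private theorem FBD_two {b1 b2 X Y : ℂ} {C D E : ℝ} (h1 : ‖b1‖ ≤ 9 / 10) (h2 : ‖b2‖ ≤ 9 / 10)
    (hX : ‖X‖ ≤ 10 * (C + D)) (hY : ‖Y‖ ≤ C) (hC : 0 ≤ C) (hD : 0 ≤ D) (hE : E = 10 * (C + D)) :
    ‖b1 * X + b2 * Y‖ ≤ E := by
  have e1 : ‖b1 * X‖ ≤ 9 / 10 * (10 * (C + D)) := by
    rw [norm_mul]
    exact mul_le_mul h1 hX (norm_nonneg _) (by norm_num)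
  have e2 : ‖b2 * Y‖ ≤ 9 / 10 * C := by
    rw [norm_mul]
    exact mul_le_mul h2 hY (norm_nonneg _) (by norm_num)
  have e3 := norm_add_le (b1 * X) (b2 * Y)
  rw [hE]
  linarith

theorem FF_bdd {t p : F2 → ℂ} {β : Lr → ℂ} (hG : GD t β) (hp : PD t p) :
    ∃ C : ℝ, ∀ n g h, ‖FF β p n g h‖ ≤ C := by
  obtain ⟨C0', hC0'⟩ := twob hG.lw (LP_of_PD hG.supp hp)
  obtain ⟨Cp', hCp'⟩ := hp.bdd
  obtain ⟨C0, hC0, h00⟩ : ∃ C0 : ℝ, (∀ n A B, ‖W2 β (hat p) n A B‖ ≤ C0) ∧ 0 ≤ C0 :=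
    ⟨max C0' 0, fun n A B => (hC0' n A B).trans (le_max_left _ _), le_max_right _ _⟩
  obtain ⟨Cp, hCp, hp0⟩ : ∃ Cp : ℝ, (∀ g, ‖p g‖ ≤ Cp) ∧ 0 ≤ Cp :=
    ⟨max Cp' 0, fun g => (hCp' g).trans (le_max_left _ _), le_max_right _ _⟩
  have base : ∀ n g h, (EP g ∨ g = 1) → (SP h ∨ h = 1) → ‖FF β p n g h‖ ≤ C0 := by
    intro n g h hg hh
    rw [FF_eq hG.β_neg p n hg hh]
    exact hC0 _ _ _
  have step1 : ∀ N : ℕ, ∀ g : F2, g.norm = N → ∀ n h, (SP h ∨ h = 1) →
      ‖FF β p n g h‖ ≤ 10 * (C0 + Cp) := by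
    intro N
    induction N using Nat.strong_induction_on with
    | _ N ih =>
      intro g hg n h hh
      by_cases hgE : EP g
      · have := base n g h (Or.inl hgE) hh
        linarith
      by_cases hg1 : g = 1
      · have := base n g h (Or.inr hg1) hh
        linarith
      cases n with
      | zero =>
        rw [FF_zero]
        have := hCp (g * h)
        linarith
      | succ n =>
        obtain ⟨i, hi1, hi2⟩ := letter_cases hgE hg1
        rw [FF_succ_left, sum_letters hG.β_neg i]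
        exact FBD_two (hG.lw.β_le _) (hG.lw.β_le _)
          (ih _ (by rw [← hg]; exact hi1) _ rfl n h hh)
          (base n _ h (Or.inl hi2) hh) h00 hp0 rfl
  have h10 : 0 ≤ 10 * (C0 + Cp) := by positivity
  have step2 : ∀ N : ℕ, ∀ h : F2, h.norm = N → ∀ n g,
      ‖FF β p n g h‖ ≤ 10 * (10 * (C0 + Cp) + Cp) := by
    intro N
    induction N using Nat.strong_induction_on with
    | _ N ih =>
      intro h hh n g
      by_cases hhS : SP h
      · have := step1 _ g rfl n h (Or.inl hhS)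
        linarith
      by_cases hh1 : h = 1
      · have := step1 _ g rfl n h (Or.inr hh1)
        linarith
      cases n with
      | zero =>
        rw [FF_zero]
        have := hCp (g * h)
        linarith
      | succ n =>
        obtain ⟨i, hi1, hi2⟩ := letter_cases' hhS hh1
        rw [FF_succ_right, sum_letters hG.β_neg i]
        exact FBD_two (hG.lw.β_le _) (hG.lw.β_le _)
          (ih _ (by rw [← hh]; exact hi1) _ rfl n g)
          (step1 _ g rfl n _ (Or.inl hi2)) h10 hp0 rfl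
  exact ⟨_, fun n g h => step2 _ h rfl n g⟩

end Pool.Agent.Aug
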