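import Mathlib
import Pool.Agent.Lib_MP_11aa79_q2.ONE

/-!
# PIECE TWOL (about 100 lines): limits of the two-sided sums, product form.

PROOF. Let `C1`, `ℓ` be as in `one`. Show by strong induction on `|B|`:
`∃ κ, ∀ A, Tendsto (fun n => W2 β P n A B) atTop (𝓝 (ℓ A * κ))` (with `κ = 1` for `B = []`), then
`choose`. For `B ≠ []`, `W2_rec` with `e = 0`:
`W2 β P n A B = ∑_{j<|A|} P (A.take j) * W2 β t n (A.drop j) B
 + ∑_{i<n} W2 β P i A [] * W2 β t (n-i) [] B + ∑_{i<|B|} W2 β P n A (B.take i) * t (B.drop i)`.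
* first sum → 0: each `W2 β t n (A.drop j) B → 0` as `n → ∞` (`(est_W2 ..).1.tendsto_atTop_zero`).
* second sum → `ℓ A * ∑'_{m ≥ 1} W2 β t m [] B` : convolution of the bounded convergent sequence
  `Y i = W2 β P i A [] → ℓ A` with the absolutely summable sequence `τ m = W2 β t m [] B`, `m ≥ 1`
  (`conv_tendsto` below).
* third sum → `∑_{i<|B|} ℓ A * κ_{B.take i} * t (B.drop i)` by the induction hypothesis.
So `κ_B = ∑'_{m} W2 β t (m+1) [] B + ∑_{i<|B|} κ_{B.take i} * t (B.drop i)`.

PROOF of `conv_tendsto`: `∑_{i<n} Y i * τ (n-i) = ∑_{m<n} Y (n-1-m) * τ (m+1)`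
`= ∑'_m (if m < n then Y (n-1-m) else 0) * τ (m+1)` and
`tendsto_tsum_of_dominated_convergence` with the bound `C * ‖τ (m+1)‖`.
-/

namespace Pool.Agent.Aug

open Filter Topology Finset

theorem conv_tendsto {Y τ : ℕ → ℂ} {C : ℝ} {y : ℂ} (hY : ∀ n, ‖Y n‖ ≤ C)
    (hlim : Tendsto Y atTop (𝓝 y)) (hτ : Summable fun n => ‖τ n‖) :
    Tendsto (fun n => ∑ i ∈ range n, Y i * τ (n - i)) atTop (𝓝 (y * ∑' m, τ (m + 1))) := by
  have hC0 : 0 ≤ C := (norm_nonneg _).trans (hY 0)
  have h1 : Summable fun n => ‖τ (n + 1)‖ := (summable_nat_add_iff 1).2 hτ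
  have h2 : ∀ n, ∑ i ∈ range n, Y i * τ (n - i) =
      ∑' m, (if m < n then Y (n - 1 - m) else 0) * τ (m + 1) := by
    intro n
    rw [tsum_eq_sum (s := range n)]
    · rw [← Finset.sum_range_reflect]
      refine Finset.sum_congr rfl fun i hi => ?_
      rw [mem_range] at hi
      rw [if_pos hi]
      congr 2
      omega
    · intro m hm
      rw [mem_range] at hm
      rw [if_neg hm, zero_mul]
  have h3 : y * ∑' m, τ (m + 1) = ∑' m, y * τ (m + 1) := tsum_mul_left.symm
  rw [h3]
  simp only [h2]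
  refine tendsto_tsum_of_dominated_convergence (bound := fun m => C * ‖τ (m + 1)‖)
    (h1.mul_left C) ?_ ?_
  · intro m
    refine Tendsto.mul_const _ ?_
    have h4 : Tendsto (fun n => Y (n - 1 - m)) atTop (𝓝 y) :=
      hlim.comp ((tendsto_sub_atTop_nat m).comp (tendsto_sub_atTop_nat 1))
    refine h4.congr' ?_
    filter_upwards [eventually_gt_atTop m] with n hn
    rw [if_pos hn]
  · refine Eventually.of_forall fun n m => ?_
    rw [norm_mul]
    refine mul_le_mul_of_nonneg_right ?_ (norm_nonneg _)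
    split_ifs
    · exact hY _
    · simpa using hC0

theorem twol {t P : List Lr → ℂ} {β : Lr → ℂ} (h : LW t β) (hP : LP t P) :
    ∃ ℓ κ : List Lr → ℂ, ℓ [] ≠ 0 ∧ κ [] = 1 ∧
      ∀ A B, Tendsto (fun n => W2 β P n A B) atTop (𝓝 (ℓ A * κ B)) := by
  obtain ⟨C1, ℓ, hℓ, hC1, hlim⟩ := one h hP
  have hrec : ∀ X, X ≠ [] → P X = (fun _ => (0 : ℂ)) X +
      ∑ j ∈ range X.length, P (X.take j) * t (X.drop j) := by
    intro X hX
    simpa using hP.step X hX
  have hz : ∀ n A B, W2 β (fun _ => (0 : ℂ)) n A B = 0 := by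
    intro n A B
    simp [W2, WS]
  have key : ∀ m, ∀ B : List Lr, B.length = m → ∃ κ : ℂ, ((B = []) → κ = 1) ∧
      ∀ A, Tendsto (fun n => W2 β P n A B) atTop (𝓝 (ℓ A * κ)) := by
    intro m
    induction m using Nat.strong_induction_on with
    | _ m IH =>
      intro B hB
      by_cases hB0 : B = []
      · subst hB0
        exact ⟨1, fun _ => rfl, fun A => by simpa using hlim A⟩
      · have hlen : ∀ i, i < B.length → (B.take i).length = i := by
          intro i hi
          rw [List.length_take]; omega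
        choose! κ hκ1 hκ using fun (i : ℕ) (hi : i < B.length) =>
          IH i (by omega) (B.take i) (hlen i hi)
        refine ⟨∑' m, W2 β t (m + 1) [] B + ∑ i ∈ range B.length, κ i * t (B.drop i),
          fun h => absurd h hB0, fun A => ?_⟩
        have e0 : ∀ n, W2 β P n A B =
            ∑ j ∈ range A.length, P (A.take j) * W2 β t n (A.drop j) B +
            ∑ i ∈ range n, W2 β P i A [] * W2 β t (n - i) [] B +
            ∑ i ∈ range B.length, W2 β P n A (B.take i) * t (B.drop i) := by
          intro n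
          rw [W2_rec β P (fun _ => 0) t hrec n A B (Or.inr hB0), hz, zero_add]
        have e1 : Tendsto (fun n => ∑ j ∈ range A.length, P (A.take j) * W2 β t n (A.drop j) B)
            atTop (𝓝 (∑ j ∈ range A.length, P (A.take j) * 0)) := by
          refine tendsto_finsetSum _ fun j _ => Tendsto.const_mul _ ?_
          exact tendsto_zero_iff_norm_tendsto_zero.2
            (est_W2 h.β_le h.summ (A.drop j) B).1.tendsto_atTop_zero
        have e2 := conv_tendsto (τ := fun n => W2 β t n [] B) (fun n => hC1 n A) (hlim A)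
          (est_W2 h.β_le h.summ [] B).1
        have e3 : Tendsto (fun n => ∑ i ∈ range B.length, W2 β P n A (B.take i) * t (B.drop i))
            atTop (𝓝 (∑ i ∈ range B.length, (ℓ A * κ i) * t (B.drop i))) := by
          refine tendsto_finsetSum _ fun i hi => Tendsto.mul_const _ ?_
          rw [mem_range] at hi
          exact hκ i hi A
        have e4 := (e1.add e2).add e3
        have e5 : ∑ j ∈ range A.length, P (A.take j) * 0 + ℓ A * ∑' m, W2 β t (m + 1) [] B +
            ∑ i ∈ range B.length, (ℓ A * κ i) * t (B.drop i) =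
            ℓ A * (∑' m, W2 β t (m + 1) [] B + ∑ i ∈ range B.length, κ i * t (B.drop i)) := by
          rw [mul_add, Finset.mul_sum]
          simp only [mul_zero, Finset.sum_const_zero, zero_add, mul_assoc]
        rw [e5] at e4
        exact e4.congr fun n => (e0 n).symm
  choose κ hκ1 hκ using fun B => key B.length B rfl
  exact ⟨ℓ, κ, hℓ, hκ1 [] rfl, fun A B => hκ B A⟩

end Pool.Agent.Aug
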