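import Mathlib
import Pool.Agent.Lib_MP_11aa79_q2.CUT
import Pool.Agent.Lib_MP_11aa79_q2.FV
import Pool.Agent.Lib_MP_11aa79_q2.FREC
import Pool.Agent.Lib_MP_11aa79_q2.TWOL

/-!
# PIECE FLIM (about 110 lines): limits of all two-sided sums in the group.

PROOF. `P = hat p` satisfies `LP` (`LP_of_PD hG.supp hp`); let `ℓ₀, κ₀` be the functions on words
given by `twol`. Step 1: for all `g` there is `L : ℂ` such that for all `h` with `SP h ∨ h = 1`,
`FF β p n g h → L * κ₀ h.toWord`. Strong induction on `g.norm`: if `EP g ∨ g = 1`,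
`L = ℓ₀ g.toWord` (`FF_eq`). Otherwise take `i` from `letter_cases`, `FF_succ_left`, `sum_letters`:
`FF (n+1) g h = β (i,true) FF n (g * lt (i,true)) h + β (i+1,true) FF n (g * lt (i+1,true)) h`, so
`L = β (i,true) L1 + β (i+1,true) L2` (`tendsto_add_atTop_iff_nat`). Choose a function `ℓ` with
`ℓ 1 = ℓ₀ []` (in the statement of the induction include: if `g = 1` then `L = ℓ₀ []`, or get it
from uniqueness of limits with `h = 1`, `κ₀ [] = 1`).
Step 2: for all `h` there is `K : ℂ` such that for all `g`, `FF β p n g h → ℓ g * K`; strong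
induction on `h.norm`: if `SP h ∨ h = 1`, `K = κ₀ h.toWord`; otherwise `FF_succ_right`,
`letter_cases'`. For `h = 1`, `K = 1`: choose `κ` and get `κ 1 = 1` from uniqueness of limits with
`g = 1` (`ℓ 1 ≠ 0`).
-/

namespace Pool.Agent.Aug

open Pool.Agent.Lib_MP_11aa79_an Finset Filter Topology
open scoped Classical

theorem FF_lim {t p : F2 → ℂ} {β : Lr → ℂ} (hG : GD t β) (hp : PD t p) :
    ∃ ℓ κ : F2 → ℂ, ℓ 1 ≠ 0 ∧ κ 1 = 1 ∧
      ∀ g h, Tendsto (fun n => FF β p n g h) atTop (𝓝 (ℓ g * κ h)) := by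
  obtain ⟨ℓ₀, κ₀, hℓ, hκ, H⟩ := twol hG.lw (LP_of_PD hG.supp hp)
  have base : ∀ g h, (EP g ∨ g = 1) → (SP h ∨ h = 1) →
      Tendsto (fun n => FF β p n g h) atTop (𝓝 (ℓ₀ g.toWord * κ₀ h.toWord)) := by
    intro g h hg hh
    have e : (fun n => FF β p n g h) = fun n => W2 β (hat p) n g.toWord h.toWord :=
      funext fun n => FF_eq hG.β_neg p n hg hh
    rw [e]
    exact H _ _
  have step1 : ∀ N : ℕ, ∀ g : F2, g.norm = N → ∃ L : ℂ, ∀ h, (SP h ∨ h = 1) →
      Tendsto (fun n => FF β p n g h) atTop (𝓝 (L * κ₀ h.toWord)) := by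
    intro N
    induction N using Nat.strong_induction_on with
    | _ N ih =>
      intro g hg
      by_cases hgE : EP g
      · exact ⟨_, fun h hh => base g h (Or.inl hgE) hh⟩
      by_cases hg1 : g = 1
      · exact ⟨_, fun h hh => base g h (Or.inr hg1) hh⟩
      obtain ⟨i, hi1, hi2⟩ := letter_cases hgE hg1
      obtain ⟨L1, hL1⟩ := ih _ (by rw [← hg]; exact hi1) _ rfl
      refine ⟨β (i, true) * L1 + β (i + 1, true) * ℓ₀ (g * lt (i + 1, true)).toWord,
        fun h hh => ?_⟩
      rw [← tendsto_add_atTop_iff_nat 1]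
      have e : (fun n => FF β p (n + 1) g h) = fun n =>
          β (i, true) * FF β p n (g * lt (i, true)) h +
            β (i + 1, true) * FF β p n (g * lt (i + 1, true)) h := by
        funext n
        rw [FF_succ_left, sum_letters hG.β_neg i]
      rw [e]
      have e2 : (β (i, true) * L1 + β (i + 1, true) * ℓ₀ (g * lt (i + 1, true)).toWord) *
          κ₀ h.toWord = β (i, true) * (L1 * κ₀ h.toWord) +
            β (i + 1, true) * (ℓ₀ (g * lt (i + 1, true)).toWord * κ₀ h.toWord) := by ring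
      rw [e2]
      exact ((hL1 h hh).const_mul _).add ((base _ h (Or.inl hi2) hh).const_mul _)
  choose ℓ hℓ' using fun g : F2 => step1 _ g rfl
  have step2 : ∀ N : ℕ, ∀ h : F2, h.norm = N → ∃ K : ℂ, ∀ g,
      Tendsto (fun n => FF β p n g h) atTop (𝓝 (ℓ g * K)) := by
    intro N
    induction N using Nat.strong_induction_on with
    | _ N ih =>
      intro h hh
      by_cases hhS : SP h
      · exact ⟨_, fun g => hℓ' g h (Or.inl hhS)⟩
      by_cases hh1 : h = 1
      · exact ⟨_, fun g => hℓ' g h (Or.inr hh1)⟩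
      obtain ⟨i, hi1, hi2⟩ := letter_cases' hhS hh1
      obtain ⟨K1, hK1⟩ := ih _ (by rw [← hh]; exact hi1) _ rfl
      refine ⟨β (i, true) * K1 + β (i + 1, true) * κ₀ (lt (i + 1, true) * h).toWord,
        fun g => ?_⟩
      rw [← tendsto_add_atTop_iff_nat 1]
      have e : (fun n => FF β p (n + 1) g h) = fun n =>
          β (i, true) * FF β p n g (lt (i, true) * h) +
            β (i + 1, true) * FF β p n g (lt (i + 1, true) * h) := by
        funext n
        rw [FF_succ_right, sum_letters hG.β_neg i]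
      rw [e]
      have e2 : ℓ g * (β (i, true) * K1 + β (i + 1, true) * κ₀ (lt (i + 1, true) * h).toWord) =
          β (i, true) * (ℓ g * K1) +
            β (i + 1, true) * (ℓ g * κ₀ (lt (i + 1, true) * h).toWord) := by ring
      rw [e2]
      exact ((hK1 g).const_mul _).add ((hℓ' g _ (Or.inl hi2)).const_mul _)
  choose κ hκ' using fun h : F2 => step2 _ h rfl
  have w1 : (1 : F2).toWord = [] := FreeGroup.toWord_one
  have hℓ1 : ℓ 1 = ℓ₀ [] := by
    have h1 := hℓ' 1 1 (Or.inr rfl)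
    have h2 := base 1 1 (Or.inr rfl) (Or.inr rfl)
    have h3 := tendsto_nhds_unique h1 h2
    rw [w1, hκ, mul_one, mul_one] at h3
    exact h3
  have hℓ10 : ℓ 1 ≠ 0 := by rw [hℓ1]; exact hℓ
  refine ⟨ℓ, κ, hℓ10, ?_, fun g h => hκ' h g⟩
  have h1 := hκ' 1 1
  have h2 := base 1 1 (Or.inr rfl) (Or.inr rfl)
  have h3 := tendsto_nhds_unique h1 h2
  rw [w1, hκ, mul_one, ← hℓ1] at h3
  exact mul_left_cancel₀ hℓ10 (by rw [h3, mul_one])

end Pool.Agent.Aug
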