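import Mathlib
import Pool.Agent.Lib_MP_11aa79_q2.DOM
import Pool.Agent.Lib_MP_11aa79_q2.FBD
import Pool.Agent.Lib_MP_11aa79_q2.FLIM

/-!
# PIECE DICH (about 70 lines): the dichotomy.

PROOF of `ws_del`: if `n > g.norm + h.norm` then for every word `w` of length `n` with nonzero
weight, `w` is positive (`pos_of_bw`), so `(mk w).norm = n` (`red_pos`, `toWord_mk_of_red`), while
`g * mk w * h = 1` would give `mk w = g⁻¹ * h⁻¹` of norm `≤ g.norm + h.norm`
(`FreeGroup.norm_mul_le`, `FreeGroup.norm_inv_eq`). So the sum vanishes (`WS_congr'`, with the zero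
function).

PROOF of `dich`. Take `C`, `ℓ`, `κ` from `FF_bdd`, `FF_lim` (enlarge `C` to bound `p` as well:
`hp.bdd`). By `dom_two` and `hcpb` (for `g * mk w * h`),
`WS β n (fun w => del (g * mk w * h)) → L g * K h`, `L g = ∑'_z c z ℓ (z⁻¹ g)`,
`K h = ∑'_z b z κ (h z⁻¹)`; by `ws_del` the limit is `0`. So `L g * K h = 0` for all `g`, `h`:
either `L = 0` identically (first alternative by `dom_one`) or `K = 0` identically (second
alternative by `dom_one'`).
-/

namespace Pool.Agent.Aug

open Pool.Agent.Lib_MP_11aa79_an Finset Filter Topology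
open scoped Classical

theorem ws_del {β : Lr → ℂ} (hβ : ∀ i, β (i, false) = 0) (g h : F2) :
    Tendsto (fun n => WS β n (fun w => del (g * FreeGroup.mk w * h))) atTop (𝓝 0) := by
  refine tendsto_const_nhds.congr' ?_
  filter_upwards [eventually_gt_atTop (g.norm + h.norm)] with n hn
  have h1 : WS β n (fun w => del (g * FreeGroup.mk w * h)) = WS β n (fun _ => 0) := by
    refine WS_congr' β n (fun w hw h0 => ?_)
    have hpos := pos_of_bw hβ h0
    have hnorm : (FreeGroup.mk w : F2).norm = n := by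
      unfold FreeGroup.norm
      rw [toWord_mk_of_red (red_pos hpos), hw]
    unfold del
    rw [if_neg]
    intro heq
    have e : FreeGroup.mk w = g⁻¹ * h⁻¹ := by
      have : g⁻¹ * (g * FreeGroup.mk w * h) * h⁻¹ = FreeGroup.mk w := by group
      rw [← this, heq]; group
    have e2 : (FreeGroup.mk w : F2).norm ≤ g.norm + h.norm := by
      rw [e]
      refine (FreeGroup.norm_mul_le _ _).trans ?_
      rw [FreeGroup.norm_inv_eq, FreeGroup.norm_inv_eq]
    omega
  rw [h1]
  unfold WS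
  simp

theorem dich {t p : F2 → ℂ} {β : Lr → ℂ} (hG : GD t β) (hp : PD t p) {b c : F2 → ℂ}
    (hb : Summable fun g => ‖b g‖) (hc : Summable fun g => ‖c g‖)
    (hcpb : ∀ g, ∑' q : F2 × F2, c q.1 * b q.2 * p (q.1⁻¹ * g * q.2⁻¹) = del g) :
    (∀ g, Tendsto (fun n => WS β n (fun w => conv c p (g * FreeGroup.mk w))) atTop (𝓝 0)) ∨
    (∀ h, Tendsto (fun n => WS β n (fun w => conv p b (FreeGroup.mk w * h))) atTop (𝓝 0)) := by
  obtain ⟨C1, hC1⟩ := FF_bdd hG hp
  obtain ⟨C2, hC2⟩ := hp.bdd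
  obtain ⟨ℓ, κ, hℓ, hκ, hlim⟩ := FF_lim hG hp
  set C := max C1 C2 with hCdef
  have hC : ∀ n g h, ‖FF β p n g h‖ ≤ C := fun n g h => (hC1 n g h).trans (le_max_left _ _)
  have hpC : ∀ g, ‖p g‖ ≤ C := fun g => (hC2 g).trans (le_max_right _ _)
  have hprod : ∀ g h, (∑' z, c z * ℓ (z⁻¹ * g)) * (∑' z, b z * κ (h * z⁻¹)) = 0 := by
    intro g h
    have h1 := dom_two hpC hb hc hC hlim hℓ hκ g h
    have h2 : (fun n => WS β n (fun w => ∑' q : F2 × F2,
        c q.1 * b q.2 * p (q.1⁻¹ * (g * FreeGroup.mk w * h) * q.2⁻¹))) =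
        fun n => WS β n (fun w => del (g * FreeGroup.mk w * h)) := by
      funext n
      congr 1
      funext w
      exact hcpb _
    rw [h2] at h1
    exact tendsto_nhds_unique h1 (ws_del hG.β_neg g h)
  by_cases hL : ∀ g, ∑' z, c z * ℓ (z⁻¹ * g) = 0
  · left
    intro g
    have h1 := dom_one hpC hc hC hlim hκ g
    rw [hL g] at h1
    exact h1
  · right
    push Not at hL
    obtain ⟨g, hg⟩ := hL
    intro h
    have h1 := dom_one' hpC hb hC hlim h
    have h2 : ∑' z, b z * κ (h * z⁻¹) = 0 := by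
      rcases mul_eq_zero.1 (hprod g h) with h3 | h3
      · exact absurd h3 hg
      · exact h3
    rw [h2, mul_zero] at h1
    exact h1

end Pool.Agent.Aug
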