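import Mathlib
import Pool.Agent.Lib_MP_11aa79_q2.ONE

/-!
# PIECE LGA (about 70 lines): pointwise inequality in the gain argument.

PROOF. Apply `renewal` (with `Q n = WS β n t`: `q_zero`, `q_summable`, `q_tsum`, `q_tail`) to
`Y n = W2 β f n A []` and the forcing `fc β f e t A` (`forcing`, `fc_bound`): `Y n` tends to
`uinf * ∑' fc`, so by `hlim` and uniqueness of limits and `uinf ≠ 0`, `∑' n, fc β f e t A n = 0`.
The term `n = 0` is `f A`; hence `‖f A‖ = ‖∑'_n fc (n+1)‖ ≤ ∑'_n ‖fc β f e t A (n+1)‖`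
(`Summable.tsum_eq_zero_add`), and `‖fc (n+1)‖ ≤ ‖W2 β e (n+1) A []‖ +
∑_{j<|A|} ‖f (A.take j)‖ ‖W2 β t (n+1) (A.drop j) []‖`; all the series converge (`est_W2`).
-/

namespace Pool.Agent.Aug

open Filter Topology Finset

theorem lga {t f e : List Lr → ℂ} {β : Lr → ℂ} (h : LW t β)
    (hf : ∀ X, X ≠ [] → f X = e X + ∑ j ∈ range X.length, f (X.take j) * t (X.drop j))
    (he : Summable fun X => ‖e X‖) (A : List Lr)
    (hlim : Tendsto (fun n => W2 β f n A []) atTop (𝓝 0)) :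
    ‖f A‖ ≤ ∑' n, ‖W2 β e (n + 1) A []‖ +
      ∑ j ∈ range A.length, ‖f (A.take j)‖ * ∑' n, ‖W2 β t (n + 1) (A.drop j) []‖ := by
  obtain ⟨uinf, hu, U, -, hren⟩ := renewal (fun n => WS β n t) (q_zero h) (q_summable h) (q_tsum h)
    (q_tail h)
  obtain ⟨hfc, -⟩ := fc_bound (f := f) h.β_le h.summ he A
  obtain ⟨-, hten⟩ := hren (fun n => W2 β f n A []) (fc β f e t A) hfc
    (fun n => forcing β f e t hf A n)
  have h0 : uinf * ∑' n, fc β f e t A n = 0 := tendsto_nhds_unique hten hlim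
  have h1 : ∑' n, fc β f e t A n = 0 := (mul_eq_zero.1 h0).resolve_left hu
  have hfc' : Summable (fc β f e t A) := hfc.of_norm
  rw [hfc'.tsum_eq_zero_add] at h1
  have h2 : fc β f e t A 0 = f A := by
    unfold fc
    rw [if_pos rfl]
  rw [h2] at h1
  have h3 : f A = -∑' n, fc β f e t A (n + 1) := eq_neg_of_add_eq_zero_left h1
  have hs1 : Summable fun n => ‖fc β f e t A (n + 1)‖ :=
    (summable_nat_add_iff (f := fun n => ‖fc β f e t A n‖) 1).2 hfc
  have h4 : ‖f A‖ ≤ ∑' n, ‖fc β f e t A (n + 1)‖ := by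
    rw [h3, norm_neg]
    exact norm_tsum_le_tsum_norm hs1
  have he1 : Summable fun n => ‖W2 β e (n + 1) A []‖ :=
    (summable_nat_add_iff (f := fun n => ‖W2 β e n A []‖) 1).2 (est_W2 h.β_le he A []).1
  have ht1 : ∀ j ∈ range A.length,
      Summable fun n => ‖f (A.take j)‖ * ‖W2 β t (n + 1) (A.drop j) []‖ := by
    intro j _
    exact ((summable_nat_add_iff (f := fun n => ‖W2 β t n (A.drop j) []‖) 1).2
      (est_W2 h.β_le h.summ (A.drop j) []).1).mul_left _
  have hts : Summable fun n => ∑ j ∈ range A.length,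
      ‖f (A.take j)‖ * ‖W2 β t (n + 1) (A.drop j) []‖ := summable_sum ht1
  have h5 : ∀ n, ‖fc β f e t A (n + 1)‖ ≤ ‖W2 β e (n + 1) A []‖ +
      ∑ j ∈ range A.length, ‖f (A.take j)‖ * ‖W2 β t (n + 1) (A.drop j) []‖ := by
    intro n
    unfold fc
    rw [if_neg (Nat.succ_ne_zero n)]
    refine (norm_add_le _ _).trans ?_
    refine add_le_add le_rfl ?_
    refine (norm_sum_le _ _).trans (sum_le_sum fun j _ => ?_)
    rw [norm_mul]
  have h6 := hs1.tsum_le_tsum h5 (he1.add hts)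
  rw [he1.tsum_add hts, Summable.tsum_finsetSum ht1] at h6
  simp only [tsum_mul_left] at h6
  exact h4.trans h6

end Pool.Agent.Aug
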