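import Mathlib
import Pool.Agent.Lib_MP_11aa79_q2.QSEQ
import Pool.Agent.Lib_MP_11aa79_q2.EST

/-!
# PIECE LGB (about 120 lines): from the pointwise inequality to summability.

Notation `BR = (range (R+1)).biUnion wd` = all words of length `≤ R` (a finset), and
`κ π = ∑' n, ‖W2 β t (n+1) π []‖`, `ε A = ∑' n, ‖W2 β e (n+1) A []‖`.

PROOF of `lgb_sum` (for `q = ‖e‖` resp. `‖t‖`, restricted by `S` to words of length `≥ L`):
`‖W2 β q (n+1) A []‖ ≤ (9/10)^(n+1) ∑_{w ∈ wd (n+1)} ‖q (A ++ w)‖` (`norm_WS_le`). For fixed `n` the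
map `(A, w) ↦ A ++ w` (`A ∈ S`, `w ∈ wd (n+1)`) is injective, and if all `A ∈ S` have length `≥ L`
the words `A ++ w` have length `≥ L + 1`. So
`∑_{A ∈ S} ‖W2 β q (n+1) A []‖ ≤ (9/10)^(n+1) * ∑' X, (if L + 1 ≤ X.length then ‖q X‖ else 0)`
(`sum_le_tsum_of_injOn`), and `∑_n (9/10)^(n+1) = 9`.

PROOF of `lgb`. Let `S = ∑_{A ∈ BR} ‖f A‖` (finite). By `hpt`,
`S ≤ ∑_{A ∈ BR} ε A + ∑_{A ∈ BR} ∑_{j<|A|} ‖f (A.take j)‖ κ (A.drop j)`. The first sum is
`≤ 9 ∑' ‖e‖` (`lgb_sum`, `L = 0`). The map `(A, j) ↦ (A.take j, A.drop j)` (`A ∈ BR`, `j < |A|`) is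
injective into `{(A1, A2) : A1 ∈ BR, A2 ∈ BR, A2 ≠ []}` so the second sum is
`≤ (∑_{A1 ∈ BR} ‖f A1‖) * (∑_{A2 ∈ BR, A2 ≠ []} κ A2) ≤ S * (9 * (1/40))` (`lgb_sum`, `L = 1`, and
`h.long`). So `S ≤ 9 ∑'‖e‖ + (9/40) S`, `S ≤ 12 ∑' ‖e‖`, for all `R`. Every finset of words lies
in some `BR`, so `f` is summable (`summable_of_sum_le`).
-/

namespace Pool.Agent.Aug

open Filter Topology Finset

theorem lgb_sum {q : List Lr → ℂ} {β : Lr → ℂ} (hβ : ∀ s, ‖β s‖ ≤ 9 / 10)
    (hq : Summable fun X => ‖q X‖) (S : Finset (List Lr)) (L : ℕ) (hS : ∀ A ∈ S, L ≤ A.length) :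
    ∑ A ∈ S, ∑' n, ‖W2 β q (n + 1) A []‖ ≤
      9 * ∑' X, (if L + 1 ≤ X.length then ‖q X‖ else 0) := by
  set g : List Lr → ℝ := fun X => if L + 1 ≤ X.length then ‖q X‖ else 0 with hg
  have hg0 : ∀ X, 0 ≤ g X := by
    intro X
    simp only [hg]
    split_ifs
    · exact norm_nonneg _
    · exact le_rfl
  have hgs : Summable g := by
    refine Summable.of_nonneg_of_le hg0 (fun X => ?_) hq
    simp only [hg]
    split_ifs
    · exact le_rfl
    · exact norm_nonneg _
  have h1 : ∀ A, Summable fun n => ‖W2 β q (n + 1) A []‖ := by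
    intro A
    have h0 := (est_W2 hβ hq A []).1
    exact h0.comp_injective (add_left_injective 1)
  rw [← Summable.tsum_finsetSum fun A _ => h1 A]
  have h2 : ∀ n, ∑ A ∈ S, ‖W2 β q (n + 1) A []‖ ≤ (9 / 10) ^ (n + 1) * ∑' X, g X := by
    intro n
    have h3 : ∀ A, ‖W2 β q (n + 1) A []‖ ≤ (9 / 10) ^ (n + 1) * ∑ w ∈ wd (n + 1), ‖q (A ++ w ++ [])‖ :=
      fun A => norm_WS_le hβ (n + 1) _
    have h3' : ∑ A ∈ S, ‖W2 β q (n + 1) A []‖ ≤
        ∑ A ∈ S, (9 / 10) ^ (n + 1) * ∑ w ∈ wd (n + 1), ‖q (A ++ w ++ [])‖ :=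
      Finset.sum_le_sum fun A _ => h3 A
    refine h3'.trans ?_
    rw [← Finset.mul_sum]
    refine mul_le_mul_of_nonneg_left ?_ (by positivity)
    rw [← Finset.sum_product' S (wd (n + 1)) (fun A w => ‖q (A ++ w ++ [])‖)]
    have h4 : ∀ p ∈ S ×ˢ wd (n + 1), ‖q (p.1 ++ p.2 ++ [])‖ = g (p.1 ++ p.2) := by
      intro p hp
      rw [Finset.mem_product, mem_wd] at hp
      have := hS _ hp.1
      have h5 : L + 1 ≤ (p.1 ++ p.2).length := by
        rw [List.length_append]; omega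
      simp only [hg]
      rw [if_pos h5, List.append_nil]
    have h5 : Set.InjOn (fun p : List Lr × List Lr => p.1 ++ p.2)
        (S ×ˢ wd (n + 1) : Finset (List Lr × List Lr)) := by
      intro p hp p' hp' hpp
      rw [Finset.mem_coe, Finset.mem_product, mem_wd] at hp hp'
      have h6 : p.2.length = p'.2.length := by rw [hp.2, hp'.2]
      have h7 := List.append_inj' hpp h6
      exact Prod.ext h7.1 h7.2
    calc ∑ p ∈ S ×ˢ wd (n + 1), ‖q (p.1 ++ p.2 ++ [])‖
        = ∑ p ∈ S ×ˢ wd (n + 1), g (p.1 ++ p.2) := Finset.sum_congr rfl h4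
      _ ≤ ∑' X, g X := sum_le_tsum_of_injOn (g := g) hgs hg0 (S ×ˢ wd (n + 1))
          (fun p : List Lr × List Lr => p.1 ++ p.2) h5
  have h3 : HasSum (fun n : ℕ => (9 / 10 : ℝ) ^ (n + 1) * ∑' X, g X) (9 * ∑' X, g X) := by
    have h4 := (hasSum_geometric_of_lt_one (r := (9 / 10 : ℝ)) (by norm_num) (by norm_num)).mul_left
      (9 / 10)
    have h5 := h4.mul_right (∑' X, g X)
    have h6 : (9 / 10 : ℝ) * (1 - 9 / 10)⁻¹ = 9 := by norm_num
    rw [h6] at h5
    have h7 : (fun n : ℕ => (9 / 10 : ℝ) ^ (n + 1) * ∑' X, g X) =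
        fun n : ℕ => 9 / 10 * (9 / 10 : ℝ) ^ n * ∑' X, g X := by
      funext n
      rw [pow_succ]; ring
    rw [h7]
    exact h5
  have h4 : Summable fun n => ∑ A ∈ S, ‖W2 β q (n + 1) A []‖ := summable_sum fun A _ => h1 A
  exact (h4.tsum_le_tsum h2 h3.summable).trans h3.tsum_eq.le

theorem lgb {t f e : List Lr → ℂ} {β : Lr → ℂ} (h : LW t β) (he : Summable fun X => ‖e X‖)
    (hpt : ∀ A, ‖f A‖ ≤ ∑' n, ‖W2 β e (n + 1) A []‖ +
      ∑ j ∈ range A.length, ‖f (A.take j)‖ * ∑' n, ‖W2 β t (n + 1) (A.drop j) []‖) :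
    Summable fun X => ‖f X‖ := by
  set κ : List Lr → ℝ := fun π => ∑' n, ‖W2 β t (n + 1) π []‖ with hκ
  set ε : List Lr → ℝ := fun A => ∑' n, ‖W2 β e (n + 1) A []‖ with hε
  have hκ0 : ∀ π, 0 ≤ κ π := fun π => tsum_nonneg fun _ => norm_nonneg _
  set E : ℝ := ∑' X, ‖e X‖ with hE
  have hbr : ∀ R : ℕ, ∑ A ∈ (range (R + 1)).biUnion wd, ‖f A‖ ≤ 12 * E := by
    intro R
    set BR := (range (R + 1)).biUnion wd with hBR
    have hmem : ∀ w, w ∈ BR ↔ w.length ≤ R := by
      intro w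
      rw [hBR, Finset.mem_biUnion]
      constructor
      · rintro ⟨m, hm, hw⟩
        rw [mem_wd] at hw
        rw [mem_range] at hm
        omega
      · intro hw
        exact ⟨w.length, by rw [mem_range]; omega, mem_wd.2 rfl⟩
    have s1 : ∑ A ∈ BR, ε A ≤ 9 * E := by
      refine (lgb_sum h.β_le he BR 0 fun _ _ => Nat.zero_le _).trans ?_
      refine mul_le_mul_of_nonneg_left ?_ (by norm_num)
      have hle : ∀ X : List Lr, (if 0 + 1 ≤ X.length then ‖e X‖ else 0) ≤ ‖e X‖ := by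
        intro X
        split_ifs
        · exact le_rfl
        · exact norm_nonneg _
      refine Summable.tsum_le_tsum hle (Summable.of_nonneg_of_le (fun X => ?_) hle he) he
      split_ifs
      · exact norm_nonneg _
      · exact le_rfl
    have s2 : ∑ A ∈ BR.filter (fun A => A ≠ []), κ A ≤ 9 / 40 := by
      refine (lgb_sum h.β_le h.summ (BR.filter (fun A => A ≠ [])) 1 ?_).trans ?_
      · intro A hA
        rw [Finset.mem_filter] at hA
        exact List.length_pos_iff.2 hA.2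
      · have := h.long
        have h2 : (∑' X : List Lr, if 1 + 1 ≤ X.length then ‖t X‖ else 0) =
            ∑' X, (if 2 ≤ X.length then ‖t X‖ else 0) := rfl
        rw [h2]
        linarith
    have s3 : ∑ A ∈ BR, ∑ j ∈ range A.length, ‖f (A.take j)‖ * κ (A.drop j) ≤
        (∑ A ∈ BR, ‖f A‖) * ∑ A ∈ BR.filter (fun A => A ≠ []), κ A := by
      rw [Finset.sum_mul_sum, ← Finset.sum_product' BR (BR.filter fun A => A ≠ [])
        (fun A B => ‖f A‖ * κ B), Finset.sum_sigma' BR (fun A => range A.length)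
        (fun A j => ‖f (A.take j)‖ * κ (A.drop j))]
      set T := BR.sigma fun A => range A.length with hT
      have hinj : Set.InjOn (fun p : (_ : List Lr) × ℕ => (p.1.take p.2, p.1.drop p.2)) T := by
        rintro ⟨A, i⟩ hA ⟨B, j⟩ hB hAB
        rw [hT, Finset.mem_coe, Finset.mem_sigma, mem_range] at hA hB
        simp only [Prod.mk.injEq] at hAB
        have h1 : A = B := by
          rw [← List.take_append_drop i A, ← List.take_append_drop j B, hAB.1, hAB.2]
        subst h1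
        have h2 := congrArg List.length hAB.1
        rw [List.length_take, List.length_take] at h2
        have h3 := hA.2
        have h4 := hB.2
        simp only at h3 h4
        have : i = j := by omega
        rw [this]
      have h5 : ∑ p ∈ T, ‖f (p.1.take p.2)‖ * κ (p.1.drop p.2) =
          ∑ p ∈ T.image (fun p : (_ : List Lr) × ℕ => (p.1.take p.2, p.1.drop p.2)),
            ‖f p.1‖ * κ p.2 := by
        rw [Finset.sum_image hinj]
      rw [h5]
      refine Finset.sum_le_sum_of_subset_of_nonneg ?_ fun p _ _ =>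
        mul_nonneg (norm_nonneg _) (hκ0 _)
      intro p hp
      rw [Finset.mem_image] at hp
      obtain ⟨⟨A, i⟩, hA, rfl⟩ := hp
      rw [hT, Finset.mem_sigma, mem_range, hmem] at hA
      obtain ⟨hA1, hA2⟩ := hA
      simp only at hA1 hA2
      rw [Finset.mem_product, Finset.mem_filter, hmem, hmem]
      simp only [List.length_take, List.length_drop]
      refine ⟨by omega, by omega, ?_⟩
      intro h0
      have := congrArg List.length h0
      rw [List.length_drop, List.length_nil] at this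
      omega
    have s4 : ∑ A ∈ BR, ‖f A‖ ≤ ∑ A ∈ BR, (ε A +
        ∑ j ∈ range A.length, ‖f (A.take j)‖ * κ (A.drop j)) :=
      Finset.sum_le_sum fun A _ => hpt A
    rw [Finset.sum_add_distrib] at s4
    have s5 : 0 ≤ ∑ A ∈ BR, ‖f A‖ := Finset.sum_nonneg fun _ _ => norm_nonneg _
    have s6 := mul_le_mul_of_nonneg_left s2 s5
    have hE0 : 0 ≤ E := tsum_nonneg fun _ => norm_nonneg _
    linarith
  refine summable_of_sum_le (c := 12 * E) (fun _ => norm_nonneg _) fun u => ?_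
  obtain ⟨R, hR⟩ : ∃ R, ∀ w ∈ u, w.length ≤ R :=
    ⟨u.sup List.length, fun w hw => Finset.le_sup (f := List.length) hw⟩
  have hsub : u ⊆ (range (R + 1)).biUnion wd := by
    intro w hw
    rw [Finset.mem_biUnion]
    exact ⟨w.length, by rw [mem_range]; have := hR w hw; omega, mem_wd.2 rfl⟩
  exact (Finset.sum_le_sum_of_subset_of_nonneg (f := fun w => ‖f w‖) hsub
    fun _ _ _ => norm_nonneg _).trans (hbr R)

end Pool.Agent.Aug
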