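import Mathlib
import Pool.Agent.Lib_MP_11aa79_q2.LGA
import Pool.Agent.Lib_MP_11aa79_q2.LGB

/-! The gain theorem in the world of words. Proved from LGA and LGB. -/

namespace Pool.Agent.Aug

open Filter Topology Finset

theorem lgain {t f e : List Lr → ℂ} {β : Lr → ℂ} (h : LW t β)
    (hf : ∀ X, X ≠ [] → f X = e X + ∑ j ∈ range X.length, f (X.take j) * t (X.drop j))
    (he : Summable fun X => ‖e X‖)
    (hlim : ∀ A, f A ≠ 0 → Tendsto (fun n => W2 β f n A []) atTop (𝓝 0)) :
    Summable fun X => ‖f X‖ := by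
  refine lgb h he (fun A => ?_)
  by_cases h0 : f A = 0
  · rw [h0, norm_zero]
    exact add_nonneg (tsum_nonneg (fun _ => norm_nonneg _))
      (Finset.sum_nonneg (fun _ _ => mul_nonneg (norm_nonneg _)
        (tsum_nonneg (fun _ => norm_nonneg _))))
  · exact lga h hf he A (hlim A h0)

end Pool.Agent.Aug
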