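import Mathlib
import Pool.Agent.Lib_MP_11aa79_q2.CUT
import Pool.Agent.Lib_MP_11aa79_q2.PS

/-!
# PIECE YN (about 90 lines): `c * p` is absolutely summable off the elements ending positively.

`conv c p g = ∑' z, c z * p (z⁻¹ * g)`.

PROOF. For a finset `S` of elements `g` with `¬ EP g`:
`∑_{g ∈ S} ‖conv c p g‖ ≤ ∑_{g∈S} ∑'_z ‖c z‖ ‖p (z⁻¹ * g)‖ = ∑'_z ‖c z‖ ∑_{g ∈ S} ‖p (z⁻¹ * g)‖`
(`p` bounded, so everything is summable; `norm_tsum_le_tsum_norm`, `Summable.tsum_finsetSum`).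
CLAIM: `∑_{g∈S} ‖p (z⁻¹ * g)‖ ≤ 4` for every `z`. Then the total is `≤ 4 ∑' ‖c z‖` and
`summable_of_sum_le` concludes (for an arbitrary finset, first drop the elements with `EP g`, whose
terms are `0`).
Proof of the claim: a term is nonzero only if `k = z⁻¹ * g` is `1` or starts and ends positively.
Then `norm_mul_inv` for `g` (`¬ EP g`) and `k`: `g * k⁻¹ = z` and `z.norm = g.norm + k.norm`, i.e.
`z⁻¹ = k * g⁻¹` with norms adding up, so (`toWord_mul_of_norm`) `(z⁻¹).toWord = k.toWord ++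
(g⁻¹).toWord`, `k = mk ((z⁻¹).toWord.take k.norm)`. Hence `g ↦ k.norm` is injective on these `g`
and `‖p k‖ = ‖hat p ((z⁻¹).toWord.take k.norm)‖`, `k.norm ≤ |z⁻¹|`; the sum is at most
`∑_{j ≤ |z⁻¹|} ‖hat p ((z⁻¹).toWord.take j)‖ ≤ 4` by `ps` (`LP_of_PD`, `hG.lw`).
-/

namespace Pool.Agent.Aug

open Pool.Agent.Lib_MP_11aa79_an Finset
open scoped Classical

private lemma yn_hat (f : F2 → ℂ) (g : F2) : hat f g.toWord = f g := by
  unfold hat
  rw [if_pos FreeGroup.isReduced_toWord, FreeGroup.mk_toWord]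

/-- the reduced word of `k = z⁻¹ * g` is an initial segment of that of `z⁻¹` -/
private lemma yn_take {p : F2 → ℂ} {t : F2 → ℂ} (hp : PD t p) {z g : F2} (hg : ¬ EP g)
    (hne : p (z⁻¹ * g) ≠ 0) :
    (z⁻¹ * g).toWord = (z⁻¹).toWord.take (z⁻¹ * g).norm ∧
      (z⁻¹).norm = (z⁻¹ * g).norm + g.norm := by
  have hk : EP (z⁻¹ * g) ∨ z⁻¹ * g = 1 := by
    rcases hp.supp _ hne with h | h
    · exact Or.inr h
    · exact Or.inl h.2
  have h1 := norm_mul_inv hg hk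
  have h2 : g * (z⁻¹ * g)⁻¹ = z := by group
  rw [h2] at h1
  have h3 : (z⁻¹ * g) * g⁻¹ = z⁻¹ := by group
  have h4 : ((z⁻¹ * g) * g⁻¹).norm = (z⁻¹ * g).norm + (g⁻¹).norm := by
    rw [h3, FreeGroup.norm_inv_eq, FreeGroup.norm_inv_eq, h1, add_comm]
  have h5 := toWord_mul_of_norm h4
  rw [h3] at h5
  refine ⟨?_, ?_⟩
  · rw [h5]
    unfold FreeGroup.norm
    rw [List.take_left]
  · rw [FreeGroup.norm_inv_eq, h1, add_comm]

private lemma yn_claim {t p : F2 → ℂ} {β : Lr → ℂ} (hG : GD t β) (hp : PD t p) (z : F2)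
    (S : Finset F2) (hS : ∀ g ∈ S, ¬ EP g) : ∑ g ∈ S, ‖p (z⁻¹ * g)‖ ≤ 4 := by
  have h1 : ∑ g ∈ S, ‖p (z⁻¹ * g)‖ = ∑ g ∈ S.filter (fun g => p (z⁻¹ * g) ≠ 0),
      ‖p (z⁻¹ * g)‖ := by
    rw [Finset.sum_filter]
    refine Finset.sum_congr rfl (fun g _ => ?_)
    split_ifs with h
    · rfl
    · rw [not_not] at h
      rw [h, norm_zero]
  rw [h1]
  have h2 : ∀ g ∈ S.filter (fun g => p (z⁻¹ * g) ≠ 0), ‖p (z⁻¹ * g)‖ =
      ‖hat p ((z⁻¹).toWord.take (z⁻¹ * g).norm)‖ := by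
    intro g hg
    rw [Finset.mem_filter] at hg
    rw [← (yn_take hp (hS g hg.1) hg.2).1, yn_hat]
  rw [Finset.sum_congr rfl h2]
  have hinj : Set.InjOn (fun g : F2 => (z⁻¹ * g).norm)
      (S.filter (fun g => p (z⁻¹ * g) ≠ 0) : Finset F2) := by
    intro g hg g' hg' hgg
    rw [Finset.mem_coe, Finset.mem_filter] at hg hg'
    have e1 := (yn_take hp (hS g hg.1) hg.2).1
    have e2 := (yn_take hp (hS g' hg'.1) hg'.2).1
    have hgg' : (z⁻¹ * g).norm = (z⁻¹ * g').norm := hgg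
    rw [hgg', ← e2] at e1
    exact mul_left_cancel (FreeGroup.toWord_injective e1)
  have h3 := Finset.sum_image (f := fun j => ‖hat p ((z⁻¹).toWord.take j)‖) hinj
  rw [← h3]
  refine (Finset.sum_le_sum_of_subset_of_nonneg ?_ (fun _ _ _ => norm_nonneg _)).trans
    (ps hG.lw (LP_of_PD hG.supp hp) (z⁻¹).toWord)
  intro j hj
  rw [Finset.mem_image] at hj
  obtain ⟨g, hg, rfl⟩ := hj
  rw [Finset.mem_filter] at hg
  have h4 := (yn_take hp (hS g hg.1) hg.2).2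
  rw [Finset.mem_range]
  have h5 : (z⁻¹).toWord.length = (z⁻¹).norm := rfl
  rw [h5, h4]
  omega

theorem yn {t p : F2 → ℂ} {β : Lr → ℂ} (hG : GD t β) (hp : PD t p) {c : F2 → ℂ}
    (hc : Summable fun g => ‖c g‖) :
    Summable fun g => (if EP g then (0 : ℝ) else ‖conv c p g‖) := by
  obtain ⟨C, hC⟩ := hp.bdd
  have hs : ∀ g, Summable fun z => ‖c z‖ * ‖p (z⁻¹ * g)‖ := by
    intro g
    refine (hc.mul_right C).of_nonneg_of_le (fun z => by positivity) (fun z => ?_)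
    exact mul_le_mul_of_nonneg_left (hC _) (norm_nonneg _)
  have hle : ∀ g, ‖conv c p g‖ ≤ ∑' z, ‖c z‖ * ‖p (z⁻¹ * g)‖ := by
    intro g
    have h := norm_tsum_le_tsum_norm (f := fun z => c z * p (z⁻¹ * g))
      ((hs g).congr (fun z => by rw [norm_mul]))
    refine h.trans (le_of_eq (tsum_congr (fun z => norm_mul _ _)))
  refine summable_of_sum_le (c := (∑' z, ‖c z‖) * 4) (fun g => ?_) (fun u => ?_)
  · change (0 : ℝ) ≤ if EP g then (0 : ℝ) else ‖conv c p g‖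
    split_ifs
    · exact le_rfl
    · exact norm_nonneg _
  · have h1 : ∑ g ∈ u, (if EP g then (0 : ℝ) else ‖conv c p g‖) =
        ∑ g ∈ u.filter (fun g => ¬ EP g), ‖conv c p g‖ := by
      rw [Finset.sum_filter]
      refine Finset.sum_congr rfl (fun g _ => ?_)
      by_cases h : EP g
      · rw [if_pos h, if_neg (not_not.2 h)]
      · rw [if_neg h, if_pos h]
    rw [h1]
    calc ∑ g ∈ u.filter (fun g => ¬ EP g), ‖conv c p g‖ ≤
        ∑ g ∈ u.filter (fun g => ¬ EP g), ∑' z, ‖c z‖ * ‖p (z⁻¹ * g)‖ :=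
          Finset.sum_le_sum (fun g _ => hle g)
      _ = ∑' z, ∑ g ∈ u.filter (fun g => ¬ EP g), ‖c z‖ * ‖p (z⁻¹ * g)‖ :=
          (Summable.tsum_finsetSum (fun g _ => hs g)).symm
      _ ≤ ∑' z, ‖c z‖ * 4 := by
          refine Summable.tsum_le_tsum (fun z => ?_) (summable_sum (fun g _ => hs g))
            (hc.mul_right 4)
          rw [← Finset.mul_sum]
          exact mul_le_mul_of_nonneg_left (yn_claim hG hp z _ (fun g hg =>
            (Finset.mem_filter.1 hg).2)) (norm_nonneg _)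
      _ = (∑' z, ‖c z‖) * 4 := tsum_mul_right

end Pool.Agent.Aug
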