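import Mathlib
import Pool.Agent.Lib_MP_11aa79_q2.YN

/-!
# PIECE YD (about 110 lines): the recursion for `c * p` on the elements ending positively.

PROOF. `assoc_right`: `conv c p g = ∑'_z c z * p (z⁻¹ g)`, insert `hp.right (z⁻¹ * g)`:
`= ∑'_z c z * del (z⁻¹ g) + ∑'_z ∑'_k c z * p (z⁻¹ g k⁻¹) * t k`; the first sum is `c g`; the
double sum is absolutely convergent (`‖c z‖ * C * ‖t k‖`), exchange the sums.
`yd`: let `ν g = if EP g then 0 else conv c p g` (summable by `yn`) and
`e g = if EP g then c g + ∑'_k ν (g * k⁻¹) * t k else 0`.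
Summability of `e`: `∑_k ν (g k⁻¹) t k = conv ν t g` (substitute `k = h⁻¹ g`), use `summable_conv`
(helper3's `Conv.lean`; `hG.summ`) and `hc`.
Identity for `EP g`: `assoc_right` and `conv c p h = ν h + (if EP h then conv c p h else 0)` for
`h = g k⁻¹` (split the `tsum`; both parts are bounded times `‖t k‖`).
Identity for `¬ EP g`: `e g = 0` and every term of the sum vanishes: `t k ≠ 0` gives
`SP k ∧ EP k` and then `EP (g k⁻¹)` would give `EP g` (`EP_of_mul_inv`).
-/

namespace Pool.Agent.Aug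

open Pool.Agent.Lib_MP_11aa79_an Finset
open scoped Classical

/-- `c * p` is bounded -/
theorem conv_bdd {p c : F2 → ℂ} {C : ℝ} (hp : ∀ g, ‖p g‖ ≤ C) (hc : Summable fun g => ‖c g‖)
    (g : F2) : ‖conv c p g‖ ≤ (∑' z, ‖c z‖) * C := by
  refine tsum_of_norm_bounded (hc.hasSum.mul_right C) (fun z => ?_)
  rw [norm_mul]
  exact mul_le_mul_of_nonneg_left (hp _) (norm_nonneg _)

theorem assoc_right {t p : F2 → ℂ} (ht : Summable fun g => ‖t g‖) (hp : PD t p) {c : F2 → ℂ}
    (hc : Summable fun g => ‖c g‖) (g : F2) :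
    conv c p g = c g + ∑' k, conv c p (g * k⁻¹) * t k := by
  obtain ⟨C, hC⟩ := hp.bdd
  have hC0 : 0 ≤ C := (norm_nonneg _).trans (hC 1)
  have hpair : Summable (Function.uncurry
      (fun z k : F2 => c z * (p (z⁻¹ * g * k⁻¹) * t k))) := by
    have h : Summable fun q : F2 × F2 => ‖c q.1‖ * (C * ‖t q.2‖) :=
      Summable.mul_of_nonneg hc (ht.mul_left C) (fun _ => norm_nonneg _)
        (fun _ => mul_nonneg hC0 (norm_nonneg _))
    refine Summable.of_norm_bounded h (fun q => ?_)
    rcases q with ⟨z, k⟩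
    change ‖c z * (p (z⁻¹ * g * k⁻¹) * t k)‖ ≤ ‖c z‖ * (C * ‖t k‖)
    rw [norm_mul, norm_mul]
    exact mul_le_mul_of_nonneg_left (mul_le_mul_of_nonneg_right (hC _) (norm_nonneg _))
      (norm_nonneg _)
  have h1 : HasSum (fun z => c z * del (z⁻¹ * g)) (c g) := by
    have h := hasSum_single (f := fun z => c z * del (z⁻¹ * g)) g (fun z hz => by
      unfold del
      rw [if_neg (fun h => hz (inv_mul_eq_one.1 h)), mul_zero])
    have h2 : c g * del (g⁻¹ * g) = c g := by
      unfold del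
      rw [if_pos (inv_mul_cancel g), mul_one]
    rw [← h2]
    exact h
  have h2 : ∀ z, c z * p (z⁻¹ * g) =
      c z * del (z⁻¹ * g) + ∑' k, c z * (p (z⁻¹ * g * k⁻¹) * t k) := by
    intro z
    rw [tsum_mul_left, ← mul_add, ← hp.right (z⁻¹ * g)]
  have h3 : Summable fun z => ∑' k, c z * (p (z⁻¹ * g * k⁻¹) * t k) := hpair.prod
  have h4 : conv c p g = ∑' z, (c z * del (z⁻¹ * g) +
      ∑' k, c z * (p (z⁻¹ * g * k⁻¹) * t k)) := tsum_congr h2
  rw [h4, h1.summable.tsum_add h3, h1.tsum_eq, ← hpair.tsum_comm]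
  congr 1
  refine tsum_congr (fun k => ?_)
  unfold conv
  rw [← tsum_mul_right]
  refine tsum_congr (fun z => ?_)
  rw [mul_assoc z⁻¹ g k⁻¹, mul_assoc]

private lemma yd_conv (ν t : F2 → ℂ) (g : F2) : ∑' k, ν (g * k⁻¹) * t k = conv ν t g := by
  unfold conv
  rw [← ((Equiv.inv F2).trans (Equiv.mulLeft g)).tsum_eq (fun h => ν h * t (h⁻¹ * g))]
  refine tsum_congr (fun k => ?_)
  simp

theorem yd {t p : F2 → ℂ} {β : Lr → ℂ} (hG : GD t β) (hp : PD t p) {c : F2 → ℂ}
    (hc : Summable fun g => ‖c g‖) :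
    ∃ e : F2 → ℂ, (Summable fun g => ‖e g‖) ∧
      ∀ g, (if EP g then conv c p g else 0) =
        e g + ∑' k, (if EP (g * k⁻¹) then conv c p (g * k⁻¹) else 0) * t k := by
  obtain ⟨C, hC⟩ := hp.bdd
  have hν : Summable fun g => ‖(if EP g then 0 else conv c p g : ℂ)‖ := by
    refine (yn hG hp hc).congr (fun g => ?_)
    split_ifs <;> simp
  have hb : ∀ g, ‖conv c p g‖ ≤ (∑' z, ‖c z‖) * C := conv_bdd hC hc
  have hM : 0 ≤ (∑' z, ‖c z‖) * C := (norm_nonneg _).trans (hb 1)
  have hs1 : ∀ g, Summable fun k => (if EP (g * k⁻¹) then 0 else conv c p (g * k⁻¹) : ℂ) * t k := by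
    intro g
    refine Summable.of_norm_bounded (hG.summ.mul_left ((∑' z, ‖c z‖) * C)) (fun k => ?_)
    rw [norm_mul]
    refine mul_le_mul_of_nonneg_right ?_ (norm_nonneg _)
    split_ifs
    · rw [norm_zero]; exact hM
    · exact hb _
  have hs2 : ∀ g, Summable fun k => (if EP (g * k⁻¹) then conv c p (g * k⁻¹) else 0 : ℂ) * t k := by
    intro g
    refine Summable.of_norm_bounded (hG.summ.mul_left ((∑' z, ‖c z‖) * C)) (fun k => ?_)
    rw [norm_mul]
    refine mul_le_mul_of_nonneg_right ?_ (norm_nonneg _)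
    split_ifs
    · exact hb _
    · rw [norm_zero]; exact hM
  refine ⟨fun g => if EP g then c g + ∑' k,
    (if EP (g * k⁻¹) then 0 else conv c p (g * k⁻¹) : ℂ) * t k else 0, ?_, fun g => ?_⟩
  · have h1 := summable_conv hν hG.summ
    refine (hc.add h1).of_nonneg_of_le (fun _ => norm_nonneg _) (fun g => ?_)
    beta_reduce
    split_ifs
    · rw [yd_conv (fun h => (if EP h then 0 else conv c p h : ℂ)) t g]
      exact norm_add_le _ _
    · rw [norm_zero]
      positivity
  · by_cases h : EP g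
    · simp only [if_pos h]
      rw [add_assoc, ← (hs1 g).tsum_add (hs2 g)]
      rw [assoc_right hG.summ hp hc g]
      congr 1
      refine tsum_congr (fun k => ?_)
      split_ifs
      · rw [zero_mul, zero_add]
      · rw [zero_mul, add_zero]
    · simp only [if_neg h]
      rw [zero_add]
      have h0 : ∀ k, (if EP (g * k⁻¹) then conv c p (g * k⁻¹) else 0 : ℂ) * t k = 0 := by
        intro k
        by_cases hk : t k = 0
        · rw [hk, mul_zero]
        · rw [if_neg (fun hE => h (EP_of_mul_inv (hG.supp k hk) (Or.inl hE)).1), zero_mul]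
      simp only [h0, tsum_zero]

end Pool.Agent.Aug
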