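import Mathlib
import Pool.Agent.Lib_MP_11aa79_q2.YD
import Pool.Agent.Lib_MP_11aa79_q2.HAT
import Pool.Agent.Lib_MP_11aa79_q2.LG

/-!
# PIECE GG (about 70 lines): the gain theorem in the group.

PROOF. Let `f g = if EP g then conv c p g else 0` and `e` from `yd`. By `hat_rec`
(`hG.supp`, `f g ≠ 0 → EP g`), `hat f X = hat e X + ∑_j hat f (X.take j) * hat t (X.drop j)` for all
`X`; `hat e` is summable (`summable_hat`). To apply `lgain` (with `hG.lw`) let `hat f A ≠ 0`: `A` is
reduced and `EP (mk A)`. For a word `w` of length `n` with nonzero weight (`pos_of_bw`), `w` is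
positive, so `A ++ w` is reduced (`red_append`, `red_pos`, `pos_mk`), and
`mk (A ++ w) = mk A * mk w` ends positively (`EP_mul`, or `w = []`), so
`hat f (A ++ w ++ []) = conv c p (mk A * mk w)`; by `WS_congr'`,
`W2 β (hat f) n A [] = WS β n (fun w => conv c p (mk A * mk w)) → 0` by `hlim`.
So `hat f`, hence `f` (`summable_hat`) is summable, and with `yn` also `conv c p`
(`‖conv c p g‖ = ‖f g‖ + (if EP g then 0 else ‖conv c p g‖)`).
-/

namespace Pool.Agent.Aug

open Pool.Agent.Lib_MP_11aa79_an Finset Filter Topology
open scoped Classical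

theorem gg {t p : F2 → ℂ} {β : Lr → ℂ} (hG : GD t β) (hp : PD t p) {c : F2 → ℂ}
    (hc : Summable fun g => ‖c g‖)
    (hlim : ∀ g, Tendsto (fun n => WS β n (fun w => conv c p (g * FreeGroup.mk w))) atTop (𝓝 0)) :
    Summable fun g => ‖conv c p g‖ := by
  obtain ⟨e, he, hfe⟩ := yd hG hp hc
  set f : F2 → ℂ := fun g => if EP g then conv c p g else 0 with hf
  have hfE : ∀ g, f g ≠ 0 → g = 1 ∨ EP g := by
    intro g hg
    right
    by_contra hE
    apply hg
    simp only [hf]
    rw [if_neg hE]
  have hrec := hat_rec (e := e) hG.supp hfE hfe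
  have hsum : Summable fun X => ‖hat f X‖ := by
    refine lgain hG.lw (fun X _ => hrec X) (summable_hat.2 he) (fun A hA => ?_)
    have hred : FreeGroup.IsReduced A := by
      by_contra hr
      apply hA
      unfold hat
      rw [if_neg hr]
    have hfA : f (FreeGroup.mk A) ≠ 0 := by
      unfold hat at hA
      rwa [if_pos hred] at hA
    have hEA : EP (FreeGroup.mk A) := by
      by_contra hE
      apply hfA
      simp only [hf]
      rw [if_neg hE]
    refine (hlim (FreeGroup.mk A)).congr (fun n => ?_)
    unfold W2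
    refine WS_congr' β n (fun w _ h0 => ?_)
    have hpos := pos_of_bw hG.β_neg h0
    have hwred : FreeGroup.IsReduced w := red_pos hpos
    rw [List.append_nil]
    have hmk : FreeGroup.mk (A ++ w) = (FreeGroup.mk A : F2) * FreeGroup.mk w :=
      FreeGroup.mul_mk.symm
    have hAw : FreeGroup.IsReduced (A ++ w) := by
      refine red_append hred hwred (Or.inr hEA) ?_
      by_cases hw : w = []
      · left; exact hw
      · right; exact (pos_mk hpos hw).1
    have hE : EP ((FreeGroup.mk A : F2) * FreeGroup.mk w) := by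
      by_cases hw : w = []
      · rw [hw, ← FreeGroup.one_eq_mk, mul_one]; exact hEA
      · exact EP_mul (Or.inl hEA) (pos_mk hpos hw)
    unfold hat
    rw [if_pos hAw, hmk]
    simp only [hf]
    rw [if_pos hE]
  have hsf : Summable fun g => ‖f g‖ := summable_hat.1 hsum
  refine (hsf.add (yn hG hp hc)).congr (fun g => ?_)
  simp only [hf]
  split_ifs <;> simp

end Pool.Agent.Aug
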