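import Mathlib
import Pool.Agent.Lib_MP_11aa79_q2.RED2
import Pool.Agent.Lib_MP_11aa79_q2.DOM

/-!
# PIECE REV (about 150 lines): word reversal.

`rv` is the anti-automorphism of the free group fixing the generators: `rv (mk w) = mk w.reverse`.

PROOFS. `rv_mul`: `lift` is a homomorphism, `(a b)⁻¹ = b⁻¹ a⁻¹`. `rv_mk`: induction on `w`
(`rv (lt s) = lt s`, `rv (mk (s :: w)) = rv (mk w) * rv (lt s)`). `rv_rv`: every element is `mk` of
its word. `toWord_rv`: the reverse of a reduced word is reduced (`List.isChain_reverse`, the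
relation is symmetric), so `(rv g).toWord = g.toWord.reverse`. `SP_rv`, `EP_rv`: head/last of the
reverse (`EP_iff`). `hat_rv`: `X` reduced iff `X.reverse` reduced.
`GD_rv`: `lw.summ`, `lw.long`, `lw.total`: reindex by the bijection `List.reverse` of words
(`List.reverse_involutive.toPerm`), `bw_reverse`, `List.length_reverse`;
`lw.one`: `[s].reverse = [s]`.
`PD_rv`: `right` for `p ∘ rv` follows from `left` for `p`:
`p (rv g) = del (rv g) + ∑'_k t k * p (k⁻¹ * rv g)`, substitute `k = rv k'` (bijection), and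
`(rv k')⁻¹ * rv g = rv (g * k'⁻¹)`. `left` for `p ∘ rv` from `right` for `p`.
`conv_rv`: `conv (b ∘ rv) (p ∘ rv) g = ∑'_z b (rv z) * p (rv (z⁻¹ * g))
= ∑'_z b (rv z) * p (rv g * (rv z)⁻¹) = ∑'_z b z * p (rv g * z⁻¹) = conv p b (rv g)` (`conv_eq'`).
-/

namespace Pool.Agent.Aug

open Pool.Agent.Lib_MP_11aa79_an Finset Filter Topology
open scoped Classical

/-- reversal of words -/
noncomputable def rv (g : F2) : F2 :=
  (FreeGroup.lift (fun i : Fin 2 => (FreeGroup.of i)⁻¹) g)⁻¹

theorem rv_mul (g h : F2) : rv (g * h) = rv h * rv g := by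
  unfold rv
  rw [map_mul, mul_inv_rev]

theorem rv_one : rv 1 = 1 := by
  unfold rv
  rw [map_one, inv_one]

theorem rv_inv (g : F2) : rv g⁻¹ = (rv g)⁻¹ := by
  unfold rv
  rw [map_inv]

theorem rev_lt (s : Lr) : rv (FreeGroup.mk [s]) = FreeGroup.mk [s] := by
  rcases s with ⟨i, b⟩
  unfold rv
  cases b
  · simp [FreeGroup.of, FreeGroup.invRev]
  · simp [FreeGroup.of, FreeGroup.invRev]

theorem rv_mk (w : List Lr) : rv (FreeGroup.mk w) = FreeGroup.mk w.reverse := by
  induction w with
  | nil =>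
    have h : (FreeGroup.mk ([] : List Lr)) = 1 := rfl
    rw [List.reverse_nil, h, rv_one]
  | cons s w ih =>
    have h : FreeGroup.mk (s :: w) = FreeGroup.mk [s] * FreeGroup.mk w := by
      rw [FreeGroup.mul_mk]
      rfl
    rw [h, rv_mul, ih, rev_lt, FreeGroup.mul_mk, List.reverse_cons]

theorem rv_rv (g : F2) : rv (rv g) = g := by
  have h : g = FreeGroup.mk g.toWord := FreeGroup.mk_toWord.symm
  rw [h, rv_mk, rv_mk, List.reverse_reverse]

/-- reversal as a bijection -/
noncomputable def rvE : F2 ≃ F2 := ⟨rv, rv, rv_rv, rv_rv⟩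

theorem rev_red {X : List Lr} (h : FreeGroup.IsReduced X) : FreeGroup.IsReduced X.reverse := by
  unfold FreeGroup.IsReduced at h ⊢
  rw [List.isChain_reverse]
  exact h.imp (fun a b hab hba => (hab hba.symm).symm)

theorem rev_red_iff (X : List Lr) : FreeGroup.IsReduced X.reverse ↔ FreeGroup.IsReduced X := by
  refine ⟨fun h => ?_, rev_red⟩
  have := rev_red h
  rwa [List.reverse_reverse] at this

theorem rev_toWord (g : F2) : (rv g).toWord = g.toWord.reverse := by
  have h : rv g = FreeGroup.mk g.toWord.reverse := by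
    rw [← rv_mk, FreeGroup.mk_toWord]
  rw [h]
  exact toWord_mk_of_red (rev_red FreeGroup.isReduced_toWord)

theorem SP_rv (g : F2) : SP (rv g) ↔ EP g := by
  rw [SP_iff, EP_iff, rev_toWord]
  simp only [List.head?_reverse]

theorem EP_rv (g : F2) : EP (rv g) ↔ SP g := by
  rw [SP_iff, EP_iff, rev_toWord]
  simp only [List.getLast?_reverse]

theorem hat_rv (f : F2 → ℂ) (X : List Lr) : hat (fun g => f (rv g)) X = hat f X.reverse := by
  unfold hat
  by_cases h : FreeGroup.IsReduced X
  · rw [if_pos h, if_pos (rev_red h)]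
    change f (rv (FreeGroup.mk X)) = _
    rw [rv_mk]
  · rw [if_neg h, if_neg (fun h' => h ((rev_red_iff X).1 h'))]

/-- reversal of words as a bijection -/
def revP : List Lr ≃ List Lr := ⟨List.reverse, List.reverse, List.reverse_reverse, List.reverse_reverse⟩

theorem GD_rv {t : F2 → ℂ} {β : Lr → ℂ} (hG : GD t β) : GD (fun g => t (rv g)) β := by
  refine ⟨fun g hg => ?_, ?_, ?_, hG.β_neg⟩
  · obtain ⟨h1, h2⟩ := hG.supp (rv g) hg
    exact ⟨(EP_rv g).1 h2, (SP_rv g).1 h1⟩
  · exact (rvE.summable_iff (f := fun g => ‖t g‖)).2 hG.summ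
  · have hh : hat (fun g => t (rv g)) = fun X => hat t X.reverse := by
      funext X
      exact hat_rv t X
    rw [hh]
    refine ⟨?_, ?_, ?_, ?_, hG.lw.β_le, ?_⟩
    · rw [List.reverse_nil]
      exact hG.lw.t_nil
    · exact (revP.summable_iff (f := fun X => ‖hat t X‖)).2 hG.lw.summ
    · intro s
      exact hG.lw.one s
    · have h := revP.tsum_eq (fun X => if 2 ≤ X.length then ‖hat t X‖ else 0)
      have h2 := hG.lw.long
      rw [← h] at h2
      refine le_of_eq_of_le ?_ h2
      refine tsum_congr fun X => ?_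
      have h3 : (revP X).length = X.length := List.length_reverse
      rw [h3]
      rfl
    · have h := revP.tsum_eq (fun X => bw β X * hat t X)
      rw [hG.lw.total] at h
      rw [← h]
      refine tsum_congr fun X => ?_
      have h3 : bw β (revP X) = bw β X := bw_reverse β X
      rw [h3]
      rfl

theorem rev_del (g : F2) : del (rv g) = del g := by
  unfold del
  by_cases h : g = 1
  · rw [h, rv_one]
  · rw [if_neg h, if_neg]
    intro h'
    apply h
    rw [← rv_rv g, h', rv_one]

theorem PD_rv {t p : F2 → ℂ} (hp : PD t p) : PD (fun g => t (rv g)) (fun g => p (rv g)) := by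
  refine ⟨fun g hg => ?_, ?_, fun g => ?_, fun g => ?_⟩
  · rcases hp.supp (rv g) hg with h | ⟨h1, h2⟩
    · left
      rw [← rv_rv g, h, rv_one]
    · right
      exact ⟨(EP_rv g).1 h2, (SP_rv g).1 h1⟩
  · obtain ⟨C, hC⟩ := hp.bdd
    exact ⟨C, fun g => hC (rv g)⟩
  · have h := hp.left (rv g)
    rw [rev_del] at h
    rw [h, ← rvE.tsum_eq (fun k => t k * p (k⁻¹ * rv g))]
    congr 1
    refine tsum_congr fun k => ?_
    change t (rv k) * p ((rv k)⁻¹ * rv g) = p (rv (g * k⁻¹)) * t (rv k)
    rw [rv_mul, rv_inv, mul_comm]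
  · have h := hp.right (rv g)
    rw [rev_del] at h
    rw [h, ← rvE.tsum_eq (fun k => p (rv g * k⁻¹) * t k)]
    congr 1
    refine tsum_congr fun k => ?_
    change p (rv g * (rv k)⁻¹) * t (rv k) = t (rv k) * p (rv (k⁻¹ * g))
    rw [rv_mul, rv_inv, mul_comm]

theorem conv_rv (b p : F2 → ℂ) (g : F2) :
    conv (fun g => b (rv g)) (fun g => p (rv g)) g = conv p b (rv g) := by
  rw [conv_eq' p b (rv g), ← rvE.tsum_eq (fun z => b z * p (rv g * z⁻¹))]
  unfold conv
  refine tsum_congr fun z => ?_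
  change b (rv z) * p (rv (z⁻¹ * g)) = b (rv z) * p (rv g * (rv z)⁻¹)
  rw [rv_mul, rv_inv]

end Pool.Agent.Aug
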