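import Mathlib
import Pool.Agent.Lib_MP_11aa79_q2.GG
import Pool.Agent.Lib_MP_11aa79_q2.DICH
import Pool.Agent.Lib_MP_11aa79_q2.REV

/-!
# PIECE CORE (about 110 lines): no factorisation.

PROOF of `assoc_left`: `conv (conv c p) b x = ∑'_y conv c p y * b (y⁻¹ x)`; substitute
`y = x z⁻¹` (`conv_eq'`): `= ∑'_z b z * ∑'_u c u * p (u⁻¹ x z⁻¹)` and the double sum is absolutely
convergent (`‖c u‖ ‖b z‖ C`), so it is the sum over the pairs `(u, z)`.
PROOF of `assoc_right'`: the same for `conv c (conv p b) x = ∑'_u c u * conv p b (u⁻¹ x)`,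
`conv p b y = ∑'_z b z * p (y z⁻¹)` (`conv_eq'`).

PROOF of `core`. `dich`.
First alternative: `gg` gives `y = conv c p` summable; `conv y b = del` (`assoc_left`, `hcpb`);
`tsum_conv` gives `(∑' y) * (∑' b) = ∑' del = 1`, contradiction with `hb0`.
Second alternative: apply `gg` to `t ∘ rv`, `p ∘ rv` and `b ∘ rv` in place of `c` (`GD_rv`, `PD_rv`;
summability of `b ∘ rv` by the bijection `rvE`); its hypothesis:
`conv (b ∘ rv) (p ∘ rv) (g * mk w) = conv p b (rv (g * mk w)) = conv p b (mk w.reverse * rv g)`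
(`conv_rv`, `rv_mul`, `rv_mk`) and `WS_reverse` turns the sum into
`WS β n (fun w => conv p b (mk w * rv g)) → 0`. So `z = conv p b` (composed with the bijection `rv`)
is summable, `conv c z = del` (`assoc_right'`, `hcpb`), `tsum_conv`: `(∑' c) * (∑' z) = 1`,
contradiction with `hc0`.
-/

namespace Pool.Agent.Aug

open Pool.Agent.Lib_MP_11aa79_an Finset Filter Topology
open scoped Classical

private theorem core_summable_pair {c b p : F2 → ℂ} {C : ℝ} (hp : ∀ g, ‖p g‖ ≤ C)
    (hb : Summable fun g => ‖b g‖) (hc : Summable fun g => ‖c g‖) (x : F2) :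
    Summable fun q : F2 × F2 => c q.1 * b q.2 * p (q.1⁻¹ * x * q.2⁻¹) := by
  have h : Summable fun q : F2 × F2 => ‖c q.1‖ * ‖b q.2‖ :=
    Summable.mul_of_nonneg hc hb (fun _ => norm_nonneg _) (fun _ => norm_nonneg _)
  refine Summable.of_norm_bounded (g := fun q : F2 × F2 => ‖c q.1‖ * ‖b q.2‖ * C)
    (h.mul_right C) (fun q => ?_)
  rw [norm_mul, norm_mul]
  exact mul_le_mul_of_nonneg_left (hp _) (by positivity)

theorem assoc_left {p b c : F2 → ℂ} {C : ℝ} (hp : ∀ g, ‖p g‖ ≤ C)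
    (hb : Summable fun g => ‖b g‖) (hc : Summable fun g => ‖c g‖) (x : F2) :
    conv (conv c p) b x = ∑' q : F2 × F2, c q.1 * b q.2 * p (q.1⁻¹ * x * q.2⁻¹) := by
  have hS := core_summable_pair hp hb hc x
  have hS' : Summable fun q : F2 × F2 => c q.2 * b q.1 * p (q.2⁻¹ * x * q.1⁻¹) :=
    (Equiv.prodComm F2 F2).summable_iff.2 hS
  have h1 : ∑' q : F2 × F2, c q.1 * b q.2 * p (q.1⁻¹ * x * q.2⁻¹)
      = ∑' q : F2 × F2, c q.2 * b q.1 * p (q.2⁻¹ * x * q.1⁻¹) :=
    ((Equiv.prodComm F2 F2).tsum_eq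
      (fun q : F2 × F2 => c q.1 * b q.2 * p (q.1⁻¹ * x * q.2⁻¹))).symm
  rw [h1, hS'.tsum_prod, conv_eq']
  refine tsum_congr (fun z => ?_)
  unfold conv
  rw [← tsum_mul_left]
  refine tsum_congr (fun u => ?_)
  rw [← mul_assoc, ← mul_assoc, mul_comm (b z)]

theorem assoc_right' {p b c : F2 → ℂ} {C : ℝ} (hp : ∀ g, ‖p g‖ ≤ C)
    (hb : Summable fun g => ‖b g‖) (hc : Summable fun g => ‖c g‖) (x : F2) :
    conv c (conv p b) x = ∑' q : F2 × F2, c q.1 * b q.2 * p (q.1⁻¹ * x * q.2⁻¹) := by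
  have hS := core_summable_pair hp hb hc x
  rw [hS.tsum_prod]
  have h1 : conv c (conv p b) x = ∑' u, c u * conv p b (u⁻¹ * x) := rfl
  rw [h1]
  refine tsum_congr (fun u => ?_)
  rw [conv_eq', ← tsum_mul_left]
  refine tsum_congr (fun z => ?_)
  rw [← mul_assoc]

private theorem core_tsum_del : ∑' g, del g = 1 := by
  rw [tsum_eq_single 1 (fun g hg => by unfold del; rw [if_neg hg])]
  unfold del
  rw [if_pos rfl]

theorem core {t p : F2 → ℂ} {β : Lr → ℂ} (hG : GD t β) (hp : PD t p) {b c : F2 → ℂ}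
    (hb : Summable fun g => ‖b g‖) (hc : Summable fun g => ‖c g‖)
    (hb0 : ∑' g, b g = 0) (hc0 : ∑' g, c g = 0)
    (hcpb : ∀ g, ∑' q : F2 × F2, c q.1 * b q.2 * p (q.1⁻¹ * g * q.2⁻¹) = del g) : False := by
  obtain ⟨C, hC⟩ := hp.bdd
  rcases dich hG hp hb hc hcpb with h1 | h1
  · have hy := gg hG hp hc h1
    have h2 : ∀ x, conv (conv c p) b x = del x := fun x => by
      rw [assoc_left hC hb hc x, hcpb x]
    have h3 := tsum_conv hy hb
    rw [hb0, mul_zero, tsum_congr h2, core_tsum_del] at h3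
    exact one_ne_zero h3
  · have hb' : Summable fun g => ‖b (rv g)‖ := rvE.summable_iff.2 hb
    have hlim : ∀ g, Tendsto (fun n => WS β n (fun w =>
        conv (fun g => b (rv g)) (fun g => p (rv g)) (g * FreeGroup.mk w))) atTop (𝓝 0) := by
      intro g
      refine (h1 (rv g)).congr (fun n => ?_)
      rw [← WS_reverse β n (fun w => conv p b (FreeGroup.mk w * rv g))]
      refine congrArg _ (funext fun w => ?_)
      rw [conv_rv, rv_mul, rv_mk]
    have hz' := gg (GD_rv hG) (PD_rv hp) hb' hlim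
    have hz : Summable fun g => ‖conv p b g‖ := by
      refine rvE.summable_iff.1 (hz'.congr fun g => ?_)
      rw [conv_rv]
      rfl
    have h2 : ∀ x, conv c (conv p b) x = del x := fun x => by
      rw [assoc_right' hC hb hc x, hcpb x]
    have h3 := tsum_conv hc hz
    rw [hc0, zero_mul, tsum_congr h2, core_tsum_del] at h3
    exact one_ne_zero h3

end Pool.Agent.Aug
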