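import Mathlib
import Pool.Agent.Lib_MP_11aa79_q2.A1E
import Pool.Agent.Lib_MP_11aa79_q2.T0F

/-! Restriction operators, the derivative `DD` and the map `Psi`. -/

namespace Pool.Agent.Aug

open Pool.Agent.Lib_MP_11aa79_an
open scoped Classical

theorem summable_ite (S : F2 → Prop) (f : A1) :
    Summable fun g => ‖(if S g then f.fn g else 0 : ℂ)‖ := by
  refine Summable.of_nonneg_of_le (fun _ => norm_nonneg _) (fun g => ?_) (a1_summable f)
  split_ifs
  · exact le_refl _
  · simp

/-- restriction to a set -/
noncomputable def res (S : F2 → Prop) : A1 →L[ℂ] A1 :=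
  LinearMap.mkContinuous
    { toFun := fun f => A1.of (fun g => if S g then f.fn g else 0) (summable_ite S f)
      map_add' := fun f h => by
        apply a1_ext
        funext g
        change (if S g then f.fn g + h.fn g else 0) =
          (if S g then f.fn g else 0) + (if S g then h.fn g else 0)
        split_ifs <;> simp
      map_smul' := fun c f => by
        apply a1_ext
        funext g
        change (if S g then c * f.fn g else 0) = c * (if S g then f.fn g else 0)
        split_ifs <;> simp } 1 (by
    intro f
    rw [one_mul, a1_norm, a1_norm]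
    refine Summable.tsum_le_tsum (fun g => ?_) (summable_ite S f) (a1_summable f)
    change ‖(if S g then f.fn g else 0 : ℂ)‖ ≤ _
    split_ifs
    · exact le_refl _
    · simp)

theorem fn_res (S : F2 → Prop) (f : A1) (g : F2) :
    (res S f).fn g = if S g then f.fn g else 0 := rfl

theorem norm_res_le (S : F2 → Prop) (f : A1) : ‖res S f‖ ≤ ‖f‖ := by
  rw [a1_norm, a1_norm]
  refine Summable.tsum_le_tsum (fun g => ?_) (a1_summable _) (a1_summable f)
  rw [fn_res]
  split_ifs
  · exact le_refl _
  · simp

/-- the three supports -/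
def R1 (g : F2) : Prop := ¬ EP g
def R2 (g : F2) : Prop := EP g ∧ ¬ SP g
def R3 (g : F2) : Prop := SP g ∧ EP g

/-- `T0` as an element of the algebra -/
noncomputable def tt : A1 := A1.of T0 T0_summable

/-- the centre of the ball -/
noncomputable def a0 : A1 := 1 - tt

/-- the derivative at zero -/
noncomputable def DD : A1 × A1 × A1 →L[ℂ] A1 :=
  ((ContinuousLinearMap.mul ℂ A1).flip a0).comp
      ((res R1).comp (ContinuousLinearMap.fst ℂ A1 (A1 × A1))) +
    (((ContinuousLinearMap.mul ℂ A1) a0).comp
      ((res R2).comp ((ContinuousLinearMap.fst ℂ A1 A1).comp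
        (ContinuousLinearMap.snd ℂ A1 (A1 × A1)))) +
    (res R3).comp ((ContinuousLinearMap.snd ℂ A1 A1).comp
        (ContinuousLinearMap.snd ℂ A1 (A1 × A1))))

theorem DD_apply (v : A1 × A1 × A1) :
    DD v = res R1 v.1 * a0 + (a0 * res R2 v.2.1 + res R3 v.2.2) := rfl

/-- the nonlinear map -/
noncomputable def Psi (v : A1 × A1 × A1) : A1 :=
  (1 + res R1 v.1) * (a0 + res R3 v.2.2) * (1 + res R2 v.2.1)

end Pool.Agent.Aug
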