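import Mathlib
import Pool.Agent.Lib_MP_11aa79_q2.RES
import Pool.Agent.Lib_MP_11aa79_q2.RED2

/-!
# PIECE DREC (about 140 lines): preimages of the point masses under the derivative.

`α 0 = 1/2 + 3i/8`, `α 1 = 1/2 - 3i/8`, `‖α i‖ = 5/8` (`norm_al1`, `norm_al2`), norm of a pair/triple
= maximum.

PROOFS. `pm_a0`: `pm g * a0 = pm g - α 0 • pm (g x) - α 1 • pm (g y)` (`tt = α 0 • pm x + α 1 • pm y`,
`pm_mul`), `a0_pm` similarly.
`dd_r3`: for `R3 g` (`SP g ∧ EP g`) take `v = (0, 0, pm g)`: `res R3 (pm g) = pm g`.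
`dd_r2`: for `EP h`: there is `v` with `‖v‖ ≤ 5`, `DD v = pm h`. Strong induction on `h.norm`. If
`SP h`: `dd_r3`. Otherwise `h ≠ 1` and `letter_cases'` gives `i` with `(lt (i,true) * h).norm <
h.norm` and `SP (lt (i+1,true) * h)`. Both `lt (i,true) * h` and `lt (i+1,true) * h` end positively
(`EP_lt_mul`). By `a0_pm`:
`pm h = a0 * pm h + α_i • pm (lt (i,true) * h) + α_{i+1} • pm (lt (i+1,true) * h)`,
`a0 * pm h = DD (0, pm h, 0)` (`R2 h`). Norm of the triple `≤ 1 + (5/8) * 5 + (5/8) * 1 ≤ 5`.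
`dd_one`: `pm 1 = pm 1 * a0 + tt`: `v = (pm 1, 0, tt)` (`R1 1`, `T0` supported in `R3`), `‖v‖ ≤ 2`
(`‖tt‖ = 5/4`).
`drec`: for all `g`, `‖v‖ ≤ 12`, strong induction on `g.norm`: `EP g`: `dd_r2`; `g = 1`: `dd_one`;
otherwise `letter_cases` gives `i` with `(g * lt (i,true)).norm < g.norm`, `EP (g * lt (i+1,true))`:
`pm g = pm g * a0 + α_i • pm (g * lt (i,true)) + α_{i+1} • pm (g * lt (i+1,true))` (`pm_a0`),
norm `≤ 1 + (5/8) * 12 + (5/8) * 5 ≤ 12`.
-/

namespace Pool.Agent.Aug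

open Pool.Agent.Lib_MP_11aa79_an
open scoped Classical

/-- the two coefficients -/
noncomputable def ac (i : Fin 2) : ℂ := if i = 0 then ⟨1 / 2, 3 / 8⟩ else ⟨1 / 2, -(3 / 8)⟩

theorem norm_ac (i : Fin 2) : ‖ac i‖ = 5 / 8 := by
  unfold ac
  split_ifs
  · exact norm_al1
  · exact norm_al2

private theorem drec_ne : lt (0, true) ≠ lt (1, true) := by
  intro h
  have h1 := T0_x
  rw [h, T0_y] at h1
  have h2 := congrArg Complex.im h1
  norm_num at h2

private theorem drec_tt : tt = ac 0 • pm (lt (0, true)) + ac 1 • pm (lt (1, true)) := by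
  apply a1_ext
  funext g
  change T0 g = ac 0 * (if g = lt (0, true) then 1 else 0) + ac 1 * (if g = lt (1, true) then 1 else 0)
  unfold T0 ac
  have hne := drec_ne
  by_cases h0 : g = lt (0, true)
  · subst h0
    rw [if_pos rfl, if_pos rfl, if_neg hne]
    simp
  · rw [if_neg h0, if_neg h0]
    by_cases h1 : g = lt (1, true)
    · rw [if_pos h1, if_pos h1]
      simp
    · rw [if_neg h1, if_neg h1]
      simp

private theorem drec_two (i : Fin 2) (F : Fin 2 → A1) :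
    ac i • F i + ac (i + 1) • F (i + 1) = ac 0 • F 0 + ac 1 • F 1 := by
  fin_cases i
  · rfl
  · change ac 1 • F 1 + ac 0 • F 0 = _
    rw [add_comm]

theorem pm_a0 (g : F2) (i : Fin 2) : pm g * a0 =
    pm g - ac i • pm (g * lt (i, true)) - ac (i + 1) • pm (g * lt (i + 1, true)) := by
  rw [sub_sub, drec_two i (fun i => pm (g * lt (i, true))), a0, mul_sub, mul_one, drec_tt, mul_add,
    mul_smul_comm, mul_smul_comm, pm_mul, pm_mul]

theorem a0_pm (g : F2) (i : Fin 2) : a0 * pm g =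
    pm g - ac i • pm (lt (i, true) * g) - ac (i + 1) • pm (lt (i + 1, true) * g) := by
  rw [sub_sub, drec_two i (fun i => pm (lt (i, true) * g)), a0, sub_mul, one_mul, drec_tt, add_mul,
    smul_mul_assoc, smul_mul_assoc, pm_mul, pm_mul]

private theorem drec_res (S : F2 → Prop) (g : F2) (h : S g) : res S (pm g) = pm g := by
  apply a1_ext
  funext x
  rw [fn_res, fn_pm]
  by_cases hx : x = g
  · rw [if_pos hx, if_pos (hx ▸ h)]
  · rw [if_neg hx]
    split_ifs <;> rfl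

private theorem drec_EP_one : ¬ EP 1 := by
  rintro ⟨i, hi⟩
  rw [inv_one] at hi
  exact St_one _ hi

private theorem drec_r3 (g : F2) (h : R3 g) :
    ∃ v : A1 × A1 × A1, ‖v‖ ≤ 1 ∧ DD v = pm g := by
  refine ⟨(0, 0, pm g), ?_, ?_⟩
  · rw [Prod.norm_def, Prod.norm_def]
    simp [norm_pm]
  · rw [DD_apply]
    simp [drec_res R3 g h]

private theorem drec_comb {u v w : A1 × A1 × A1} {a b c : ℝ} (i j : Fin 2) (hu : ‖u‖ ≤ a)
    (hv : ‖v‖ ≤ b) (hw : ‖w‖ ≤ c) : ‖u + ac i • v + ac j • w‖ ≤ a + 5 / 8 * b + 5 / 8 * c := by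
  refine (norm_add₃_le).trans ?_
  rw [norm_smul, norm_smul, norm_ac, norm_ac]
  nlinarith

private theorem drec_step2 (h : F2) (ih : ∀ h' : F2, h'.norm < h.norm → EP h' →
    ∃ v : A1 × A1 × A1, ‖v‖ ≤ 5 ∧ DD v = pm h') (hE : EP h) :
    ∃ v : A1 × A1 × A1, ‖v‖ ≤ 5 ∧ DD v = pm h := by
  by_cases hS : SP h
  · obtain ⟨v, hv, hv'⟩ := drec_r3 h ⟨hS, hE⟩
    exact ⟨v, hv.trans (by norm_num), hv'⟩
  · have h1 : h ≠ 1 := by
      rintro rfl
      exact drec_EP_one hE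
    obtain ⟨i, hi, hSP⟩ := letter_cases' hS h1
    obtain ⟨v1, hv1, hv1'⟩ := ih _ hi (EP_lt_mul hE hS i)
    obtain ⟨v2, hv2, hv2'⟩ := drec_r3 (lt (i + 1, true) * h) ⟨hSP, EP_lt_mul hE hS (i + 1)⟩
    have h0 : ‖((0, pm h, 0) : A1 × A1 × A1)‖ ≤ 1 := by
      rw [Prod.norm_def, Prod.norm_def]
      simp [norm_pm]
    refine ⟨(0, pm h, 0) + ac i • v1 + ac (i + 1) • v2,
      (drec_comb i (i + 1) h0 hv1 hv2).trans (by norm_num), ?_⟩
    rw [map_add, map_add, map_smul, map_smul, hv1', hv2', DD_apply]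
    have e : DD ((0, pm h, 0) : A1 × A1 × A1) = a0 * pm h := by
      rw [DD_apply]
      simp [drec_res R2 h ⟨hE, hS⟩]
    rw [DD_apply] at e
    rw [e, a0_pm h i]
    abel

theorem dd_r2 (n : ℕ) : ∀ h : F2, h.norm ≤ n → EP h →
    ∃ v : A1 × A1 × A1, ‖v‖ ≤ 5 ∧ DD v = pm h := by
  induction n with
  | zero =>
    intro h hn hE
    refine drec_step2 h (fun h' hlt _ => ?_) hE
    omega
  | succ n ih =>
    intro h hn hE
    exact drec_step2 h (fun h' hlt hE' => ih h' (by omega) hE') hE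

private theorem drec_R3_lt (i : Fin 2) : R3 (lt (i, true)) := by
  refine ⟨⟨i, St_lt _⟩, ⟨i, ?_⟩⟩
  rw [lt_inv]
  exact St_lt _

theorem dd_one : ∃ v : A1 × A1 × A1, ‖v‖ ≤ 2 ∧ DD v = pm 1 := by
  refine ⟨(pm 1, 0, tt), ?_, ?_⟩
  · have h1 : ‖tt‖ ≤ 2 := by
      rw [drec_tt]
      refine (norm_add_le _ _).trans ?_
      rw [norm_smul, norm_smul, norm_ac, norm_ac, norm_pm, norm_pm]
      norm_num
    rw [Prod.norm_def, Prod.norm_def]
    simp only [norm_pm, norm_zero]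
    refine max_le (by norm_num) (max_le (by norm_num) h1)
  · have h3 : res R3 tt = tt := by
      rw [drec_tt, map_add, map_smul, map_smul, drec_res R3 _ (drec_R3_lt 0),
        drec_res R3 _ (drec_R3_lt 1)]
    rw [DD_apply]
    simp only [map_zero, mul_zero, zero_add, h3]
    rw [drec_res R1 1 drec_EP_one, pm_one, one_mul, a0, sub_add_cancel]

private theorem drec_step (g : F2) (ih : ∀ g' : F2, g'.norm < g.norm →
    ∃ v : A1 × A1 × A1, ‖v‖ ≤ 12 ∧ DD v = pm g') :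
    ∃ v : A1 × A1 × A1, ‖v‖ ≤ 12 ∧ DD v = pm g := by
  by_cases hE : EP g
  · obtain ⟨v, hv, hv'⟩ := dd_r2 g.norm g le_rfl hE
    exact ⟨v, hv.trans (by norm_num), hv'⟩
  · by_cases h1 : g = 1
    · subst h1
      obtain ⟨v, hv, hv'⟩ := dd_one
      exact ⟨v, hv.trans (by norm_num), hv'⟩
    · obtain ⟨i, hi, hEP⟩ := letter_cases hE h1
      obtain ⟨v1, hv1, hv1'⟩ := ih _ hi
      obtain ⟨v2, hv2, hv2'⟩ := dd_r2 _ (g * lt (i + 1, true)) le_rfl hEP
      have h0 : ‖((pm g, 0, 0) : A1 × A1 × A1)‖ ≤ 1 := by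
        rw [Prod.norm_def, Prod.norm_def]
        simp [norm_pm]
      refine ⟨(pm g, 0, 0) + ac i • v1 + ac (i + 1) • v2,
        (drec_comb i (i + 1) h0 hv1 hv2).trans (by norm_num), ?_⟩
      rw [map_add, map_add, map_smul, map_smul, hv1', hv2']
      have e : DD ((pm g, 0, 0) : A1 × A1 × A1) = pm g * a0 := by
        rw [DD_apply]
        simp [drec_res R1 g hE]
      rw [e, pm_a0 g i]
      abel

theorem drec (g : F2) : ∃ v : A1 × A1 × A1, ‖v‖ ≤ 12 ∧ DD v = pm g := by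
  have key : ∀ n : ℕ, ∀ g : F2, g.norm ≤ n → ∃ v : A1 × A1 × A1, ‖v‖ ≤ 12 ∧ DD v = pm g := by
    intro n
    induction n with
    | zero =>
      intro g hn
      refine drec_step g (fun g' hlt => ?_)
      omega
    | succ n ih =>
      intro g hn
      exact drec_step g (fun g' hlt => ih g' (by omega))
  exact key g.norm g le_rfl

end Pool.Agent.Aug
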