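import Mathlib
import Pool.Agent.Lib_MP_11aa79_q2.T0F
import Pool.Agent.Lib_MP_11aa79_an.Invert

/-!
# PIECE O1 (about 80 lines): `del - t` is invertible on `l2` for `t` near `T0`.

PROOF. `isUnit_rep (0,true) (1,true) rfl rfl l` with `l = 7/25 - 24/25 i`
(`1 + ‖l‖² = 2 < 64/25 = ‖1 + l‖²`): `rep (lam F2) (aa (0,true) (1,true) l)` is a unit. Pointwise
`del g - T0 g = -(1 + l)⁻¹ * aa (0,true) (1,true) l g` (`(1+l)⁻¹ = 1/2 + 3i/8`,
`l (1+l)⁻¹ = 1/2 - 3i/8`), and `rep` is linear, so `rep (lam F2) (fun g => del g - T0 g)` is a unit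
`U` (a nonzero scalar times a unit). The set of units of the Banach algebra `L2 →L L2` is open
(`Units.isOpen` / `Units.nhds`), so there is `ε > 0` with `‖A - U‖ ≤ ε → IsUnit A`; and
`rep (del - t) - rep (del - T0) = rep (T0 - t)` has norm `≤ ∑ ‖t g - T0 g‖` (`norm_rep_le`).
-/

namespace Pool.Agent.Aug

open Pool.Agent.Lib_MP_11aa79_an Finset Filter Topology
open scoped Classical

theorem del_summable : Summable fun g : F2 => ‖del g‖ := by
  refine summable_of_hasFiniteSupport ?_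
  refine Set.Finite.subset (s := {1}) (by simp) ?_
  intro g hg
  by_contra h
  apply hg
  change ‖del g‖ = 0
  unfold del
  rw [if_neg (fun h1 => h (by rw [h1]; rfl)), norm_zero]

/-- `rep` is additive -/
theorem rep_sub {a b : F2 → ℂ} (ha : Summable fun g => ‖a g‖) (hb : Summable fun g => ‖b g‖) :
    rep (lam F2) (fun g => a g - b g) = rep (lam F2) a - rep (lam F2) b := by
  unfold rep
  rw [← (summable_rep (lam F2) ha).tsum_sub (summable_rep (lam F2) hb)]
  congr 1
  ext g : 1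
  rw [sub_smul]

private theorem o1_rep_smul (c : ℂ) {a : F2 → ℂ} :
    rep (lam F2) (fun g => c * a g) = c • rep (lam F2) a := by
  unfold rep
  rw [← tsum_const_smul'']
  congr 1
  ext g : 1
  rw [mul_smul]

private theorem o1_lt_ne : lt ((0 : Fin 2), true) ≠ lt ((1 : Fin 2), true) := fun h => by
  have := lt_inj h
  simp at this

private theorem o1_eq (g : F2) : del g - T0 g =
    (-(⟨1 / 2, 3 / 8⟩ : ℂ)) * aa (0, true) (1, true) ⟨7 / 25, -(24 / 25)⟩ g := by
  have hx : lt ((0 : Fin 2), true) ≠ 1 := lt_ne_one _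
  have hy : lt ((1 : Fin 2), true) ≠ 1 := lt_ne_one _
  have hxy := o1_lt_ne
  unfold del T0 aa
  by_cases e1 : g = lt (0, true)
  · rw [if_neg (by rw [e1]; exact hx), if_pos e1, if_pos e1]
    ring
  · by_cases e2 : g = lt (1, true)
    · rw [if_neg (by rw [e2]; exact hy), if_neg e1, if_pos e2, if_neg e1, if_pos e2]
      apply Complex.ext <;> simp <;> norm_num
    · by_cases e3 : g = 1
      · rw [if_pos e3, if_neg e1, if_neg e2, if_neg e1, if_neg e2, if_pos e3]
        apply Complex.ext <;> simp <;> norm_num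
      · rw [if_neg e3, if_neg e1, if_neg e2, if_neg e1, if_neg e2, if_neg e3]
        simp

private theorem o1_unit : IsUnit (rep (lam F2) (fun g => del g - T0 g)) := by
  have h1 : (fun g => del g - T0 g) = fun g =>
      (-(⟨1 / 2, 3 / 8⟩ : ℂ)) * aa (0, true) (1, true) ⟨7 / 25, -(24 / 25)⟩ g := by
    ext g : 1
    exact o1_eq g
  rw [h1, o1_rep_smul]
  have h2 : IsUnit (rep (lam (FreeGroup (Fin 2)))
      (aa (0, true) (1, true) (⟨7 / 25, -(24 / 25)⟩ : ℂ))) := by
    refine isUnit_rep (0, true) (1, true) rfl rfl _ ?_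
    rw [Complex.sq_norm, Complex.sq_norm, Complex.normSq_apply, Complex.normSq_apply]
    simp
    norm_num
  have hc : (-(⟨1 / 2, 3 / 8⟩ : ℂ)) ≠ 0 := by
    intro h
    have := congrArg Complex.re h
    simp at this
  exact h2.smul (Units.mk0 _ hc)

theorem unit_near : ∃ ε : ℝ, 0 < ε ∧ ∀ t : F2 → ℂ, (Summable fun g => ‖t g‖) →
    ∑' g, ‖t g - T0 g‖ ≤ ε → IsUnit (rep (lam F2) (fun g => del g - t g)) := by
  have hU := o1_unit
  have hopen : IsOpen {A : L2 F2 →L[ℂ] L2 F2 | IsUnit A} := Units.isOpen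
  obtain ⟨ε, hε, hball⟩ := Metric.isOpen_iff.1 hopen _ hU
  refine ⟨ε / 2, by positivity, fun t ht hnear => ?_⟩
  apply hball
  rw [Metric.mem_ball, dist_eq_norm, rep_sub del_summable ht, rep_sub del_summable T0_summable,
    sub_sub_sub_cancel_left]
  rw [← rep_sub T0_summable ht]
  have hs : Summable fun g => ‖T0 g - t g‖ := by
    refine Summable.of_nonneg_of_le (fun _ => norm_nonneg _) (fun g => ?_) (T0_summable.add ht)
    exact norm_sub_le _ _
  refine lt_of_le_of_lt (norm_rep_le (lam F2) hs) ?_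
  have h3 : ∑' g, ‖T0 g - t g‖ = ∑' g, ‖t g - T0 g‖ := by
    congr 1
    ext g : 1
    exact norm_sub_rev _ _
  rw [h3]
  linarith

end Pool.Agent.Aug
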