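import Mathlib
import Pool.Agent.Lib_MP_11aa79_q2.RED2
import Pool.Agent.Lib_MP_11aa79_q2.O1

/-!
# PIECE O2 (about 90 lines): contraction on the positive part.

`HH g` : `g = 1` or the word of `g` starts and ends positively. `mi HH` = multiplication by the
indicator function of `HH` on `L2` (helper3's `Invert.lean`).

PROOF. `rep t = rep T0 + rep (t - T0)` (`rep_sub`), `‖rep (t - T0)‖ ≤ 1/100` (`norm_rep_le`),
`‖mi‖ ≤ 1`. It remains: `‖rep T0 (mi HH f)‖ ≤ sqrt (25/32) ‖f‖ ≤ (89/100) ‖f‖`. With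
`v = mi HH f`, `(rep T0 v) g = α v (x⁻¹ g) + α' v (y⁻¹ g)` (`x = lt (0,true)`, `y = lt (1,true)`,
`|α| = |α'| = 5/8`; `rep_lam_apply`, `T0_hasSum`). If `v (x⁻¹ g) ≠ 0` then `x⁻¹ g` is `1` or starts
positively, hence `g` starts with `(0,true)`; if `v (y⁻¹ g) ≠ 0` then `g` starts with `(1,true)`. So
at most one of the two terms is nonzero and
`‖(rep T0 v) g‖² ≤ (25/64) (‖v (x⁻¹ g)‖² + ‖v (y⁻¹ g)‖²)`; the sum over `g` is
`(25/64) * 2 * ‖v‖² ≤ (25/32) ‖f‖²` (`L2_norm_sq`, left translations preserve sums, see the proof of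
`nAp` in `isUnit_rep`, `Lib_MP_11aa79_an/Invert.lean`, which is almost the same).
-/

namespace Pool.Agent.Aug

open Pool.Agent.Lib_MP_11aa79_an Finset Filter Topology
open scoped Classical

/-- the elements carrying `p` -/
def HH (g : F2) : Prop := g = 1 ∨ (SP g ∧ EP g)

theorem O2_mi_le (P : F2 → Prop) : ‖mi P‖ ≤ 1 := LinearMap.mkContinuous_norm_le _ zero_le_one _

theorem O2_mi_norm (P : F2 → Prop) (f : L2 F2) : ‖mi P f‖ ≤ ‖f‖ := by
  have h := (mi P).le_opNorm f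
  have h2 := O2_mi_le P
  have h3 := norm_nonneg f
  nlinarith

theorem O2_apply (v : L2 F2) (x : F2) : rep (lam F2) T0 v x =
    (⟨1 / 2, 3 / 8⟩ : ℂ) * v ((lt (0, true))⁻¹ * x) +
      (⟨1 / 2, -(3 / 8)⟩ : ℂ) * v ((lt (1, true))⁻¹ * x) := by
  rw [rep_lam_apply T0_summable]
  unfold conv
  have h := T0_hasSum (fun k : F2 => v (k⁻¹ * x))
  simp only [smul_eq_mul] at h
  exact h.tsum_eq

/-- the support of the shifted functions -/
theorem O2_St {f : L2 F2} {s : Fin 2 × Bool} (hs : s.2 = true) {x : F2}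
    (h : mi HH f ((lt s)⁻¹ * x) ≠ 0) : St s x := by
  rw [mi_apply] at h
  have h1 : HH ((lt s)⁻¹ * x) := by
    by_contra hc
    rw [if_neg hc] at h
    exact h rfl
  by_contra hc
  have h2 := (St_inv_mul s x).2 hc
  rcases h1 with h1 | ⟨⟨i, hi⟩, -⟩
  · rw [h1] at h2
    exact St_one _ h2
  · have h3 := St_unique hi h2
    have h4 := congrArg Prod.snd h3
    simp [op, hs] at h4

theorem O2_T0 (f : L2 F2) : ‖rep (lam F2) T0 (mi HH f)‖ ≤ 89 / 100 * ‖f‖ := by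
  refine (pow_le_pow_iff_left₀ (norm_nonneg _) (by positivity) two_ne_zero).1 ?_
  obtain ⟨v, hv⟩ : ∃ v, v = mi HH f := ⟨_, rfl⟩
  have hvf : ‖v‖ ≤ ‖f‖ := by rw [hv]; exact O2_mi_norm HH f
  rw [← hv, L2_norm_sq]
  have s := L2_summable v
  have s1 := summable_mulLeft s (lt (0, true))⁻¹
  have s2 := summable_mulLeft s (lt (1, true))⁻¹
  have t1 : ∑' x, ‖v ((lt (0, true))⁻¹ * x)‖ ^ 2 = ∑' x, ‖v x‖ ^ 2 :=
    (Equiv.mulLeft (lt (0, true))⁻¹).tsum_eq (fun x => ‖v x‖ ^ 2)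
  have t2 : ∑' x, ‖v ((lt (1, true))⁻¹ * x)‖ ^ 2 = ∑' x, ‖v x‖ ^ 2 :=
    (Equiv.mulLeft (lt (1, true))⁻¹).tsum_eq (fun x => ‖v x‖ ^ 2)
  have s3 : Summable fun x => 25 / 64 * (‖v ((lt (0, true))⁻¹ * x)‖ ^ 2 +
      ‖v ((lt (1, true))⁻¹ * x)‖ ^ 2) := (s1.add s2).mul_left _
  calc ∑' x, ‖rep (lam F2) T0 v x‖ ^ 2 ≤ ∑' x, 25 / 64 * (‖v ((lt (0, true))⁻¹ * x)‖ ^ 2 +
        ‖v ((lt (1, true))⁻¹ * x)‖ ^ 2) := by
        refine Summable.tsum_le_tsum (fun x => ?_) (L2_summable _) s3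
        rw [O2_apply]
        by_cases c1 : v ((lt (0, true))⁻¹ * x) = 0
        · rw [c1, mul_zero, zero_add, norm_mul, norm_al2, mul_pow, norm_zero]
          nlinarith [sq_nonneg ‖v ((lt (1, true))⁻¹ * x)‖]
        · have c2 : v ((lt (1, true))⁻¹ * x) = 0 := by
            by_contra c2
            rw [hv] at c1 c2
            have e1 := O2_St rfl c1
            have e2 := O2_St rfl c2
            have e3 := congrArg Prod.fst (St_unique e1 e2)
            simp at e3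
          rw [c2, mul_zero, add_zero, norm_mul, norm_al1, mul_pow, norm_zero]
          nlinarith [sq_nonneg ‖v ((lt (0, true))⁻¹ * x)‖]
    _ = 25 / 32 * ‖v‖ ^ 2 := by
        rw [tsum_mul_left, s1.tsum_add s2, t1, t2, L2_norm_sq]
        ring
    _ ≤ (89 / 100 * ‖f‖) ^ 2 := by
        have h1 : ‖v‖ ^ 2 ≤ ‖f‖ ^ 2 := pow_le_pow_left₀ (norm_nonneg _) hvf 2
        nlinarith [sq_nonneg ‖f‖]

theorem contr {t : F2 → ℂ} (hts : Summable fun g => ‖t g‖)
    (hnear : ∑' g, ‖t g - T0 g‖ ≤ 1 / 100) : ‖rep (lam F2) t * mi HH‖ ≤ 9 / 10 := by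
  have hsub := rep_sub hts T0_summable
  have hsum : Summable fun g => ‖t g - T0 g‖ :=
    Summable.of_nonneg_of_le (fun _ => norm_nonneg _) (fun g => norm_sub_le _ _)
      (hts.add T0_summable)
  have h1 : rep (lam F2) t * mi HH = rep (lam F2) T0 * mi HH +
      rep (lam F2) (fun g => t g - T0 g) * mi HH := by
    rw [hsub, sub_mul, add_sub_cancel]
  rw [h1]
  have h2 : ‖rep (lam F2) T0 * mi HH‖ ≤ 89 / 100 :=
    ContinuousLinearMap.opNorm_le_bound _ (by norm_num) (fun f => O2_T0 f)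
  have h3 : ‖rep (lam F2) (fun g => t g - T0 g) * mi HH‖ ≤ 1 / 100 := by
    calc ‖rep (lam F2) (fun g => t g - T0 g) * mi HH‖
        ≤ ‖rep (lam F2) (fun g => t g - T0 g)‖ * ‖mi HH‖ := norm_mul_le _ _
      _ ≤ 1 / 100 * 1 := mul_le_mul ((norm_rep_le _ hsum).trans hnear) (O2_mi_le _)
          (norm_nonneg _) (by norm_num)
      _ = 1 / 100 := mul_one _
  refine (norm_add_le _ _).trans ?_
  linarith

end Pool.Agent.Aug
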