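import Mathlib
import Pool.Agent.Lib_MP_11aa79_q2.O2

/-!
# PIECE O3 (about 80 lines): the support of `p = (1 - t)⁻¹ δ₁`.

PROOF. `B = rep (lam F2) t * mi HH`, `‖B‖ ≤ 9/10 < 1` (`contr`), so `1 - B` is invertible
(`isUnit_one_sub_of_norm_lt_one`); let `q` with `q - B q = dl 1`, i.e. `q = dl 1 + B q`.
`B q = rep t (mi HH q)` is supported on `HH`: `(rep t f) g = ∑'_k t k f (k⁻¹ g)` (`rep_lam_apply`,
`conv`), if it is nonzero for `f = mi HH q` there is `k` with `t k ≠ 0` (so `SP k ∧ EP k`) and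
`HH (k⁻¹ g)`, and then `g = k * (k⁻¹ g)` starts and ends positively (`SP_mul`, `EP_mul`; if
`k⁻¹ g = 1`, `g = k`). `dl 1` is supported on `{1}`. So `q` is supported on `HH`, `mi HH q = q`,
`q = dl 1 + rep t q`, i.e. `rep (del - t) q = dl 1` (`rep_sub`, `rep del = 1`), and applying `Ai`
(`h2`) `q = Ai (dl 1)`.
-/

namespace Pool.Agent.Aug

open Pool.Agent.Lib_MP_11aa79_an Finset Filter Topology
open scoped Classical

theorem rep_del : rep (lam F2) del = 1 := by
  ext f x
  rw [rep_lam_apply del_summable]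
  unfold conv
  rw [tsum_eq_single 1]
  · simp [del]
  · intro g hg
    simp [del, hg]

theorem psupp {t : F2 → ℂ} (ht : ∀ g, t g ≠ 0 → SP g ∧ EP g) (hts : Summable fun g => ‖t g‖)
    (hnear : ∑' g, ‖t g - T0 g‖ ≤ 1 / 100) {Ai : L2 F2 →L[ℂ] L2 F2}
    (h1 : rep (lam F2) (fun g => del g - t g) * Ai = 1)
    (h2 : Ai * rep (lam F2) (fun g => del g - t g) = 1) (g : F2) (hg : Ai (dl 1) g ≠ 0) :
    HH g := by
  have _h1 := h1
  set B : L2 F2 →L[ℂ] L2 F2 := rep (lam F2) t * mi HH with hB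
  have hBn : ‖B‖ ≤ 9 / 10 := contr hts hnear
  have hunit : IsUnit (1 - B) := isUnit_one_sub_of_norm_lt_one (by linarith)
  obtain ⟨u, hu⟩ := hunit
  obtain ⟨q, hq1⟩ : ∃ q : L2 F2, q - B q = dl 1 := by
    refine ⟨(↑u⁻¹ : L2 F2 →L[ℂ] L2 F2) (dl 1), ?_⟩
    have h3 : (1 - B) * (↑u⁻¹ : L2 F2 →L[ℂ] L2 F2) = 1 := by rw [← hu]; exact u.mul_inv
    exact congrArg (fun T : L2 F2 →L[ℂ] L2 F2 => T (dl 1)) h3
  have hsupp : ∀ g, q g ≠ 0 → HH g := by
    intro g hg
    have h4 : q = dl 1 + B q := by rw [← hq1]; abel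
    by_contra hH
    apply hg
    have hg1 : g ≠ 1 := fun h => hH (Or.inl h)
    have e1 : q g = dl 1 g + (B q) g := congrArg (fun f : L2 F2 => f g) h4
    rw [e1, dl_apply, if_neg hg1, zero_add]
    change (rep (lam F2) t (mi HH q)) g = 0
    rw [rep_lam_apply hts]
    unfold conv
    have h5 : ∀ k, t k * (mi HH q) (k⁻¹ * g) = 0 := by
      intro k
      by_contra hne
      have hk : t k ≠ 0 := left_ne_zero_of_mul hne
      have hv : mi HH q (k⁻¹ * g) ≠ 0 := right_ne_zero_of_mul hne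
      rw [mi_apply] at hv
      have hH2 : HH (k⁻¹ * g) := by
        by_contra h
        rw [if_neg h] at hv
        exact hv rfl
      obtain ⟨kS, kE⟩ := ht k hk
      apply hH
      rcases hH2 with h | ⟨h6, h7⟩
      · have e2 : g = k := by
          rw [inv_mul_eq_one] at h
          exact h.symm
        right
        rw [e2]
        exact ⟨kS, kE⟩
      · right
        have e : g = k * (k⁻¹ * g) := by group
        rw [e]
        exact ⟨SP_mul ⟨kS, kE⟩ (Or.inl h6), EP_mul (Or.inl kE) ⟨h6, h7⟩⟩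
    simp only [h5, tsum_zero]
  have hmi : mi HH q = q := by
    ext g
    rw [mi_apply]
    split_ifs with h
    · rfl
    · by_contra hne
      exact h (hsupp g (Ne.symm hne))
  have hfin : rep (lam F2) (fun g => del g - t g) q = dl 1 := by
    rw [rep_sub del_summable hts, rep_del]
    change q - rep (lam F2) t q = dl 1
    have h8 : B q = rep (lam F2) t q := by
      change rep (lam F2) t (mi HH q) = _
      rw [hmi]
    rw [← h8]
    exact hq1
  have hqA : Ai (dl 1) = q := by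
    rw [← hfin]
    exact congrArg (fun T : L2 F2 →L[ℂ] L2 F2 => T q) h2
  rw [hqA] at hg
  exact hsupp g hg

end Pool.Agent.Aug
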