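import Mathlib
import Pool.Agent.Lib_MP_11aa79_q2.O1
import Pool.Agent.Lib_MP_11aa79_an.DirFin

/-!
# PIECE O4 (about 80 lines): the two recursions for `p = (1 - t)⁻¹ δ₁`.

PROOF. `left`: apply `h1` to `dl 1`: `p - rep t p = dl 1` (`rep_sub`; `rep (lam F2) del = 1`, or
directly `rep_lam_apply` for `del - t` : `conv (del - t) p g = p g - ∑'_k t k * p (k⁻¹ * g)`),
evaluate at `g` (`rep_lam_apply`, `dl_apply`).
`right`: `h2` applied to `dl 1`: `Ai (rep (del - t) (dl 1)) = dl 1` and `rep (lam F2) t (dl 1)` is the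
`L2` vector `∑ t k • dl k` (`hasSum_rep_apply`, `lam k (dl 1) = dl k`), so
`Ai (rep t (dl 1)) = ∑ t k • Ai (dl k)` and `Ai (dl k) = rho k (Ai (dl 1))` (`rho_dl`, `RC_inv` for
`Ai` with `RC_rep`), whose value at `g` is `p (g * k⁻¹)` (`rho_apply`); evaluation at `g` is
continuous (`lp.evalCLM ℂ (fun _ : F2 => ℂ) 2 g`, see `tr_mul` in `DirFin.lean`).
-/

namespace Pool.Agent.Aug

open Pool.Agent.Lib_MP_11aa79_an Finset Filter Topology
open scoped Classical

/-- the unit acts as the identity -/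
private theorem o4_rep_del (f : L2 F2) : rep (lam F2) del f = f := by
  ext x
  rw [rep_lam_apply del_summable]
  unfold conv
  rw [tsum_eq_single (1 : F2)]
  · unfold del
    rw [if_pos rfl, one_mul, inv_one, one_mul]
  · intro k hk
    unfold del
    rw [if_neg hk, zero_mul]

private theorem o4_lam_dl (k : F2) : lam F2 k (dl 1) = dl k := by
  ext x
  rw [lam_apply, dl_apply, dl_apply]
  congr 1
  rw [eq_iff_iff, inv_mul_eq_one, eq_comm]

private theorem o4_dl_one (g : F2) : (dl 1 : L2 F2) g = del g := by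
  rw [dl_apply]
  unfold del
  split_ifs <;> rfl

theorem p_left {t : F2 → ℂ} (hts : Summable fun g => ‖t g‖) {Ai : L2 F2 →L[ℂ] L2 F2}
    (h1 : rep (lam F2) (fun g => del g - t g) * Ai = 1) (g : F2) :
    Ai (dl 1) g = del g + ∑' k, t k * Ai (dl 1) (k⁻¹ * g) := by
  rw [rep_sub del_summable hts] at h1
  have h2 : rep (lam F2) del (Ai (dl 1)) - rep (lam F2) t (Ai (dl 1)) = dl 1 := by
    have := congrArg (fun T : L2 F2 →L[ℂ] L2 F2 => T (dl 1)) h1
    simpa using this
  rw [o4_rep_del, sub_eq_iff_eq_add] at h2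
  have h3 : Ai (dl 1) g = (dl 1 : L2 F2) g + (rep (lam F2) t (Ai (dl 1))) g :=
    congrArg (fun f : L2 F2 => f g) h2
  rw [h3, o4_dl_one, rep_lam_apply hts]
  rfl

theorem p_right {t : F2 → ℂ} (hts : Summable fun g => ‖t g‖) {Ai : L2 F2 →L[ℂ] L2 F2}
    (h1 : rep (lam F2) (fun g => del g - t g) * Ai = 1)
    (h2 : Ai * rep (lam F2) (fun g => del g - t g) = 1) (g : F2) :
    Ai (dl 1) g = del g + ∑' k, Ai (dl 1) (g * k⁻¹) * t k := by
  have hdt : Summable fun g : F2 => ‖del g - t g‖ := by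
    refine Summable.of_nonneg_of_le (fun _ => norm_nonneg _) (fun k => norm_sub_le _ _)
      (del_summable.add hts)
  have hRC : RC Ai := RC_inv (RC_rep hdt) h1 h2
  rw [rep_sub del_summable hts] at h2
  have h3 : Ai (rep (lam F2) del (dl 1)) - Ai (rep (lam F2) t (dl 1)) = dl 1 := by
    have := congrArg (fun T : L2 F2 →L[ℂ] L2 F2 => T (dl 1)) h2
    simpa using this
  rw [o4_rep_del, sub_eq_iff_eq_add] at h3
  have h4 : Ai (dl 1) g = (dl 1 : L2 F2) g + (Ai (rep (lam F2) t (dl 1))) g :=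
    congrArg (fun f : L2 F2 => f g) h3
  have h5 := ((hasSum_rep_apply (lam F2) hts (dl 1)).mapL Ai).mapL
    (lp.evalCLM ℂ (fun _ : F2 => ℂ) 2 g)
  have h6 : HasSum (fun k => Ai (dl 1) (g * k⁻¹) * t k) ((Ai (rep (lam F2) t (dl 1))) g) := by
    refine h5.congr_fun ?_
    intro k
    change Ai (dl 1) (g * k⁻¹) * t k = (Ai (t k • lam F2 k (dl 1))) g
    rw [o4_lam_dl, ← rho_dl k, map_smul, hRC, lp.coeFn_smul, Pi.smul_apply, rho_apply, smul_eq_mul,
      mul_comm]
  rw [h4, o4_dl_one, h6.tsum_eq]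

end Pool.Agent.Aug
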