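import Mathlib
import Pool.Agent.Lib_MP_11aa79_q2.O1
import Pool.Agent.Lib_MP_11aa79_an.DirFin

/-!
# PIECE O5 (about 90 lines): `c * p * b = δ₁` from `b * c = 1 - t`.

PROOF. `A = rep (del - t)`, `B = rep b`, `C = rep c`, `B * C = A` (`rep_conv`), so `dir_fin` gives
`C * (Ai * B) = 1`. Apply to `dl 1` and evaluate at `g`:
`B (dl 1) = ∑_u b u • dl u` (`hasSum_rep_apply`, `lam u (dl 1) = dl u`), so
`Ai (B (dl 1)) = ∑_u b u • rho u (Ai (dl 1))` (`RC_inv`, `rho_dl`), with value at `x`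
`∑'_u b u * p (x * u⁻¹)` where `p = Ai (dl 1)`; `(C v) g = ∑'_z c z * v (z⁻¹ * g)`
(`rep_lam_apply`). So `∑'_z c z * ∑'_u b u * p (z⁻¹ * g * u⁻¹) = dl 1 g = del g`, and the double
sum is absolutely convergent (`‖c z‖ ‖b u‖ ‖p‖`; `lp.norm_apply_le_norm`), so it equals the sum over
the pairs (`Summable.tsum_prod`).
-/

namespace Pool.Agent.Aug

open Pool.Agent.Lib_MP_11aa79_an Finset Filter Topology
open scoped Classical

theorem O5_lam_dl (u : F2) : lam F2 u (dl 1) = dl u := by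
  ext x
  rw [lam_apply, dl_apply, dl_apply]
  congr 1
  rw [eq_iff_iff, inv_mul_eq_one, eq_comm]

theorem cpb {t : F2 → ℂ} (hts : Summable fun g => ‖t g‖) {Ai : L2 F2 →L[ℂ] L2 F2}
    (h1 : rep (lam F2) (fun g => del g - t g) * Ai = 1)
    (h2 : Ai * rep (lam F2) (fun g => del g - t g) = 1) {b c : F2 → ℂ}
    (hb : Summable fun g => ‖b g‖) (hc : Summable fun g => ‖c g‖)
    (hbc : conv b c = fun g => del g - t g) (g : F2) :
    ∑' q : F2 × F2, c q.1 * b q.2 * Ai (dl 1) (q.1⁻¹ * g * q.2⁻¹) = del g := by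
  have hsum : Summable fun g => ‖del g - t g‖ :=
    Summable.of_nonneg_of_le (fun _ => norm_nonneg _) (fun g => norm_sub_le _ _)
      (del_summable.add hts)
  have hA : RC (rep (lam F2) (fun g => del g - t g)) := RC_rep hsum
  have hBC : rep (lam F2) b * rep (lam F2) c = rep (lam F2) (fun g => del g - t g) := by
    rw [← rep_conv _ hb hc, hbc]
  have hX := dir_fin hA (RC_rep hb) (RC_rep hc) hBC h1 h2
  have hAi : RC Ai := RC_inv hA h1 h2
  -- the value of `w = Ai (B (dl 1))`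
  have hw : ∀ x : F2, HasSum (fun u => b u * Ai (dl 1) (x * u⁻¹))
      (Ai (rep (lam F2) b (dl 1)) x) := by
    intro x
    have e1 := (hasSum_rep_apply (lam F2) hb (dl 1)).mapL Ai
    have e2 := e1.mapL (lp.evalCLM ℂ (fun _ : F2 => ℂ) 2 x)
    refine e2.congr_fun ?_
    intro u
    have e3 : Ai (lam F2 u (dl 1)) = rho u (Ai (dl 1)) := by
      rw [O5_lam_dl, ← rho_dl u, hAi]
    have e4 : Ai (b u • lam F2 u (dl 1)) = b u • rho u (Ai (dl 1)) := by
      rw [map_smul, e3]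
    change b u * Ai (dl 1) (x * u⁻¹) = (Ai (b u • lam F2 u (dl 1))) x
    rw [e4]
    change b u * Ai (dl 1) (x * u⁻¹) = b u * (rho u (Ai (dl 1))) x
    rw [rho_apply]
  -- evaluation of `C w` at `g`
  have hC : rep (lam F2) c (Ai (rep (lam F2) b (dl 1))) g = del g := by
    have e1 := congrArg (fun T : L2 F2 →L[ℂ] L2 F2 => T (dl 1) g) hX
    change rep (lam F2) c (Ai (rep (lam F2) b (dl 1))) g = (dl 1 : L2 F2) g at e1
    rw [e1, dl_apply]
    by_cases hg : g = 1 <;> simp [del, hg]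
  rw [rep_lam_apply hc] at hC
  unfold conv at hC
  -- absolute convergence
  have hsq : Summable fun q : F2 × F2 => c q.1 * b q.2 * Ai (dl 1) (q.1⁻¹ * g * q.2⁻¹) := by
    have e1 : Summable fun q : F2 × F2 => ‖c q.1‖ * ‖b q.2‖ :=
      hc.mul_of_nonneg hb (fun _ => norm_nonneg _) (fun _ => norm_nonneg _)
    refine Summable.of_norm_bounded (e1.mul_right ‖Ai (dl 1)‖) (fun q => ?_)
    rw [norm_mul, norm_mul]
    apply mul_le_mul_of_nonneg_left _ (by positivity)
    exact lp.norm_apply_le_norm (by norm_num) _ _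
  rw [hsq.tsum_prod, ← hC]
  apply tsum_congr
  intro z
  have e5 := (hw (z⁻¹ * g)).tsum_eq
  change _ = c z * (Ai (rep (lam F2) b (dl 1))) (z⁻¹ * g)
  rw [← e5, ← tsum_mul_left]
  apply tsum_congr
  intro u
  exact mul_assoc _ _ _

end Pool.Agent.Aug
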