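import Mathlib
import Pool.Agent.Lib_MP_11aa79_q2.O3
import Pool.Agent.Lib_MP_11aa79_q2.O4
import Pool.Agent.Lib_MP_11aa79_q2.O5

/-! Assembly of the operator part. Proved from O1, O3, O4, O5. -/

namespace Pool.Agent.Aug

open Pool.Agent.Lib_MP_11aa79_an Finset Filter Topology
open scoped Classical

theorem op_main : ∃ ε : ℝ, 0 < ε ∧ ∀ t : F2 → ℂ, (∀ g, t g ≠ 0 → SP g ∧ EP g) →
    (Summable fun g => ‖t g‖) → ∑' g, ‖t g - T0 g‖ ≤ ε → ∃ p : F2 → ℂ, PD t p ∧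
      ∀ b c : F2 → ℂ, (Summable fun g => ‖b g‖) → (Summable fun g => ‖c g‖) →
        (conv b c = fun g => del g - t g) →
        ∀ g, ∑' q : F2 × F2, c q.1 * b q.2 * p (q.1⁻¹ * g * q.2⁻¹) = del g := by
  obtain ⟨ε, hε, hu⟩ := unit_near
  refine ⟨min ε (1 / 100), by positivity, fun t ht hts hnear => ?_⟩
  obtain ⟨u, hu⟩ := hu t hts (hnear.trans (min_le_left _ _))
  have hnear' := hnear.trans (min_le_right _ _)
  set Ai : L2 F2 →L[ℂ] L2 F2 := (u⁻¹).val with hAi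
  have h1 : rep (lam F2) (fun g => del g - t g) * Ai = 1 := by rw [← hu]; simp [Ai]
  have h2 : Ai * rep (lam F2) (fun g => del g - t g) = 1 := by rw [← hu]; simp [Ai]
  refine ⟨fun g => Ai (dl 1) g, ⟨?_, ?_, ?_, ?_⟩, ?_⟩
  · intro g hg
    exact psupp ht hts hnear' h1 h2 g hg
  · exact ⟨‖Ai (dl 1)‖, fun g => lp.norm_apply_le_norm (by norm_num) _ g⟩
  · exact fun g => p_right hts h1 h2 g
  · exact fun g => p_left hts h1 g
  · exact fun b c hb hc hbc g => cpb hts h1 h2 hb hc hbc g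

end Pool.Agent.Aug
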