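import Mathlib
import Pool.Agent.Lib_MP_11aa79_q2.OPM
import Pool.Agent.Lib_MP_11aa79_q2.BETA
import Pool.Agent.Lib_MP_11aa79_q2.CORE

/-! No factorisation of `del - t` for `t` near `T0` supported on the elements starting and ending
positively. Proved from OPM, BETA, CORE. -/

namespace Pool.Agent.Aug

open Pool.Agent.Lib_MP_11aa79_an Finset Filter Topology
open scoped Classical

theorem near : ∃ ε : ℝ, 0 < ε ∧ ∀ t : F2 → ℂ, (∀ g, t g ≠ 0 → SP g ∧ EP g) →
    (Summable fun g => ‖t g‖) → ∑' g, ‖t g - T0 g‖ ≤ ε →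
      ∀ b c : F2 → ℂ, (Summable fun g => ‖b g‖) → (Summable fun g => ‖c g‖) →
        ∑' g, b g = 0 → ∑' g, c g = 0 → (conv b c = fun g => del g - t g) → False := by
  obtain ⟨ε, hε, h⟩ := op_main
  refine ⟨min ε (1 / 100), by positivity, fun t ht hts hnear b c hb hc hb0 hc0 hbc => ?_⟩
  obtain ⟨p, hp, hcpb⟩ := h t ht hts (hnear.trans (min_le_left _ _))
  obtain ⟨β, hG⟩ := beta ht hts (hnear.trans (min_le_right _ _))
  exact core hG hp hb hc hb0 hc0 (hcpb b c hb hc hbc)

end Pool.Agent.Aug
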