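import Mathlib
import Pool.Agent.Lib_MP_11aa79_q2.DREC

/-!
# PIECE OPEN (about 110 lines): surjectivity, strict derivative, open mapping.

PROOF of `DD_surj`. Choose `v g` with `‖v g‖ ≤ 12`, `DD (v g) = pm g` (`drec`). For `f : A1` the
family `f.fn g • v g` is absolutely summable in the Banach space `A1 × A1 × A1`
(`‖f.fn g‖ * 12`, `a1_summable`), and `DD` of its sum is `∑ f.fn g • pm g = f` (`hasSum_pm`).

PROOF of `Psi_deriv`. `Psi v = (1 + L1 v) * (a0 + L3 v) * (1 + L2 v)` with continuous linear maps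
`L1, L2, L3 : A1 × A1 × A1 →L[ℂ] A1`; `HasStrictFDerivAt.mul'` (product rule in a normed algebra),
`HasStrictFDerivAt.const_add`, `ContinuousLinearMap.hasStrictFDerivAt`; at `0` the derivative is
`v ↦ L1 v * a0 + L3 v + a0 * L2 v`, equal to `DD` (`ext`, `DD_apply`; `L_i 0 = 0`).

PROOF of `psi_open`: `HasStrictFDerivAt.map_nhds_eq_of_surj` gives `map Psi (𝓝 0) = 𝓝 (Psi 0)`,
`Psi 0 = a0`; the image of the ball of radius `η` is a neighbourhood of `a0`.
-/

namespace Pool.Agent.Aug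

open Pool.Agent.Lib_MP_11aa79_an Filter Topology
open scoped Classical

theorem DD_surj (f : A1) : ∃ v, DD v = f := by
  choose v hv hv' using drec
  have hsum : Summable fun g => f.fn g • v g := by
    refine Summable.of_norm ?_
    refine Summable.of_nonneg_of_le (fun _ => norm_nonneg _) (fun g => ?_)
      ((a1_summable f).mul_right 12)
    rw [norm_smul]
    exact mul_le_mul_of_nonneg_left (hv g) (norm_nonneg _)
  refine ⟨∑' g, f.fn g • v g, ?_⟩
  have h1 : HasSum (fun g => DD (f.fn g • v g)) (DD (∑' g, f.fn g • v g)) :=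
    hsum.hasSum.mapL DD
  have h2 : (fun g => DD (f.fn g • v g)) = fun g => f.fn g • pm g := by
    funext g
    rw [map_smul, hv']
  rw [h2] at h1
  exact h1.unique (hasSum_pm f)

theorem Psi_deriv : HasStrictFDerivAt Psi DD 0 := by
  set L1 : A1 × A1 × A1 →L[ℂ] A1 := (res R1).comp (ContinuousLinearMap.fst ℂ A1 (A1 × A1)) with hL1
  set L2 : A1 × A1 × A1 →L[ℂ] A1 := (res R2).comp ((ContinuousLinearMap.fst ℂ A1 A1).comp
        (ContinuousLinearMap.snd ℂ A1 (A1 × A1))) with hL2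
  set L3 : A1 × A1 × A1 →L[ℂ] A1 := (res R3).comp ((ContinuousLinearMap.snd ℂ A1 A1).comp
        (ContinuousLinearMap.snd ℂ A1 (A1 × A1))) with hL3
  have d1 : HasStrictFDerivAt (fun v => 1 + L1 v) L1 0 := L1.hasStrictFDerivAt.const_add 1
  have d2 : HasStrictFDerivAt (fun v => 1 + L2 v) L2 0 := L2.hasStrictFDerivAt.const_add 1
  have d3 : HasStrictFDerivAt (fun v => a0 + L3 v) L3 0 := L3.hasStrictFDerivAt.const_add a0
  have d := (d1.mul' d3).mul' d2
  have hP : Psi = fun v => (1 + L1 v) * (a0 + L3 v) * (1 + L2 v) := rfl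
  rw [hP]
  refine d.congr_fderiv ?_
  ext v
  · simp [DD_apply, L1, L2, L3]
  · simp [DD_apply, L1, L2, L3]
  · simp [DD_apply, L1, L2, L3]

theorem psi_open {η : ℝ} (hη : 0 < η) : ∃ δ : ℝ, 0 < δ ∧ ∀ a : A1, ‖a - a0‖ < δ →
    ∃ v : A1 × A1 × A1, ‖v‖ < η ∧ Psi v = a := by
  have h0 : Psi 0 = a0 := by simp [Psi]
  have h1 : map Psi (𝓝 0) = 𝓝 (Psi 0) :=
    Psi_deriv.map_nhds_eq_of_surj (LinearMap.range_eq_top.2 (fun f => DD_surj f))
  rw [h0] at h1
  have h2 : Psi '' Metric.ball 0 η ∈ 𝓝 a0 := by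
    rw [← h1]
    exact image_mem_map (Metric.ball_mem_nhds 0 hη)
  obtain ⟨δ, hδ, hsub⟩ := Metric.mem_nhds_iff.1 h2
  refine ⟨δ, hδ, fun a ha => ?_⟩
  have h3 : a ∈ Metric.ball a0 δ := by rwa [Metric.mem_ball, dist_eq_norm]
  obtain ⟨v, hv, hv'⟩ := hsub h3
  refine ⟨v, ?_, hv'⟩
  rwa [Metric.mem_ball, dist_zero_right] at hv

end Pool.Agent.Aug
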