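import Mathlib
import Pool.Agent.Lib_MP_11aa79_q2.OPEN
import Pool.Agent.Lib_MP_11aa79_q2.NEAR

/-!
# PIECE FIN (about 100 lines): the final theorem.

PROOF. Let `ε` be as in `near`, `η = min ε (1/2)`, `δ` from `psi_open hη`. Suppose
`a = b * c`, `‖a - a0‖ < δ`, `aug b = aug c = 0`. Then `a = Psi v`, `‖v‖ < η`, with
`U = 1 + res R1 v.1`, `V = 1 + res R2 v.2.1` units of `A1` (`norm_res_le`,
`isUnit_one_sub_of_norm_lt_one` applied to the negatives), and `a0 + res R3 v.2.2 = 1 - τ` with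
`τ = tt - res R3 v.2.2`. So `U⁻¹ * b * (c * V⁻¹) = 1 - τ`; `b' = U⁻¹ b`, `c' = c V⁻¹` have
`aug b' = aug c' = 0` (`aug_mul`). With `t = τ.fn`: `t` is supported on `R3` (`T0_supp`, `St_lt`,
for the letters `lt (i,true)`; `fn_res`), `‖t - T0‖₁ = ‖res R3 v.2.2‖ ≤ η ≤ ε` (`a1_norm`), and
`conv b'.fn c'.fn = (1 - τ).fn = fun g => del g - t g` (`fn_mul`, `fn_sub`, `fn_one`). `near` gives a
contradiction.
-/

namespace Pool.Agent.Aug

open Pool.Agent.Lib_MP_11aa79_an Filter Topology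
open scoped Classical

theorem fin_unit (S : F2 → Prop) {v : A1} (hv : ‖v‖ < 1) : IsUnit (1 + res S v) := by
  have h1 : ‖-res S v‖ < 1 := by
    rw [norm_neg]
    exact (norm_res_le S v).trans_lt hv
  have h2 := isUnit_one_sub_of_norm_lt_one h1
  rwa [sub_neg_eq_add] at h2

theorem fin_supp {g : F2} (h : T0 g ≠ 0) : SP g ∧ EP g := by
  have key : ∀ i : Fin 2, SP (lt (i, true)) ∧ EP (lt (i, true)) := by
    intro i
    refine ⟨⟨i, St_lt _⟩, ⟨i, ?_⟩⟩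
    rw [lt_inv]
    exact St_lt _
  rcases T0_supp h with rfl | rfl
  · exact key 0
  · exact key 1

theorem fin_a1 : ∃ δ : ℝ, 0 < δ ∧ ∀ b c : A1, aug b = 0 → aug c = 0 → δ ≤ ‖b * c - a0‖ := by
  obtain ⟨ε, hε, hnear⟩ := near
  obtain ⟨δ, hδ, hopen⟩ := psi_open (η := min ε (1 / 2)) (by positivity)
  refine ⟨δ, hδ, fun b c hb hc => ?_⟩
  by_contra hlt
  push Not at hlt
  obtain ⟨v, hv, hPsi⟩ := hopen (b * c) hlt
  have hvε : ‖v‖ < ε := hv.trans_le (min_le_left _ _)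
  have hv2 : ‖v‖ < 1 / 2 := hv.trans_le (min_le_right _ _)
  have n1 : ‖v.1‖ ≤ ‖v‖ := norm_fst_le v
  have n2 : ‖v.2‖ ≤ ‖v‖ := norm_snd_le v
  have n21 : ‖v.2.1‖ ≤ ‖v‖ := (norm_fst_le v.2).trans n2
  have n22 : ‖v.2.2‖ ≤ ‖v‖ := (norm_snd_le v.2).trans n2
  obtain ⟨U, hU⟩ := fin_unit R1 (v := v.1) (by linarith)
  obtain ⟨V, hV⟩ := fin_unit R2 (v := v.2.1) (by linarith)
  set τ : A1 := tt - res R3 v.2.2 with hτ
  have e1 : a0 + res R3 v.2.2 = 1 - τ := by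
    rw [hτ, a0]; abel
  have e2 : (U : A1) * (1 - τ) * V = b * c := by
    rw [← hPsi, Psi, hU, hV, e1]
  have e3 : ((U⁻¹ : A1ˣ) : A1) * b * (c * ((V⁻¹ : A1ˣ) : A1)) = 1 - τ := by
    calc ((U⁻¹ : A1ˣ) : A1) * b * (c * ((V⁻¹ : A1ˣ) : A1))
        = ((U⁻¹ : A1ˣ) : A1) * (b * c) * ((V⁻¹ : A1ˣ) : A1) := by
          simp only [mul_assoc]
      _ = 1 - τ := by
          rw [← e2]
          simp only [mul_assoc, Units.inv_mul_cancel_left]
          rw [Units.mul_inv, mul_one]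
  have hb' : aug (((U⁻¹ : A1ˣ) : A1) * b) = 0 := by rw [aug_mul, hb, mul_zero]
  have hc' : aug (c * ((V⁻¹ : A1ˣ) : A1)) = 0 := by rw [aug_mul, hc, zero_mul]
  refine hnear τ.fn ?_ (a1_summable τ) ?_ _ _ (a1_summable (((U⁻¹ : A1ˣ) : A1) * b))
    (a1_summable (c * ((V⁻¹ : A1ˣ) : A1))) hb' hc' ?_
  · intro g hg
    by_cases h3 : R3 g
    · exact h3
    · have h4 : τ.fn g = T0 g := by
        rw [hτ, fn_sub]
        change T0 g - (if R3 g then v.2.2.fn g else 0) = T0 g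
        rw [if_neg h3, sub_zero]
      rw [h4] at hg
      exact fin_supp hg
  · have h5 : (fun g => ‖τ.fn g - T0 g‖) = fun g => ‖(res R3 v.2.2).fn g‖ := by
      funext g
      rw [hτ, fn_sub]
      have : tt.fn g - (res R3 v.2.2).fn g - T0 g = -((res R3 v.2.2).fn g) := by
        change T0 g - (res R3 v.2.2).fn g - T0 g = _
        ring
      rw [this, norm_neg]
    rw [h5, ← a1_norm]
    exact (norm_res_le _ _).trans (n22.trans hvε.le)
  · rw [← fn_mul, e3, fn_sub, fn_one]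

theorem aug_a0 : aug a0 = 0 := by
  unfold aug a0
  rw [fn_sub, fn_one]
  change ∑' g, (del g - T0 g) = 0
  rw [del_summable'.of_norm.tsum_sub T0_summable.of_norm, tsum_T0]
  have : ∑' g : F2, del g = 1 := tsum_ite_eq (1 : F2) (fun _ => (1 : ℂ))
  rw [this, sub_self]

/-- the final statement in terms of functions -/
theorem final : ∃ a : F2 → ℂ, (Summable fun g => ‖a g‖) ∧ ∑' g, a g = 0 ∧
    ∃ δ : ℝ, 0 < δ ∧ ∀ b c : F2 → ℂ, (Summable fun g => ‖b g‖) → ∑' g, b g = 0 →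
      (Summable fun g => ‖c g‖) → ∑' g, c g = 0 →
        δ ≤ ∑' x, ‖(∑' g, b g * c (g⁻¹ * x)) - a x‖ := by
  obtain ⟨δ, hδ, h⟩ := fin_a1
  refine ⟨a0.fn, a1_summable a0, aug_a0, δ, hδ, fun b c hb hb0 hc hc0 => ?_⟩
  have h1 := h (A1.of b hb) (A1.of c hc) hb0 hc0
  rw [a1_norm] at h1
  exact h1

end Pool.Agent.Aug
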